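import Pool.Agent.Lib.ETR.Str.Cross

set_option autoImplicit false
set_option linter.unusedSimpArgs false

/-!
# The orientations of the arrangement
-/

namespace Pool.Agent.Lib.ETR.Str

theorem D3_base1 (m1 b1 m2 m3 p r : ℝ) :
    D3 m1 b1 m2 (b1 + (m1 - m2) * p) m3 (b1 + (m1 - m3) * r) = (m2 - m1) * (m3 - m1) * (r - p) := by
  unfold D3; ring

theorem D3_base3 (m1 m2 m3 b3 p r : ℝ) :
    D3 m1 (b3 + (m3 - m1) * p) m2 (b3 + (m3 - m2) * r) m3 b3 = (m3 - m1) * (m3 - m2) * (r - p) := by
  unfold D3; ring

namespace SPar

variable {L : List BCon} {n N : ℕ} (P : SPar L n N)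

/-- three lines of a loop -/
theorem loop3 {g : ℕ} {k : BCon} (hk : L[g]? = some k) (l p p' p'' : T3)
    (h1 : P.ms g k l p < P.ms g k l p') (h2 : P.ms g k l p' < P.ms g k l p'') :
    if (!k.2.2.2 : Bool) then 0 < D3 (P.ms g k l p) (P.bp g k l p) (P.ms g k l p') (P.bp g k l p')
      (P.ms g k l p'') (P.bp g k l p'')
    else D3 (P.ms g k l p) (P.bp g k l p) (P.ms g k l p') (P.bp g k l p')
      (P.ms g k l p'') (P.bp g k l p'') < 0 := by
  have hac := P.ms_ac hk l
  have hm := P.mem_of hk
  have hx : P.x2 k l < P.x1 k l := by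
    have h3 := P.hy _ (P.hN k hm l)
    have h4 := P.γζ
    have h5 := P.γ0
    rw [x1, x2, P.v1 _ (P.hN k hm l)]
    split_ifs <;> linarith [h3.1]
  have eb : P.bp g k l .b = P.bp g k l .a + (P.ms g k l .a - P.ms g k l .b) * P.x1 k l := rfl
  have ec : P.bp g k l .c = P.bp g k l .b + (P.ms g k l .b - P.ms g k l .c) * P.x2 k l := by
    simp only [bp, i12, i23]; ring
  have ea : P.bp g k l .a = P.bp g k l .b + (P.ms g k l .b - P.ms g k l .a) * P.x1 k l := by
    rw [eb]; ring
  have hε := P.ε_small'
  have hε0 := P.ε_nonneg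
  have hζ := P.ζ0
  have hxx := P.hx _ (P.hn k hm l)
  have na := abs_le.mp (P.ms_near hk l .a)
  have nb := abs_le.mp (P.ms_near hk l .b)
  have nc := abs_le.mp (P.ms_near hk l .c)
  cases hs : k.2.2.2
  · have h3 := hac.1 hs
    simp only [Bool.not_false, if_true]
    cases l
    · -- b < c < a
      simp only [tyT, if_true, Bool.false_eq_true, if_false] at na nb nc
      have h4 : P.ms g k .a .b < P.ms g k .a .c := by linarith [nb.2, nc.1]
      cases p <;> cases p' <;> cases p'' <;> first | (exfalso; linarith) | skip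
      rw [ea, ec, D3_base1]
      exact mul_pos (mul_pos (by linarith) (by linarith)) (by linarith)
    · simp only [tyT, if_true, Bool.false_eq_true, if_false] at na nb nc
      have h4 : P.ms g k .b .b < P.ms g k .b .c := by linarith [nb.2, nc.1]
      cases p <;> cases p' <;> cases p'' <;> first | (exfalso; linarith) | skip
      rw [ea, ec, D3_base1]
      exact mul_pos (mul_pos (by linarith) (by linarith)) (by linarith)
    · -- c < a < b
      simp only [tyT, if_true, Bool.false_eq_true, if_false] at na nb nc
      have h4 : P.ms g k .c .a < P.ms g k .c .b := by linarith [na.2, nb.1]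
      cases p <;> cases p' <;> cases p'' <;> first | (exfalso; linarith) | skip
      rw [ea, ec, D3_base3]
      exact mul_pos (mul_pos (by linarith) (by linarith)) (by linarith)
  · have h3 := hac.2.1 hs
    simp only [Bool.not_true, Bool.false_eq_true, if_false]
    cases l
    · -- b < a < c
      simp only [tyT, if_true, Bool.false_eq_true, if_false] at na nb nc
      have h4 : P.ms g k .a .b < P.ms g k .a .a := by linarith [nb.2, na.1]
      cases p <;> cases p' <;> cases p'' <;> first | (exfalso; linarith) | skip
      rw [ea, ec, D3_base1]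
      exact mul_neg_of_pos_of_neg (mul_pos (by linarith) (by linarith)) (by linarith)
    · simp only [tyT, if_true, Bool.false_eq_true, if_false] at na nb nc
      have h4 : P.ms g k .b .b < P.ms g k .b .a := by linarith [nb.2, na.1]
      cases p <;> cases p' <;> cases p'' <;> first | (exfalso; linarith) | skip
      rw [ea, ec, D3_base1]
      exact mul_neg_of_pos_of_neg (mul_pos (by linarith) (by linarith)) (by linarith)
    · -- a < c < b
      simp only [tyT, if_true, Bool.false_eq_true, if_false] at na nb nc
      have h4 : P.ms g k .c .c < P.ms g k .c .b := by linarith [nc.2, nb.1]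
      cases p <;> cases p' <;> cases p'' <;> first | (exfalso; linarith) | skip
      rw [ea, ec, D3_base3]
      exact mul_neg_of_pos_of_neg (mul_pos (by linarith) (by linarith)) (by linarith)

theorem D3_shift (m1 b1 m2 b2 m3 b3 h : ℝ) :
    D3 m1 (h + b1) m2 (h + b2) m3 (h + b3) = D3 m1 b1 m2 b2 m3 b3 := by
  unfold D3; ring

theorem fff_spec {f f' f'' : FL} (hf : f ∈ fls L n) (hf' : f' ∈ fls L n) (hf'' : f'' ∈ fls L n)
    (h1 : f.slope P.base P.α < f'.slope P.base P.α)
    (h2 : f'.slope P.base P.α < f''.slope P.base P.α) :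
    if fff f f' f'' then 0 < D3 (f.slope P.base P.α) (P.bb f) (f'.slope P.base P.α) (P.bb f')
      (f''.slope P.base P.α) (P.bb f'')
    else D3 (f.slope P.base P.α) (P.bb f) (f'.slope P.base P.α) (P.bb f')
      (f''.slope P.base P.α) (P.bb f'') < 0 := by
  have c1 := P.cls_le hf hf' h1
  have c2 := P.cls_le hf' hf'' h2
  have hM := P.M1
  have hΛ := P.Λ16
  have hα := P.α0
  have ne1 : f ≠ f' := by rintro rfl; exact lt_irrefl _ h1
  have ne2 : f' ≠ f'' := by rintro rfl; exact lt_irrefl _ h2
  have hζ := P.ζ0
  have b1 := P.bb_pos hf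
  have b2 := P.bb_pos hf'
  have b3 := P.bb_pos hf''
  have b1' := P.bb_le hf
  have b2' := P.bb_le hf'
  have b3' := P.bb_le hf''
  by_cases hc : f.cls = f''.cls
  · have e1 : f.cls = f'.cls := by omega
    have e2 : f'.cls = f''.cls := by omega
    have s1 := P.same_gap hf hf' e1 h1
    have s2 := P.same_gap hf' hf'' e2 h2
    have n1 := abs_le.mp (P.bb_near hf)
    have n2 := abs_le.mp (P.bb_near hf')
    have n3 := abs_le.mp (P.bb_near hf'')
    by_cases hg : f.gad = f'.gad ∧ f'.gad = f''.gad
    · have hfff : fff f f' f'' = !f.sb := by rw [fff, if_pos hc, if_pos hg]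
      obtain ⟨g, k, l, p, p', hk, r1, r2⟩ := P.same_loop hf hf' e1 hg.1 ne1
      obtain ⟨g', k', l', q, q', hk', t1, t2⟩ := P.same_loop hf' hf'' e2 hg.2 ne2
      have hgg : g = g' := by
        rw [r2] at t1
        injection t1
      subst hgg
      have hkk : k = k' := by rw [hk] at hk'; exact Option.some_inj.mp hk'
      subst hkk
      have hll : l = l' := by
        rw [r2] at t1
        injection t1
      subst hll
      have m1 : f.slope P.base P.α = P.ms g k l p := by rw [r1]; rfl
      have m2 : f'.slope P.base P.α = P.ms g k l p' := by rw [r2]; rfl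
      have m3 : f''.slope P.base P.α = P.ms g k l q' := by rw [t2]; rfl
      have u1 : P.bb f = P.h (2 * g + 1) + P.bp g k l p := by rw [r1, P.bb_lp hk]
      have u2 : P.bb f' = P.h (2 * g + 1) + P.bp g k l p' := by rw [r2, P.bb_lp hk]
      have u3 : P.bb f'' = P.h (2 * g + 1) + P.bp g k l q' := by rw [t2, P.bb_lp hk]
      have hsb : f.sb = k.2.2.2 := by rw [r1]; rfl
      rw [m1, m2] at h1
      rw [m2, m3] at h2
      rw [hfff, hsb, m1, m2, m3, u1, u2, u3, D3_shift]
      exact P.loop3 hk l p p' q' h1 h2
    · have hfff : fff f f' f'' = (decide (f.gad ≤ f'.gad) && decide (f''.gad ≤ f'.gad)) := by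
        rw [fff, if_pos hc, if_neg hg]
      rw [hfff]
      have h0 := P.hh0
      split_ifs with hd
      · simp only [Bool.and_eq_true, decide_eq_true_eq] at hd
        obtain ⟨d1, d2⟩ := hd
        rcases Nat.lt_or_eq_of_le d1 with d1 | d1
        · obtain ⟨w1, w2⟩ := P.hW d1
          have z1 := h0 f.gad
          refine same_pos hα s1.1 s1.2 s2.1 s2.2 (w := P.h f.gad + 2 * P.Λ) (by linarith) w1
            (by linarith [n1.2, n2.1]) ?_ (Or.inl (by linarith [n1.2, n2.1]))
          rcases Nat.lt_or_eq_of_le d2 with d2 | d2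
          · have w3 := (P.hW d2).2
            linarith [n3.2, n2.1]
          · rw [d2] at n3
            linarith [n3.2, n2.1]
        · have d2 : f''.gad < f'.gad := by
            rcases Nat.lt_or_eq_of_le d2 with d2 | d2
            · exact d2
            · exact absurd ⟨d1, d2.symm⟩ hg
          obtain ⟨w1, w2⟩ := P.hW d2
          have z1 := h0 f''.gad
          rw [d1] at n1
          exact same_pos hα s1.1 s1.2 s2.1 s2.2 (w := P.h f''.gad + 2 * P.Λ) (by linarith) w1
            (by linarith [n1.2, n2.1]) (by linarith [n3.2, n2.1]) (Or.inr (by linarith [n3.2, n2.1]))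
      · simp only [Bool.and_eq_true, decide_eq_true_eq, not_and_or, not_le] at hd
        rcases lt_or_ge f'.gad f.gad with d1 | d1
        · obtain ⟨w1, w2⟩ := P.hW d1
          have z1 := h0 f'.gad
          have z3 := h0 f''.gad
          refine same_neg hα s1.1 s1.2 s2.1 s2.2 (w := P.h f'.gad + 2 * P.Λ) (by linarith) w1
            (by linarith [n1.1, n2.2]) (by linarith [n2.2, n3.1]) (Or.inl (by linarith [n1.1, n2.2]))
        · have d2 : f'.gad < f''.gad := by
            rcases hd with hd | hd
            · omega
            · exact hd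
          obtain ⟨w1, w2⟩ := P.hW d2
          have z1 := h0 f'.gad
          have z3 := h0 f.gad
          refine same_neg hα s1.1 s1.2 s2.1 s2.2 (w := P.h f'.gad + 2 * P.Λ) (by linarith) w1
            (by linarith [n1.1, n2.2]) (by linarith [n2.2, n3.1]) (Or.inr (by linarith [n3.1, n2.2]))
  · rw [D3_eq]
    by_cases hc' : f'.cls = f''.cls
    · have hfff : fff f f' f'' = blt f'' f' := by rw [fff, if_neg hc, if_pos hc']
      rw [hfff]
      have hcc : f.cls < f'.cls := by omega
      obtain ⟨g1, g2⟩ := P.cls_gap hf hf' hcc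
      have s2 := P.same_gap hf' hf'' hc' h2
      have hT := P.hT0 _ (mem_fls.mp hf).1
      have hb := P.blt_spec hf'' hf' ne2.symm
      have hY : |P.bb f' - P.bb f| ≤ P.H := by rw [abs_le]; constructor <;> linarith
      split_ifs with hd
      · rw [add_comm]
        exact dom_pos (X := P.bb f' - P.bb f'') (by linarith [hb.1 hd]) g2 hY (by linarith)
          (by linarith : _ ≤ P.T f.cls + P.M + 1) g1
      · rw [add_comm]
        exact dom_neg (X := P.bb f' - P.bb f'') (by linarith [hb.2 (by simpa using hd)]) g2 hY
          (by linarith) (by linarith : _ ≤ P.T f.cls + P.M + 1) g1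
    · have hfff : fff f f' f'' = blt f f' := by rw [fff, if_neg hc, if_neg hc']
      rw [hfff]
      have hcc : f'.cls < f''.cls := by omega
      obtain ⟨g1, g2⟩ := P.cls_gap hf' hf'' hcc
      have hb := P.blt_spec hf hf' ne1
      have hhi := P.slope_hi hf'
      have hpos := P.slope_pos hf
      have hε := P.ε_half
      have hY : |P.bb f' - P.bb f''| ≤ P.H := by rw [abs_le]; constructor <;> linarith
      split_ifs with hd
      · exact dom_pos (X := P.bb f' - P.bb f) (by linarith [hb.1 hd]) g2 hY (by linarith)
          (by linarith : _ ≤ P.T f'.cls + P.M + 1) g1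
      · exact dom_neg (X := P.bb f' - P.bb f) (by linarith [hb.2 (by simpa using hd)]) g2 hY
          (by linarith) (by linarith : _ ≤ P.T f'.cls + P.M + 1) g1

/-! ### All lines -/

/-- the slopes -/
noncomputable def mu (a : Ln) : ℝ := a.slope P.base P.α P.K P.KX

/-- the heights -/
noncomputable def nu : Ln → ℝ
  | .vm j => P.K j * P.v j
  | .fl f => P.bb f
  | .vp j => -P.K j * P.v j
  | .x0 => 0

theorem S_pos {f : FL} (hf : f ∈ fls L n) : 0 < P.S := (P.slope_pos hf).trans (P.slope_S hf)

theorem S_pos' (hn : 0 < n) : 0 < P.S := P.S_pos (ref_mem (L := L) hn false)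

theorem H_pos' (hn : 0 < n) : 0 < P.H := P.H_pos (ref_mem (L := L) hn false)

theorem K_big (hn : 0 < n) (j : ℕ) : 0 < P.K j ∧ P.H * P.S < P.K j * P.δ ∧ 4 * P.H < P.K j ∧
    P.H + P.S * P.V < P.K j * P.γ ∧ P.S < P.K j := by
  have h1 := P.hK0 j
  have hS := P.S_pos' hn
  have hH := P.H_pos' hn
  obtain ⟨d1, d2, d3⟩ := P.δ_small
  have hδ := P.δ0
  have hV := P.V2
  have e1 : 0 < P.H * P.S := mul_pos hH hS
  have e2 : 0 < P.S * P.V := mul_pos hS (by linarith)
  have hK : 0 < P.K j := by
    have : 0 < P.K j * P.δ := by linarith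
    exact (mul_pos_iff_of_pos_right hδ).mp this
  have e3 : P.K j * P.δ ≤ P.K j * 1 := mul_le_mul_of_nonneg_left d1 hK.le
  have e4 : P.K j * P.δ ≤ P.K j * P.γ := mul_le_mul_of_nonneg_left d3 hK.le
  refine ⟨hK, ?_, ?_, ?_, ?_⟩ <;> linarith

theorem all_pos (hn : 0 < n) : ∀ a ∈ names L n N, ∀ b ∈ names L n N, ∀ c ∈ names L n N,
    P.mu a < P.mu b → P.mu b < P.mu c →
      if pos a b c then 0 < D3 (P.mu a) (P.nu a) (P.mu b) (P.nu b) (P.mu c) (P.nu c)
      else D3 (P.mu a) (P.nu a) (P.mu b) (P.nu b) (P.mu c) (P.nu c) < 0 := by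
  have hS := P.S_pos' hn
  have hH := P.H_pos' hn
  have hK := P.K_big hn
  have hγ := P.γ0
  have hV := P.V2
  have hKX := P.hKX
  have hKX0 := P.hKX0
  have hKXS := P.hKXS
  have hKKl : ∀ i j, P.K i < P.K j → i < j := by
    intro i j hij
    by_contra h
    rcases Nat.lt_or_eq_of_le (not_lt.mp h) with h | h
    · linarith [(P.hK _ _ h).2]
    · rw [h] at hij; exact lt_irrefl _ hij
  have hvlt : ∀ i j, i < j → j < 2 * N → P.v i < P.v j := fun i j h1 h2 => by
    linarith [P.vmono i j h1 h2]
  intro a ha b hb c hc hab hbc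
  rcases mem_names.mp ha with ⟨i, hi, rfl⟩ | ⟨f, hf, rfl⟩ | ⟨i, hi, rfl⟩ | rfl
  · -- vm
    have vi := P.vge i hi
    have vi' := P.vV i hi
    obtain ⟨ki0, ki1, ki2, ki3, ki4⟩ := hK i
    rcases mem_names.mp hb with ⟨j, hj, rfl⟩ | ⟨f', hf', rfl⟩ | ⟨j, hj, rfl⟩ | rfl
    · have vj := P.vge j hj
      have vj' := P.vV j hj
      obtain ⟨kj0, kj1, kj2, kj3, kj4⟩ := hK j
      have hji : j < i := hKKl _ _ (by simp only [mu, Ln.slope] at hab; linarith)
      have mji := P.vmono j i hji hi
      rcases mem_names.mp hc with ⟨k, hk, rfl⟩ | ⟨f'', hf'', rfl⟩ | ⟨k, hk, rfl⟩ | rfl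
      · -- vm vm vm
        have vk := P.vge k hk
        obtain ⟨kk0, kk1, kk2, kk3, kk4⟩ := hK k
        have hkj : k < j := hKKl _ _ (by simp only [mu, Ln.slope] at hbc; linarith)
        have mkj := P.vmono k j hkj hj
        simp only [pos, Bool.false_eq_true, if_false, mu, Ln.slope, nu]
        exact mmm_neg kk0 (P.hK _ _ hkj).2 (P.hK _ _ hji).2 hγ (by linarith) mkj mji
          (by linarith) (P.hK _ _ hkj).1
      · -- vm vm fl
        simp only [pos, Bool.false_eq_true, if_false, mu, Ln.slope, nu]
        exact mmf_neg (P.slope_pos hf'') (P.bb_pos hf'') kj0 (P.hK _ _ hji).2 (by linarith)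
          (by linarith)
      · -- vm vm vp
        have vk := P.vge k hk
        have vk' := P.vV k hk
        obtain ⟨kk0, kk1, kk2, kk3, kk4⟩ := hK k
        simp only [pos, mu, Ln.slope, nu, decide_eq_true_eq]
        split_ifs with hd
        · -- i < k
          have mik := P.vmono i k hd hk
          exact mmp_pos kk0 kj0 (P.hK _ _ hji).2 hγ (by linarith) (by linarith) mik (by linarith)
            (P.hK _ _ hji).1 (P.hK _ _ (by omega)).1
        · rw [not_lt] at hd
          have hvk : P.v k ≤ P.v i := by
            rcases Nat.lt_or_eq_of_le hd with h | h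
            · linarith [hvlt k i h hi]
            · rw [h]
          refine mmp_neg (V := P.V) kk0 kj0 (P.hK _ _ hji).2 hγ (by linarith) mji hvk (by linarith)
            (by linarith) ?_
          rcases lt_or_ge k j with h | h
          · exact Or.inr (P.hK _ _ (by omega)).1
          · refine Or.inl ?_
            rcases Nat.lt_or_eq_of_le h with h | h
            · linarith [hvlt j k h hk]
            · rw [h]
      · -- vm vm x0
        simp only [pos, Bool.false_eq_true, if_false, mu, Ln.slope, nu]
        exact mmx_neg kj0 (P.hK _ _ hji).2 (hKX i hi) (by linarith) (by linarith)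
    · -- vm fl
      have p' := P.slope_pos hf'
      have s' := P.slope_S hf'
      have bp' := P.bb_pos hf'
      have bl' := P.bb_le hf'
      rcases mem_names.mp hc with ⟨k, hk, rfl⟩ | ⟨f'', hf'', rfl⟩ | ⟨k, hk, rfl⟩ | rfl
      · exfalso
        have := (hK k).1
        simp only [mu, Ln.slope] at hbc
        linarith
      · -- vm fl fl
        have s'' := P.slope_S hf''
        have bp'' := P.bb_pos hf''
        have bl'' := P.bb_le hf''
        simp only [mu, Ln.slope] at hbc
        have hl := P.lle_spec hf' hf'' hbc hi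
        simp only [pos, mu, Ln.slope, nu]
        cases hd : lle f' f'' i
        · simp only [Bool.not_false, if_true]
          exact mff_pos p'.le hbc.le s''.le bp'.le bp''.le bl' bl'' ki0 ki1 (hl.2 hd)
        · simp only [Bool.not_true, Bool.false_eq_true, if_false]
          exact mff_neg p'.le hbc.le s''.le bp'.le bp''.le bl' bl'' ki0 ki1 (hl.1 hd)
      · -- vm fl vp
        have vk := P.vge k hk
        have vk' := P.vV k hk
        obtain ⟨kk0, kk1, kk2, kk3, kk4⟩ := hK k
        simp only [pos, mu, Ln.slope, nu, decide_eq_true_eq]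
        split_ifs with hd
        · refine mfp_pos p' bp' ki0 kk0 (by linarith) ?_
          rcases Nat.lt_or_eq_of_le hd with h | h
          · linarith [hvlt i k h hk]
          · rw [h]
        · exact mfp_neg p' s'.le bl' ki0 kk0 (by linarith) (P.vmono k i (by omega) hi)
            (by linarith) ki3 kk3 hγ
      · -- vm fl x0
        simp only [pos, Bool.false_eq_true, if_false, mu, Ln.slope, nu]
        exact mfx_neg s'.le bp' bl' ki0 (hKX i hi) vi ki2 hKXS hS
    · -- vm vp
      have vj := P.vge j hj
      have vj' := P.vV j hj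
      obtain ⟨kj0, kj1, kj2, kj3, kj4⟩ := hK j
      rcases mem_names.mp hc with ⟨k, hk, rfl⟩ | ⟨f'', hf'', rfl⟩ | ⟨k, hk, rfl⟩ | rfl
      · exfalso
        have := (hK k).1
        simp only [mu, Ln.slope] at hbc
        linarith
      · exfalso
        have := P.slope_S hf''
        simp only [mu, Ln.slope] at hbc
        linarith
      · -- vm vp vp
        have vk := P.vge k hk
        have vk' := P.vV k hk
        obtain ⟨kk0, kk1, kk2, kk3, kk4⟩ := hK k
        have hjk : j < k := hKKl _ _ (by simp only [mu, Ln.slope] at hbc; linarith)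
        have mjk := P.vmono j k hjk hk
        simp only [pos, mu, Ln.slope, nu, decide_eq_true_eq]
        split_ifs with hd
        · have hvk : P.v i ≤ P.v k := by
            rcases Nat.lt_or_eq_of_le hd with h | h
            · linarith [hvlt i k h hk]
            · rw [h]
          refine mpp_pos (V := P.V) ki0 kj0 (P.hK _ _ hjk).2 hγ (by linarith) mjk hvk (by linarith)
            (by linarith) ?_
          rcases lt_or_ge i j with h | h
          · exact Or.inr (P.hK _ _ (by omega)).1
          · refine Or.inl ?_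
            rcases Nat.lt_or_eq_of_le h with h | h
            · linarith [hvlt j i h hi]
            · rw [h]
        · rw [not_le] at hd
          have mki := P.vmono k i hd hi
          exact mpp_neg ki0 kj0 (P.hK _ _ hjk).2 hγ (by linarith) (by linarith) mki (by linarith)
            (P.hK _ _ hjk).1 (P.hK _ _ (by omega)).1
      · -- vm vp x0
        simp only [pos, Bool.false_eq_true, if_false, mu, Ln.slope, nu]
        exact mpx_neg ki0 kj0 (hKX j hj) (by linarith) (by linarith)
    · -- vm x0
      exfalso
      rcases mem_names.mp hc with ⟨k, hk, rfl⟩ | ⟨f'', hf'', rfl⟩ | ⟨k, hk, rfl⟩ | rfl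
      · have := (hK k).1
        simp only [mu, Ln.slope] at hbc
        linarith
      · have := P.slope_S hf''
        simp only [mu, Ln.slope] at hbc
        linarith
      · have := hKX k hk
        simp only [mu, Ln.slope] at hbc
        linarith
      · exact lt_irrefl _ hbc
  · -- fl
    have p := P.slope_pos hf
    have s := P.slope_S hf
    have bp := P.bb_pos hf
    have bl := P.bb_le hf
    rcases mem_names.mp hb with ⟨j, hj, rfl⟩ | ⟨f', hf', rfl⟩ | ⟨j, hj, rfl⟩ | rfl
    · exfalso
      have := (hK j).1
      simp only [mu, Ln.slope] at hab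
      linarith
    · -- fl fl
      have p' := P.slope_pos hf'
      have s' := P.slope_S hf'
      have bp' := P.bb_pos hf'
      have bl' := P.bb_le hf'
      simp only [mu, Ln.slope] at hab
      rcases mem_names.mp hc with ⟨k, hk, rfl⟩ | ⟨f'', hf'', rfl⟩ | ⟨k, hk, rfl⟩ | rfl
      · exfalso
        have := (hK k).1
        simp only [mu, Ln.slope] at hbc
        linarith
      · -- fl fl fl
        simp only [mu, Ln.slope] at hbc
        simp only [pos, mu, Ln.slope, nu]
        exact P.fff_spec hf hf' hf'' hab hbc
      · -- fl fl vp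
        obtain ⟨kk0, kk1, kk2, kk3, kk4⟩ := hK k
        have hl := P.lle_spec hf hf' hab hk
        simp only [pos, mu, Ln.slope, nu]
        cases hd : lle f f' k
        · simp only [Bool.false_eq_true, if_false]
          exact ffp_neg p.le hab.le s'.le bp.le bp'.le bl bl' kk0 kk1 (hl.2 hd)
        · simp only [if_true]
          exact ffp_pos p.le hab.le s'.le bp.le bp'.le bl bl' kk0 kk1 (hl.1 hd)
      · -- fl fl x0
        have hne : f ≠ f' := by rintro rfl; exact lt_irrefl _ hab
        have hl := P.blt_spec hf hf' hne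
        obtain ⟨d1, d2, d3⟩ := P.δ_small
        have hX : 0 < P.KX := by linarith
        simp only [pos, mu, Ln.slope, nu]
        cases hd : blt f f'
        · simp only [Bool.false_eq_true, if_false]
          exact ffx_neg p.le hab.le s'.le bp.le bp'.le bl bl' hX hKX0 (by linarith [hl.2 hd])
        · simp only [if_true]
          exact ffx_pos p.le hab.le s'.le bp.le bp'.le bl bl' hX hKX0 (by linarith [hl.1 hd])
    · -- fl vp
      have vj := P.vge j hj
      have vj' := P.vV j hj
      obtain ⟨kj0, kj1, kj2, kj3, kj4⟩ := hK j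
      rcases mem_names.mp hc with ⟨k, hk, rfl⟩ | ⟨f'', hf'', rfl⟩ | ⟨k, hk, rfl⟩ | rfl
      · exfalso
        have := (hK k).1
        simp only [mu, Ln.slope] at hbc
        linarith
      · exfalso
        have := P.slope_S hf''
        simp only [mu, Ln.slope] at hbc
        linarith
      · -- fl vp vp
        have vk' := P.vV k hk
        have hjk : j < k := hKKl _ _ (by simp only [mu, Ln.slope] at hbc; linarith)
        simp only [pos, if_true, mu, Ln.slope, nu]
        exact fpp_pos p s.le bp bl kj0 (P.hK _ _ hjk).2 (by linarith) (P.vmono j k hjk hk)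
          (by linarith) kj3 hγ
      · -- fl vp x0
        simp only [pos, Bool.false_eq_true, if_false, mu, Ln.slope, nu]
        exact fpx_neg (by linarith) bp kj0 (hKX j hj) (by linarith)
    · -- fl x0
      exfalso
      rcases mem_names.mp hc with ⟨k, hk, rfl⟩ | ⟨f'', hf'', rfl⟩ | ⟨k, hk, rfl⟩ | rfl
      · have := (hK k).1
        simp only [mu, Ln.slope] at hbc
        linarith
      · have := P.slope_S hf''
        simp only [mu, Ln.slope] at hbc
        linarith
      · have := hKX k hk
        simp only [mu, Ln.slope] at hbc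
        linarith
      · exact lt_irrefl _ hbc
  · -- vp
    have vi := P.vge i hi
    have vi' := P.vV i hi
    obtain ⟨ki0, ki1, ki2, ki3, ki4⟩ := hK i
    rcases mem_names.mp hb with ⟨j, hj, rfl⟩ | ⟨f', hf', rfl⟩ | ⟨j, hj, rfl⟩ | rfl
    · exfalso
      have := (hK j).1
      simp only [mu, Ln.slope] at hab
      linarith
    · exfalso
      have := P.slope_S hf'
      simp only [mu, Ln.slope] at hab
      linarith
    · -- vp vp
      have vj := P.vge j hj
      have vj' := P.vV j hj
      obtain ⟨kj0, kj1, kj2, kj3, kj4⟩ := hK j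
      have hij : i < j := hKKl _ _ (by simp only [mu, Ln.slope] at hab; linarith)
      have mij := P.vmono i j hij hj
      rcases mem_names.mp hc with ⟨k, hk, rfl⟩ | ⟨f'', hf'', rfl⟩ | ⟨k, hk, rfl⟩ | rfl
      · exfalso
        have := (hK k).1
        simp only [mu, Ln.slope] at hbc
        linarith
      · exfalso
        have := P.slope_S hf''
        simp only [mu, Ln.slope] at hbc
        linarith
      · -- vp vp vp
        have vk' := P.vV k hk
        have hjk : j < k := hKKl _ _ (by simp only [mu, Ln.slope] at hbc; linarith)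
        simp only [pos, if_true, mu, Ln.slope, nu]
        exact ppp_pos ki0 (P.hK _ _ hij).2 (P.hK _ _ hjk).2 hγ (by linarith) mij
          (P.vmono j k hjk hk) (by linarith) (P.hK _ _ hij).1
      · -- vp vp x0
        simp only [pos, Bool.false_eq_true, if_false, mu, Ln.slope, nu]
        exact ppx_neg ki0 (P.hK _ _ hij).2 (hKX j hj) (by linarith) (by linarith)
    · -- vp x0
      exfalso
      rcases mem_names.mp hc with ⟨k, hk, rfl⟩ | ⟨f'', hf'', rfl⟩ | ⟨k, hk, rfl⟩ | rfl
      · have := (hK k).1
        simp only [mu, Ln.slope] at hbc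
        linarith
      · have := P.slope_S hf''
        simp only [mu, Ln.slope] at hbc
        linarith
      · have := hKX k hk
        simp only [mu, Ln.slope] at hbc
        linarith
      · exact lt_irrefl _ hbc
  · -- x0
    exfalso
    rcases mem_names.mp hb with ⟨k, hk, rfl⟩ | ⟨f'', hf'', rfl⟩ | ⟨k, hk, rfl⟩ | rfl
    · have := (hK k).1
      simp only [mu, Ln.slope] at hab
      linarith
    · have := P.slope_S hf''
      simp only [mu, Ln.slope] at hab
      linarith
    · have := hKX k hk
      simp only [mu, Ln.slope] at hab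
      linarith
    · exact lt_irrefl _ hab

theorem mu_pairwise (hn : 0 < n) : (names L n N).Pairwise (fun a b => P.mu a < P.mu b) := by
  have hS := P.S_pos' hn
  have hK := P.K_big hn
  refine names_pairwise (R := RR L) (S := P.S) P.α0 (le_refl _) ?_
    (fun f hf => ⟨P.slope_pos hf, P.slope_S hf⟩) (fun j => (hK j).2.2.2.2.le) (fun j => (hK j).1)
    (fun i j hij => (P.hK i j hij).2) P.hKX (by linarith [P.hKXS]) (by linarith [P.hKXS])
  intro k hk
  have hε := P.ε_small'
  have hε' : P.α * RR L = P.ε := rfl
  have hζ := P.ζ0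
  have h3 := P.ε_half
  have hM := P.M1
  rcases Nat.even_or_odd' k with ⟨c, rfl | rfl⟩
  · have h1 := P.base_false c
    have h2 := P.base_true c
    simp only [Bool.toNat_false, Bool.toNat_true, add_zero] at h1 h2
    rw [h1, h2]
    have := (P.hx c (by omega)).1
    linarith
  · have h1 := P.base_true c
    have h2 := P.base_false (c + 1)
    simp only [Bool.toNat_false, Bool.toNat_true, add_zero] at h1 h2
    rw [show 2 * c + 1 + 1 = 2 * (c + 1) by ring, h1, h2]
    have h4 := (P.hx c (by omega)).2
    have h5 := P.hT c (c + 1) (by omega) (by omega)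
    have h6 := P.hT0 c (by omega)
    have h7 := P.H_pos' hn
    have h8 : 0 < P.H * (P.T c + P.M + 1) := mul_pos h7 (by linarith)
    have h9 : 0 < P.ζ / 40 * (P.T (c + 1) - P.T c - 2 * (P.M + 1)) := by linarith
    have h10 := (mul_pos_iff_of_pos_left (by linarith)).mp h9
    linarith

include P in
theorem realizes (hn : 0 < n) : ∃ m b, Realizes (names L n N).length (posI L n N) m b :=
  ⟨_, _, realizes_of (P.mu_pairwise hn) (P.all_pos hn)⟩

end SPar

end Pool.Agent.Lib.ETR.Str
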