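import Pool.Agent.Lib.ETR.Bilin

set_option autoImplicit false
set_option linter.unusedSimpArgs false

/-!
# Comparisons in which the first two indices of `y` are different
-/

namespace Pool.Agent.Lib.ETR.Str

open Filter Topology

/-- `x y + x y < x y`, or `x_q y_q < x_r y_r < x_p y_p + x_q y_q` for `(p, q, r, s)`. -/
def KHolds (x y : ℕ → ℝ) : BCon → Prop
  | (p, q, r, false) => x p.1 * y p.2 + x q.1 * y q.2 < x r.1 * y r.2
  | (p, q, r, true) => x q.1 * y q.2 < x r.1 * y r.2 ∧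
      x r.1 * y r.2 < x p.1 * y p.2 + x q.1 * y q.2

/-- the weak form -/
def KWeak (x y : ℕ → ℝ) : BCon → Prop
  | (p, q, r, false) => x p.1 * y p.2 + x q.1 * y q.2 < x r.1 * y r.2
  | (p, q, r, true) => x r.1 * y r.2 < x p.1 * y p.2 + x q.1 * y q.2

/-- The indices of `x` are distinct, and the first two indices of `y`. -/
def KGood (k : BCon) : Prop :=
  (k.1.1 ≠ k.2.1.1 ∧ k.1.1 ≠ k.2.2.1.1 ∧ k.2.1.1 ≠ k.2.2.1.1) ∧ k.1.2 ≠ k.2.1.2

/-- the comparisons which replace a comparison -/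
def conv1 (k : BCon) : List BCon :=
  [((2, 0), (0, 3 * k.2.1.2 + 3), (1, 3 * k.2.1.2 + 2), false),
    ((2, 0), (0, 3 * k.2.1.2 + 2), (1, 3 * k.2.1.2 + 4), false),
    ((k.2.1.1 + 3, if k.2.2.2 then 3 * k.2.1.2 + 3 else 3 * k.2.1.2 + 4),
      (k.1.1 + 3, 3 * k.1.2 + 2), (k.2.2.1.1 + 3, 3 * k.2.2.1.2 + 2), k.2.2.2),
    ((2, 0), (k.1.1 + 3, 3 * k.1.2 + 2), (k.2.2.1.1 + 3, 3 * k.2.2.1.2 + 2), false)]

/-- the new list of comparisons -/
def conv (L : List BCon) : List BCon := ((2, 0), (1, 1), (0, 1), false) :: L.flatMap conv1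

theorem conv_good {L : List BCon} (hL : ∀ k ∈ L, BCon.dist k) : ∀ k ∈ conv L, KGood k := by
  intro k hk
  rw [conv, List.mem_cons, List.mem_flatMap] at hk
  rcases hk with rfl | ⟨c, hc, hk⟩
  · simp [KGood]
  · have h := hL c hc
    obtain ⟨⟨a, b⟩, ⟨c, d⟩, ⟨e, f⟩, s⟩ := c
    simp only [BCon.dist] at h
    obtain ⟨h1, h2, h3⟩ := h
    simp only [conv1, List.mem_cons, List.not_mem_nil, or_false] at hk
    rcases hk with rfl | rfl | rfl | rfl
    · simp [KGood]
    · simp [KGood]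
    · cases s <;> simp only [KGood, if_true, Bool.false_eq_true, if_false] <;> omega
    · simp only [KGood]; omega

theorem conv_sound {L : List BCon} {x y : ℕ → ℝ} (hx : ∀ i, 0 < x i) (hy : ∀ j, 0 < y j)
    (h : ∀ k ∈ conv L, KWeak x y k) : BSolvable L := by
  refine ⟨fun i => x (i + 3), fun j => y (3 * j + 2), fun i => hx _, fun j => hy _, ?_⟩
  have h0 := h _ (List.mem_cons_self ..)
  simp only [KWeak] at h0
  have hI : x 1 < x 0 := by
    have h1 := hy 1
    have h2 := mul_pos (hx 2) (hy 0)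
    nlinarith
  intro k hk
  have h1 : ∀ c ∈ conv1 k, KWeak x y c := fun c hc =>
    h c (List.mem_cons_of_mem _ (List.mem_flatMap.mpr ⟨k, hk, hc⟩))
  obtain ⟨⟨a, b⟩, ⟨c, d⟩, ⟨e, f⟩, s⟩ := k
  simp only [conv1, List.mem_cons, List.not_mem_nil, or_false, forall_eq_or_imp, forall_eq] at h1
  obtain ⟨k1, k2, k3, k4⟩ := h1
  simp only [KWeak] at k1 k2 k4
  have hw := mul_pos (hx 2) (hy 0)
  have hc := hx (c + 3)
  have hd := hy (3 * d + 2)
  have m1 : y (3 * d + 3) < y (3 * d + 2) := by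
    have h2 : x 0 * y (3 * d + 3) < x 0 * y (3 * d + 2) := by
      have := mul_lt_mul_of_pos_right hI hd
      linarith
    exact lt_of_mul_lt_mul_left h2 (hx 0).le
  have m2 : y (3 * d + 2) < y (3 * d + 4) := by
    have h2 : x 0 * y (3 * d + 2) < x 0 * y (3 * d + 4) := by
      have := mul_lt_mul_of_pos_right hI (hy (3 * d + 4))
      linarith
    exact lt_of_mul_lt_mul_left h2 (hx 0).le
  cases s
  · simp only [KWeak, Bool.false_eq_true, if_false] at k3
    simp only [BCon.holds]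
    have := mul_lt_mul_of_pos_left m2 hc
    linarith
  · simp only [KWeak, if_true] at k3
    simp only [BCon.holds]
    have := mul_lt_mul_of_pos_left m1 hc
    exact ⟨by linarith, by linarith⟩

theorem conv_complete {L : List BCon} (h : BSolvable L) :
    ∃ x y : ℕ → ℝ, (∀ i, 0 < x i) ∧ (∀ j, 0 < y j) ∧ ∀ k ∈ conv L, KHolds x y k := by
  obtain ⟨x, y, hx, hy, h⟩ := h
  -- the choice of the distance of the copies
  have e1 : ∀ᶠ ε : ℝ in 𝓝[>] 0, ∀ k ∈ {k | k ∈ L},
      (k.2.2.2 = false → x k.2.1.1 * (y k.2.1.2 * (1 + 2 * ε)) + x k.1.1 * y k.1.2 <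
        x k.2.2.1.1 * y k.2.2.1.2) ∧
      (k.2.2.2 = true → x k.2.2.1.1 * y k.2.2.1.2 <
        x k.2.1.1 * (y k.2.1.2 * (1 - 2 * ε)) + x k.1.1 * y k.1.2) := by
    rw [eventually_all_finite (List.finite_toSet L)]
    intro k hk
    have hk' := h k hk
    obtain ⟨⟨a, b⟩, ⟨c, d⟩, ⟨e, f⟩, s⟩ := k
    refine nhdsWithin_le_nhds ?_
    cases s
    · simp only [BCon.holds] at hk'
      simp only [true_implies, Bool.false_eq_true, false_implies, and_true]
      refine ContinuousAt.eventually_lt (by fun_prop) (by fun_prop) ?_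
      simp only [mul_zero, add_zero, mul_one]
      linarith
    · simp only [BCon.holds] at hk'
      simp only [true_implies, reduceCtorEq, false_implies, true_and]
      refine ContinuousAt.eventually_lt (by fun_prop) (by fun_prop) ?_
      simp only [mul_zero, sub_zero, mul_one]
      linarith [hk'.2]
  have e2 : ∀ᶠ ε : ℝ in 𝓝[>] 0, ε < 1 / 2 :=
    nhdsWithin_le_nhds (eventually_lt_nhds (by norm_num))
  have e3 : ∀ᶠ ε : ℝ in 𝓝[>] 0, 0 < ε := eventually_mem_nhdsWithin
  obtain ⟨ε, h1, h2, h3⟩ := (e1.and (e2.and e3)).exists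
  have e4 : ∀ᶠ ω : ℝ in 𝓝[>] 0, ∀ k ∈ {k | k ∈ L}, ω < ε * y k.2.1.2 ∧
      ω + x k.1.1 * y k.1.2 < x k.2.2.1.1 * y k.2.2.1.2 := by
    rw [eventually_all_finite (List.finite_toSet L)]
    intro k hk
    have hk' := h k hk
    refine nhdsWithin_le_nhds ?_
    refine (eventually_lt_nhds (mul_pos h3 (hy _))).and ?_
    refine ContinuousAt.eventually_lt (by fun_prop) (by fun_prop) ?_
    obtain ⟨⟨a, b⟩, ⟨c, d⟩, ⟨e, f⟩, s⟩ := k
    have := mul_pos (hx c) (hy d)
    cases s
    · simp only [BCon.holds] at hk'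
      simp only
      linarith
    · simp only [BCon.holds] at hk'
      simp only
      linarith [hk'.1]
  have e5 : ∀ᶠ ω : ℝ in 𝓝[>] 0, ω < ε := nhdsWithin_le_nhds (eventually_lt_nhds h3)
  have e6 : ∀ᶠ ω : ℝ in 𝓝[>] 0, 0 < ω := eventually_mem_nhdsWithin
  obtain ⟨ω, h4, h5, h6⟩ := (e4.and (e5.and e6)).exists
  let X : ℕ → ℝ := fun i => if i = 0 then 1 + ε else if i = 1 then 1 else if i = 2 then ω
    else x (i - 3)
  let Y : ℕ → ℝ := fun j => if j < 2 then 1 else if j % 3 = 2 then y ((j - 2) / 3) else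
    if j % 3 = 0 then y ((j - 2) / 3) * (1 - 2 * ε) else y ((j - 2) / 3) * (1 + 2 * ε)
  have X0 : X 0 = 1 + ε := by simp [X]
  have X1 : X 1 = 1 := by simp [X]
  have X2 : X 2 = ω := by simp [X]
  have X3 : ∀ i, X (i + 3) = x i := by intro i; simp [X]
  have Y0 : Y 0 = 1 := by simp [Y]
  have Y1 : Y 1 = 1 := by simp [Y]
  have Y2 : ∀ j, Y (3 * j + 2) = y j := by
    intro j
    have a1 : ¬ (3 * j + 2 < 2) := by omega
    have a2 : (3 * j + 2) % 3 = 2 := by omega
    have a3 : (3 * j + 2 - 2) / 3 = j := by omega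
    simp only [Y, if_neg a1, if_pos a2, a3]
  have Y3 : ∀ j, Y (3 * j + 3) = y j * (1 - 2 * ε) := by
    intro j
    have a1 : ¬ (3 * j + 3 < 2) := by omega
    have a2 : ¬ ((3 * j + 3) % 3 = 2) := by omega
    have a4 : (3 * j + 3) % 3 = 0 := by omega
    have a3 : (3 * j + 3 - 2) / 3 = j := by omega
    simp only [Y, if_neg a1, if_neg a2, if_pos a4, a3]
  have Y4 : ∀ j, Y (3 * j + 4) = y j * (1 + 2 * ε) := by
    intro j
    have a1 : ¬ (3 * j + 4 < 2) := by omega
    have a2 : ¬ ((3 * j + 4) % 3 = 2) := by omega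
    have a4 : ¬ ((3 * j + 4) % 3 = 0) := by omega
    have a3 : (3 * j + 4 - 2) / 3 = j := by omega
    simp only [Y, if_neg a1, if_neg a2, if_neg a4, a3]
  refine ⟨X, Y, ?_, ?_, ?_⟩
  · intro i
    simp only [X]
    split_ifs
    · linarith
    · norm_num
    · exact h6
    · exact hx _
  · intro j
    simp only [Y]
    split_ifs
    · norm_num
    · exact hy _
    · exact mul_pos (hy _) (by linarith)
    · exact mul_pos (hy _) (by linarith)
  · intro k hk
    rw [conv, List.mem_cons, List.mem_flatMap] at hk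
    rcases hk with rfl | ⟨c, hc, hk⟩
    · simp only [KHolds, X0, X1, X2, Y0, Y1]
      linarith
    · have g1 := h1 c hc
      have g4 := h4 c hc
      have hh := h c hc
      obtain ⟨⟨a, b⟩, ⟨c, d⟩, ⟨e, f⟩, s⟩ := c
      have hd := hy d
      simp only at g1 g4
      simp only [conv1, List.mem_cons, List.not_mem_nil, or_false] at hk
      rcases hk with rfl | rfl | rfl | rfl
      · simp only [KHolds, X0, X1, X2, Y0, Y3, Y2]
        nlinarith [mul_pos hd (mul_pos h3 h3)]
      · simp only [KHolds, X0, X1, X2, Y0, Y4, Y2]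
        nlinarith
      · cases s
        · simp only [KHolds, Bool.false_eq_true, if_false, X3, Y2, Y4]
          exact g1.1 rfl
        · simp only [BCon.holds] at hh
          simp only [KHolds, if_true, X3, Y2, Y3]
          exact ⟨hh.1, g1.2 rfl⟩
      · simp only [KHolds, X2, X3, Y0, Y2]
        linarith [g4.2]

end Pool.Agent.Lib.ETR.Str
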