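import Pool.Agent.Lib.ETR.Str.Heights2

set_option autoImplicit false
set_option linter.unusedSimpArgs false

/-!
# The crossings of the lines
-/

namespace Pool.Agent.Lib.ETR.Str

namespace SPar

variable {L : List BCon} {n N : ℕ} (P : SPar L n N)

theorem bb_Λ {f : FL} (hf : f ∈ fls L n) : P.Λ ≤ P.bb f := by
  have h1 := abs_le.mp (P.bb_near hf)
  have h2 := P.hh0 f.gad
  linarith [h1.1]

theorem γ_small : P.γ ≤ 1 / 640 := by
  have h1 := P.γM
  have h2 := P.M1
  have h3 := P.ζ1
  have h4 := P.γ0
  nlinarith

theorem γζ : 640 * P.γ ≤ P.ζ := by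
  have h1 := P.γM
  have h2 := P.M1
  have h4 := P.γ0
  nlinarith

theorem δ_small : P.δ ≤ 1 ∧ P.δ ≤ P.ζ / 40 ∧ P.δ ≤ P.γ := by
  have h1 := P.γ_small
  have h2 := P.δγ
  have h3 := P.ζ1
  have h4 := P.ζ0
  have h5 := P.γ0
  refine ⟨?_, ?_, ?_⟩ <;> nlinarith

section gadget

variable {g : ℕ} {k : BCon} (hk : L[g]? = some k)

include P hk

theorem loc1 (l : T3) {j : ℕ} (hj : j < 2 * N) :
    (2 * ai k l + 1 + (qT l k.2.2.2).toNat ≤ j → P.γ ≤ P.v j - P.x1 k l) ∧
    (¬ 2 * ai k l + 1 + (qT l k.2.2.2).toNat ≤ j → P.γ ≤ P.x1 k l - P.v j) := by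
  have hm := P.mem_of hk
  have hjN := P.hN k hm l
  have hγ := P.γ0
  rw [x1]
  have mono := P.vmono
  have le : ∀ i, i ≤ 2 * ai k l + 1 → P.v i ≤ P.v (2 * ai k l + 1) := by
    intro i hi
    rcases Nat.lt_or_eq_of_le hi with h | h
    · linarith [mono i _ h (by omega)]
    · rw [h]
  cases qT l k.2.2.2
  · simp only [Bool.toNat_false, add_zero, Bool.false_eq_true, if_false]
    constructor
    · intro h
      rcases Nat.lt_or_eq_of_le h with h | h
      · linarith [mono _ j h hj]
      · rw [← h]; linarith
    · intro h
      linarith [mono j (2 * ai k l + 1) (by omega) (by omega)]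
  · simp only [Bool.toNat_true, if_true]
    constructor
    · intro h
      linarith [mono (2 * ai k l + 1) j (by omega) hj]
    · intro h
      linarith [le j (by omega)]

theorem loc2 (l : T3) {j : ℕ} (hj : j < 2 * N) :
    (2 * ai k l + 1 ≤ j + (qT l k.2.2.2).toNat → P.γ ≤ P.v j - P.x2 k l) ∧
    (¬ 2 * ai k l + 1 ≤ j + (qT l k.2.2.2).toNat → P.γ ≤ P.x2 k l - P.v j) := by
  have hm := P.mem_of hk
  have hjN := P.hN k hm l
  have hγ := P.γ0
  rw [x2]
  have mono := P.vmono
  cases qT l k.2.2.2
  · simp only [Bool.toNat_false, add_zero, Bool.false_eq_true, if_false]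
    constructor
    · intro h
      linarith [mono (2 * ai k l) j (by omega) hj]
    · intro h
      rcases Nat.lt_or_eq_of_le (show j ≤ 2 * ai k l by omega) with h | h
      · linarith [mono j _ h (by omega)]
      · rw [h]; linarith
  · simp only [Bool.toNat_true, if_true]
    constructor
    · intro h
      rcases Nat.lt_or_eq_of_le (show 2 * ai k l ≤ j by omega) with h | h
      · linarith [mono _ j h hj]
      · rw [← h]; linarith
    · intro h
      linarith [mono j (2 * ai k l) (by omega) (by omega)]

/-- the difference of the heights of the first and the third line -/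
theorem diff_ac (l : T3) :
    if tyT l .a then P.ζ * (9 / 10) ≤ P.i12 g k l + P.i23 g k l
      else P.i12 g k l + P.i23 g k l ≤ -(P.ζ * (9 / 10)) := by
  have h1 := abs_le.mp (P.loop_val hk l)
  have h2 := P.prod_bounds hk l
  have h3 := P.ζ0
  cases ht : tyT l .a
  · rw [ht] at h1
    simp only [Bool.false_eq_true, if_false] at h1 ⊢
    linarith [h1.2]
  · rw [ht] at h1
    simp only [if_true] at h1 ⊢
    linarith [h1.1]

theorem ms_ac (l : T3) : (k.2.2.2 = false → P.ms g k l .c < P.ms g k l .a) ∧
    (k.2.2.2 = true → P.ms g k l .a < P.ms g k l .c) ∧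
    |P.ms g k l .a - P.ms g k l .c| ≤ 2 * P.ε := by
  have hα := P.α0
  have ma : (0 : ℝ) < ((FL.lp g l .a (si k l) (ai k l) k.2.2.2).mag : ℝ) := by
    exact_mod_cast (show 0 < _ by simp only [FL.mag]; omega)
  have mc : (0 : ℝ) < ((FL.lp g l .c (si k l) (ai k l) k.2.2.2).mag : ℝ) := by
    exact_mod_cast (show 0 < _ by simp only [FL.mag]; omega)
  have ht : tyT l .c = tyT l .a := by cases l <;> rfl
  refine ⟨?_, ?_, ?_⟩
  · intro hs
    rw [hs] at ma mc
    simp only [ms, hs, FL.slope, FL.z, FL.sg, sgT, FL.cls, FL.ty, ht, Bool.not_false, if_true,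
      Bool.false_eq_true, if_false]
    nlinarith
  · intro hs
    rw [hs] at ma mc
    simp only [ms, hs, FL.slope, FL.z, FL.sg, sgT, FL.cls, FL.ty, ht, Bool.not_true, if_true,
      Bool.false_eq_true, if_false]
    nlinarith
  · have h1 := abs_le.mp (P.ms_near hk l .a)
    have h2 := abs_le.mp (P.ms_near hk l .c)
    rw [ht] at h2
    rw [abs_le]
    constructor <;> linarith [h1.1, h1.2, h2.1, h2.2]

end gadget

theorem ty_big {f f' : FL} (hf : f ∈ fls L n) (hf' : f' ∈ fls L n) (hc : f.cls = f'.cls)
    (ht : f.ty ≠ f'.ty) (h : f.slope P.base P.α < f'.slope P.base P.α) :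
    P.ζ / 2 ≤ f'.slope P.base P.α - f.slope P.base P.α := by
  have hζ := P.ζ0
  cases h1 : f.ty <;> cases h2 : f'.ty
  · rw [h1, h2] at ht; exact absurd rfl ht
  · have := P.ty_gap hf hf' hc h1 h2
    linarith
  · have := P.ty_gap hf' hf hc.symm h2 h1
    linarith
  · rw [h1, h2] at ht; exact absurd rfl ht

include P in
/-- two lines of the same class and of the same gadget -/
theorem same_loop {f f' : FL} (hf : f ∈ fls L n) (hf' : f' ∈ fls L n) (hc : f.cls = f'.cls)
    (hg : f.gad = f'.gad) (hne : f ≠ f') : ∃ g k l p p', L[g]? = some k ∧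
      f = FL.lp g l p (si k l) (ai k l) k.2.2.2 ∧ f' = FL.lp g l p' (si k l) (ai k l) k.2.2.2 := by
  rcases lp_form hf with ⟨c, t, rfl⟩ | ⟨g, k, l, p, hk, rfl⟩
  · rcases lp_form hf' with ⟨c', t', rfl⟩ | ⟨g', k', l', p', hk', rfl⟩
    · exfalso
      apply hne
      simp only [FL.gad] at hg
      cases t <;> cases t' <;> simp at hg ⊢ <;> omega
    · simp only [FL.gad] at hg
      omega
  · rcases lp_form hf' with ⟨c', t', rfl⟩ | ⟨g', k', l', p', hk', rfl⟩
    · simp only [FL.gad] at hg
      omega
    · have hgg : g = g' := by simp only [FL.gad] at hg; omega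
      subst hgg
      have hkk : k = k' := by rw [hk] at hk'; exact Option.some_inj.mp hk'
      subst hkk
      obtain ⟨⟨h1, h2, h3⟩, -⟩ := P.hg k (P.mem_of hk)
      simp only [FL.cls] at hc
      have hl : l = l' := by
        cases l <;> cases l' <;> simp only [si] at hc <;>
          first
          | rfl
          | exact absurd hc h1
          | exact absurd hc h2
          | exact absurd hc h3
          | exact absurd hc.symm h1
          | exact absurd hc.symm h2
          | exact absurd hc.symm h3
      subst hl
      exact ⟨g, k, l, p, p', hk, rfl, rfl⟩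

theorem lle_spec {f f' : FL} (hf : f ∈ fls L n) (hf' : f' ∈ fls L n)
    (h : f.slope P.base P.α < f'.slope P.base P.α) {j : ℕ} (hj : j < 2 * N) :
    (lle f f' j = true → P.δ ≤ P.bb f' - P.bb f +
      P.v j * (f'.slope P.base P.α - f.slope P.base P.α)) ∧
    (lle f f' j = false → P.bb f' - P.bb f +
      P.v j * (f'.slope P.base P.α - f.slope P.base P.α) ≤ -P.δ) := by
  obtain ⟨hδ1, hδ2, hδ3⟩ := P.δ_small
  have hδ0 := P.δ0
  have hΛ := P.Λ16
  have hΛ' := P.hΛ
  have hM := P.M1
  have hvj := P.vge j hj
  have hvV := P.vV j hj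
  have hζ := P.ζ0
  have hζ1 := P.ζ1
  have hn := abs_le.mp (P.bb_near hf)
  have hn' := abs_le.mp (P.bb_near hf')
  by_cases hc : f.cls = f'.cls
  · by_cases hg : f.gad = f'.gad
    · have hne : f ≠ f' := by
        rintro rfl
        exact lt_irrefl _ h
      obtain ⟨g, k, l, p, p', hk, e1, e2⟩ := P.same_loop hf hf' hc hg hne
      have hlle : lle f f' j = lleT (qT l k.2.2.2) (pkT p p') (ai k l) j := by
        rw [e1, e2]
        simp [lle, FL.cls, FL.gad, FL.q, FL.ps, FL.jx]
      rw [hlle]
      have hbf : P.bb f = P.h (2 * g + 1) + P.bp g k l p := by rw [e1, P.bb_lp hk]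
      have hbf' : P.bb f' = P.h (2 * g + 1) + P.bp g k l p' := by rw [e2, P.bb_lp hk]
      have hmf : f.slope P.base P.α = P.ms g k l p := by rw [e1]; rfl
      have hmf' : f'.slope P.base P.α = P.ms g k l p' := by rw [e2]; rfl
      have htf : f.ty = tyT l p := by rw [e1]; rfl
      have htf' : f'.ty = tyT l p' := by rw [e2]; rfl
      have big := P.ty_big hf hf' hc
      rw [hmf, hmf', htf, htf'] at big
      rw [hmf, hmf'] at h
      rw [hmf, hmf', hbf, hbf']
      clear hn hn' hlle hbf hbf' hmf hmf' htf htf'
      have l1 := P.loc1 hk l hj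
      have l2 := P.loc2 hk l hj
      have hδγ := P.δγ
      have fin1 : ∀ D t, P.ζ / 2 ≤ D → P.γ ≤ t → P.δ ≤ D * t := by
        intro D t hD ht
        have := mul_le_mul hD ht P.γ0.le (by linarith)
        linarith
      have e12 : P.i12 g k l = (P.ms g k l .a - P.ms g k l .b) * P.x1 k l := rfl
      have e23 : P.i23 g k l = (P.ms g k l .b - P.ms g k l .c) * P.x2 k l := rfl
      have tab : tyT l .a ≠ tyT l .b := by cases l <;> decide
      have tbc : tyT l .b ≠ tyT l .c := by cases l <;> decide
      have hac := P.ms_ac hk l
      have dac := P.diff_ac hk l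
      have hεV : 2 * P.ε * P.V ≤ P.ζ / 320 := by
        have h1 := P.ε_small
        have h2 := P.ε_nonneg
        nlinarith
      have small : |P.v j * (P.ms g k l .a - P.ms g k l .c)| ≤ P.ζ / 320 := by
        rw [abs_mul, abs_of_pos (by linarith : 0 < P.v j)]
        have h2 := P.ε_nonneg
        have := mul_le_mul (show P.v j ≤ P.V by linarith) hac.2.2 (abs_nonneg _) (by linarith)
        linarith
      have small' := abs_le.mp small
      cases p <;> cases p'
      · exact absurd h (lt_irrefl _)
      · -- a, b
        have hD := big tab h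
        simp only [pkT, lleT, if_true, decide_eq_true_eq, decide_eq_false_iff_not, bp]
        constructor
        · intro h1
          have := fin1 _ _ hD (l1.1 h1)
          linarith
        · intro h1
          have := fin1 _ _ hD (l1.2 h1)
          linarith
      · -- a, c
        cases hs : k.2.2.2
        · have := hac.1 hs
          linarith
        · simp only [pkT, lleT, bp, hs]
          cases l
          · simp only [tyT, if_true] at dac
            simp [qT]
            linarith [small'.1, small'.2]
          · simp only [tyT, if_true] at dac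
            simp [qT]
            linarith [small'.1, small'.2]
          · simp only [tyT, Bool.false_eq_true, if_false] at dac
            simp [qT]
            linarith [small'.1, small'.2]
      · -- b, a
        have hD := big tab.symm h
        simp only [pkT, lleT, if_true, decide_eq_true_eq, decide_eq_false_iff_not, bp]
        constructor
        · intro h1
          have := fin1 _ _ hD (l1.1 h1)
          linarith
        · intro h1
          have := fin1 _ _ hD (l1.2 h1)
          linarith
      · exact absurd h (lt_irrefl _)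
      · -- b, c
        have hD := big tbc h
        simp only [pkT, lleT, one_ne_zero, if_false, if_true, decide_eq_true_eq,
          decide_eq_false_iff_not, bp]
        constructor
        · intro h1
          have := fin1 _ _ hD (l2.1 h1)
          linarith
        · intro h1
          have := fin1 _ _ hD (l2.2 h1)
          linarith
      · -- c, a
        cases hs : k.2.2.2
        · simp only [pkT, lleT, bp, hs]
          cases l
          · simp only [tyT, if_true] at dac
            simp [qT]
            linarith [small'.1, small'.2]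
          · simp only [tyT, if_true] at dac
            simp [qT]
            linarith [small'.1, small'.2]
          · simp only [tyT, Bool.false_eq_true, if_false] at dac
            simp [qT]
            linarith [small'.1, small'.2]
        · have := hac.2.1 hs
          linarith
      · -- c, b
        have hD := big tbc.symm h
        simp only [pkT, lleT, one_ne_zero, if_false, if_true, decide_eq_true_eq,
          decide_eq_false_iff_not, bp]
        constructor
        · intro h1
          have := fin1 _ _ hD (l2.1 h1)
          linarith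
        · intro h1
          have := fin1 _ _ hD (l2.2 h1)
          linarith
      · exact absurd h (lt_irrefl _)
    · have hsg := P.same_gap hf hf' hc h
      have e0 : 0 ≤ P.v j * (f'.slope P.base P.α - f.slope P.base P.α) :=
        mul_nonneg (by linarith) (by linarith)
      rcases lt_or_gt_of_ne hg with hg' | hg'
      · have hW := (P.hW hg').2
        have hl : lle f f' j = true := by simp [lle, hc, hg, hg']
        rw [hl]
        refine ⟨fun _ => by linarith [hn.2, hn'.1], fun h => by simp at h⟩
      · have hW := (P.hW hg').2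
        have hl : lle f f' j = false := by simp [lle, hc, hg, not_lt.mpr hg'.le]
        rw [hl]
        refine ⟨fun h => by simp at h, fun _ => ?_⟩
        have e1 : P.v j * (f'.slope P.base P.α - f.slope P.base P.α) ≤ P.V * (P.M + 1) :=
          mul_le_mul (by linarith) hsg.2 (by linarith) (by linarith)
        have e2 : P.V * (P.M + 1) ≤ P.Λ := by nlinarith [P.V2]
        linarith [hn.1, hn'.2]
  · have hl : lle f f' j = true := by simp [lle, hc]
    rw [hl]
    refine ⟨fun _ => ?_, fun h => by simp at h⟩
    have hlt : f.cls < f'.cls := lt_of_le_of_ne (P.cls_le hf hf' h) hc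
    obtain ⟨h1, h2⟩ := P.cls_gap hf hf' hlt
    have h3 := P.hT0 _ (mem_fls.mp hf).1
    have h4 := P.bb_le hf
    have h5 := P.bb_Λ hf
    have h6 := P.bb_pos hf'
    have h7 : P.H * 5 ≤ P.H * (P.T f.cls + P.M + 1) :=
      mul_le_mul_of_nonneg_left (by linarith) (by linarith)
    have h8 : P.ζ / 40 * (f'.slope P.base P.α - f.slope P.base P.α) ≤
        1 / 40 * (f'.slope P.base P.α - f.slope P.base P.α) :=
      mul_le_mul_of_nonneg_right (by linarith) h2.le
    have h9 : 1 * (f'.slope P.base P.α - f.slope P.base P.α) ≤
        P.v j * (f'.slope P.base P.α - f.slope P.base P.α) :=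
      mul_le_mul_of_nonneg_right hvj h2.le
    linarith

end SPar

end Pool.Agent.Lib.ETR.Str
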