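import Pool.Agent.Lib.ETR.Str.Order

set_option autoImplicit false
set_option linter.unusedSimpArgs false

/-!
# Signs of orientations
-/

namespace Pool.Agent.Lib.ETR.Str

theorem D3_eq (m1 b1 m2 b2 m3 b3 : ℝ) :
    D3 m1 b1 m2 b2 m3 b3 = (b2 - b1) * (m3 - m2) + (b2 - b3) * (m2 - m1) := by
  unfold D3; ring

theorem same_pos {m1 b1 m2 b2 m3 b3 α μ W w : ℝ} (hα : 0 < α) (h1 : α ≤ m2 - m1)
    (h1' : m2 - m1 ≤ μ) (h2 : α ≤ m3 - m2) (h2' : m3 - m2 ≤ μ) (hw : 0 ≤ w) (hW : w * μ < W * α)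
    (g1 : -w ≤ b2 - b1) (g2 : -w ≤ b2 - b3) (g3 : W ≤ b2 - b1 ∨ W ≤ b2 - b3) :
    0 < D3 m1 b1 m2 b2 m3 b3 := by
  have hW0 : 0 < W := by
    have : 0 ≤ w * μ := mul_nonneg hw (by linarith)
    by_contra h
    have : W * α ≤ 0 := mul_nonpos_of_nonpos_of_nonneg (not_lt.mp h) hα.le
    linarith
  rw [D3_eq]
  rcases g3 with g3 | g3
  · have e1 : W * α ≤ (b2 - b1) * (m3 - m2) := mul_le_mul g3 h2 hα.le (by linarith)
    have e2 : -(w * μ) ≤ (b2 - b3) * (m2 - m1) := by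
      have a1 : (-w) * (m2 - m1) ≤ (b2 - b3) * (m2 - m1) :=
        mul_le_mul_of_nonneg_right g2 (by linarith)
      have a2 : w * (m2 - m1) ≤ w * μ := mul_le_mul_of_nonneg_left h1' hw
      linarith
    linarith
  · have e1 : W * α ≤ (b2 - b3) * (m2 - m1) := mul_le_mul g3 h1 hα.le (by linarith)
    have e2 : -(w * μ) ≤ (b2 - b1) * (m3 - m2) := by
      have a1 : (-w) * (m3 - m2) ≤ (b2 - b1) * (m3 - m2) :=
        mul_le_mul_of_nonneg_right g1 (by linarith)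
      have a2 : w * (m3 - m2) ≤ w * μ := mul_le_mul_of_nonneg_left h2' hw
      linarith
    linarith

theorem D3_neg (m1 b1 m2 b2 m3 b3 : ℝ) :
    D3 m1 (-b1) m2 (-b2) m3 (-b3) = -D3 m1 b1 m2 b2 m3 b3 := by
  unfold D3; ring

theorem same_neg {m1 b1 m2 b2 m3 b3 α μ W w : ℝ} (hα : 0 < α) (h1 : α ≤ m2 - m1)
    (h1' : m2 - m1 ≤ μ) (h2 : α ≤ m3 - m2) (h2' : m3 - m2 ≤ μ) (hw : 0 ≤ w) (hW : w * μ < W * α)
    (g1 : b2 - b1 ≤ w) (g2 : b2 - b3 ≤ w) (g3 : b2 - b1 ≤ -W ∨ b2 - b3 ≤ -W) :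
    D3 m1 b1 m2 b2 m3 b3 < 0 := by
  have := same_pos (b1 := -b1) (b2 := -b2) (b3 := -b3) hα h1 h1' h2 h2' hw hW (by linarith)
    (by linarith) (by rcases g3 with g3 | g3; exacts [Or.inl (by linarith), Or.inr (by linarith)])
  rw [D3_neg] at this
  linarith

theorem dom_pos {X P Y Q H A G : ℝ} (hX : G ≤ X) (hP : 0 < P) (hY : |Y| ≤ H)
    (hQ : 0 ≤ Q) (hQ' : Q ≤ A) (h : H * A < G * P) : 0 < X * P + Y * Q := by
  have e1 : G * P ≤ X * P := mul_le_mul_of_nonneg_right hX hP.le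
  have e2 : |Y * Q| ≤ H * A := by
    rw [abs_mul, abs_of_nonneg hQ]
    exact mul_le_mul hY hQ' hQ ((abs_nonneg _).trans hY)
  have e3 := (abs_le.mp e2).1
  linarith

theorem dom_neg {X P Y Q H A G : ℝ} (hX : X ≤ -G) (hP : 0 < P) (hY : |Y| ≤ H)
    (hQ : 0 ≤ Q) (hQ' : Q ≤ A) (h : H * A < G * P) : X * P + Y * Q < 0 := by
  have e1 : X * P ≤ -G * P := mul_le_mul_of_nonneg_right hX hP.le
  have e2 : |Y * Q| ≤ H * A := by
    rw [abs_mul, abs_of_nonneg hQ]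
    exact mul_le_mul hY hQ' hQ ((abs_nonneg _).trans hY)
  have e3 := (abs_le.mp e2).2
  linarith

section big

variable {m1 b1 m2 b2 K v H S δ : ℝ} (h1 : 0 ≤ m1) (h2 : m1 ≤ m2) (h3 : m2 ≤ S)
  (hb1 : 0 ≤ b1) (hb2 : 0 ≤ b2) (hb1' : b1 ≤ H) (hb2' : b2 ≤ H) (hK : 0 < K) (hδ : H * S < K * δ)

include h1 h2 h3 hb1 hb2 hb1' hb2' in
theorem cross_bound : |b1 * m2 - b2 * m1| ≤ H * S := by
  have e1 : b1 * m2 ≤ H * S := mul_le_mul hb1' h3 (by linarith) (by linarith)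
  have e2 : b2 * m1 ≤ H * S := mul_le_mul hb2' (by linarith) h1 (by linarith)
  have e3 : 0 ≤ b1 * m2 := mul_nonneg hb1 (by linarith)
  have e4 : 0 ≤ b2 * m1 := mul_nonneg hb2 h1
  rw [abs_le]
  constructor <;> linarith

include h1 h2 h3 hb1 hb2 hb1' hb2' hK hδ

theorem ffp_pos (h : δ ≤ b2 - b1 + v * (m2 - m1)) : 0 < D3 m1 b1 m2 b2 K (-K * v) := by
  have e := (abs_le.mp (cross_bound h1 h2 h3 hb1 hb2 hb1' hb2')).1
  have e1 : K * δ ≤ K * (b2 - b1 + v * (m2 - m1)) := mul_le_mul_of_nonneg_left h hK.le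
  unfold D3
  linarith

theorem ffp_neg (h : b2 - b1 + v * (m2 - m1) ≤ -δ) : D3 m1 b1 m2 b2 K (-K * v) < 0 := by
  have e := (abs_le.mp (cross_bound h1 h2 h3 hb1 hb2 hb1' hb2')).2
  have e1 : K * (b2 - b1 + v * (m2 - m1)) ≤ K * (-δ) := mul_le_mul_of_nonneg_left h hK.le
  unfold D3
  linarith

theorem mff_pos (h : b2 - b1 + v * (m2 - m1) ≤ -δ) : 0 < D3 (-K) (K * v) m1 b1 m2 b2 := by
  have e := (abs_le.mp (cross_bound h1 h2 h3 hb1 hb2 hb1' hb2')).1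
  have e1 : K * (b2 - b1 + v * (m2 - m1)) ≤ K * (-δ) := mul_le_mul_of_nonneg_left h hK.le
  unfold D3
  linarith

theorem mff_neg (h : δ ≤ b2 - b1 + v * (m2 - m1)) : D3 (-K) (K * v) m1 b1 m2 b2 < 0 := by
  have e := (abs_le.mp (cross_bound h1 h2 h3 hb1 hb2 hb1' hb2')).2
  have e1 : K * δ ≤ K * (b2 - b1 + v * (m2 - m1)) := mul_le_mul_of_nonneg_left h hK.le
  unfold D3
  linarith

theorem ffx_pos (h : δ ≤ b2 - b1) : 0 < D3 m1 b1 m2 b2 K 0 := by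
  have e := (abs_le.mp (cross_bound h1 h2 h3 hb1 hb2 hb1' hb2')).1
  have e1 : K * δ ≤ K * (b2 - b1) := mul_le_mul_of_nonneg_left h hK.le
  unfold D3
  linarith

theorem ffx_neg (h : b2 - b1 ≤ -δ) : D3 m1 b1 m2 b2 K 0 < 0 := by
  have e := (abs_le.mp (cross_bound h1 h2 h3 hb1 hb2 hb1' hb2')).2
  have e1 : K * (b2 - b1) ≤ K * (-δ) := mul_le_mul_of_nonneg_left h hK.le
  unfold D3
  linarith

end big

section vert

variable {m b Kj Kk Kl vj vk vl KX H S V γ : ℝ}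

theorem mfp_pos (hm : 0 < m) (hb : 0 < b) (hj : 0 < Kj) (hk : 0 < Kk) (hvj : 0 < vj)
    (hvk : vj ≤ vk) : 0 < D3 (-Kj) (Kj * vj) m b Kk (-Kk * vk) := by
  have e1 : 0 ≤ Kj * Kk * (vk - vj) := mul_nonneg (mul_pos hj hk).le (by linarith)
  have e2 : 0 < b * (Kk + Kj) := mul_pos hb (by linarith)
  have e3 : 0 < m * (Kj * vj) := mul_pos hm (mul_pos hj hvj)
  have e4 : 0 < m * (Kk * vk) := mul_pos hm (mul_pos hk (by linarith))
  unfold D3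
  linarith

theorem mfp_neg (hm : 0 < m) (hm' : m ≤ S) (hb' : b ≤ H) (hj : 0 < Kj) (hk : 0 < Kk)
    (hvk : 0 < vk) (hvj : vk + 2 * γ ≤ vj) (hV : vj ≤ V) (gj : H + S * V < Kj * γ)
    (gk : H + S * V < Kk * γ) (hγ : 0 < γ) : D3 (-Kj) (Kj * vj) m b Kk (-Kk * vk) < 0 := by
  have hV0 : 0 < V := by linarith
  have e1 : Kj * Kk * (2 * γ) ≤ Kj * Kk * (vj - vk) :=
    mul_le_mul_of_nonneg_left (by linarith) (mul_pos hj hk).le
  have e2 : b * (Kk + Kj) ≤ H * (Kk + Kj) := mul_le_mul_of_nonneg_right hb' (by linarith)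
  have e3 : m * (Kj * vj) ≤ S * (Kj * V) := mul_le_mul hm' (mul_le_mul_of_nonneg_left hV hj.le)
    (mul_pos hj (by linarith)).le (by linarith)
  have e4 : m * (Kk * vk) ≤ S * (Kk * V) := mul_le_mul hm'
    (mul_le_mul_of_nonneg_left (by linarith) hk.le) (mul_pos hk hvk).le (by linarith)
  have e5 : Kk * (H + S * V) < Kk * (Kj * γ) := mul_lt_mul_of_pos_left gj hk
  have e6 : Kj * (H + S * V) < Kj * (Kk * γ) := mul_lt_mul_of_pos_left gk hj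
  unfold D3
  linarith

theorem fpp_pos (hm : 0 < m) (hm' : m ≤ S) (hb : 0 < b) (hb' : b ≤ H) (hj : 0 < Kj)
    (hjk : Kj < Kk) (hvj : 0 < vj) (hvk : vj + 2 * γ ≤ vk) (hV : vk ≤ V)
    (gj : H + S * V < Kj * γ) (hγ : 0 < γ) : 0 < D3 m b Kj (-Kj * vj) Kk (-Kk * vk) := by
  have hk : 0 < Kk := by linarith
  have e1 : Kj * Kk * (2 * γ) ≤ Kj * Kk * (vk - vj) :=
    mul_le_mul_of_nonneg_left (by linarith) (mul_pos hj hk).le
  have e2 : b * (Kk - Kj) ≤ H * Kk := mul_le_mul hb' (by linarith) (by linarith) (by linarith)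
  have e4 : m * (Kk * vk) ≤ S * (Kk * V) := mul_le_mul hm'
    (mul_le_mul_of_nonneg_left hV hk.le) (mul_pos hk (by linarith)).le (by linarith)
  have e3 : 0 < m * (Kj * vj) := mul_pos hm (mul_pos hj hvj)
  have e5 : Kk * (H + S * V) < Kk * (Kj * γ) := mul_lt_mul_of_pos_left gj hk
  have e6 : 0 < Kj * Kk * γ := mul_pos (mul_pos hj hk) hγ
  unfold D3
  linarith

theorem mmf_neg (hm : 0 < m) (hb : 0 < b) (hj : 0 < Kj) (hjk : Kj < Kk) (hvj : 0 < vj)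
    (hvk : vj < vk) : D3 (-Kk) (Kk * vk) (-Kj) (Kj * vj) m b < 0 := by
  have hk : 0 < Kk := by linarith
  have e1 : 0 < Kj * Kk * (vk - vj) := mul_pos (mul_pos hj hk) (by linarith)
  have e2 : 0 < b * (Kk - Kj) := mul_pos hb (by linarith)
  have e3 : Kj * vj < Kk * vk := mul_lt_mul hjk hvk.le hvj hk.le
  have e4 : m * (Kj * vj) < m * (Kk * vk) := mul_lt_mul_of_pos_left e3 hm
  unfold D3
  linarith

theorem fpx_neg (hm : m < Kj) (hb : 0 < b) (hj : 0 < Kj) (hX : Kj < KX) (hvj : 0 < vj) :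
    D3 m b Kj (-Kj * vj) KX 0 < 0 := by
  have e1 : 0 < Kj * vj * (KX - m) := mul_pos (mul_pos hj hvj) (by linarith)
  have e2 : 0 < b * (KX - Kj) := mul_pos hb (by linarith)
  unfold D3
  linarith

theorem mfx_neg (hm' : m ≤ S) (hb : 0 < b) (hb' : b ≤ H) (hj : 0 < Kj)
    (hX : Kj < KX) (hvj : 1 ≤ vj) (hK : 4 * H < Kj) (hX' : 2 * S ≤ KX) (hS : 0 < S) :
    D3 (-Kj) (Kj * vj) m b KX 0 < 0 := by
  have e1 : Kj * (KX / 2) ≤ Kj * vj * (KX - m) := by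
    have a1 : Kj * 1 ≤ Kj * vj := mul_le_mul_of_nonneg_left hvj hj.le
    exact mul_le_mul (by linarith) (by linarith) (by linarith) (by positivity)
  have e2 : b * (KX + Kj) ≤ H * (2 * KX) := mul_le_mul hb' (by linarith) (by linarith) (by linarith)
  have e3 : 4 * H * KX < Kj * KX := mul_lt_mul_of_pos_right hK (by linarith)
  unfold D3
  linarith

theorem ppx_neg (hj : 0 < Kj) (hjk : Kj < Kk) (hX : Kk < KX) (hvj : 0 < vj) (hvk : vj < vk) :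
    D3 Kj (-Kj * vj) Kk (-Kk * vk) KX 0 < 0 := by
  have e3 : Kj * vj < Kk * vk := mul_lt_mul hjk hvk.le hvj (by linarith)
  have e4 : Kj * vj * (KX - Kk) < Kk * vk * (KX - Kj) :=
    mul_lt_mul e3 (by linarith) (by linarith) (by nlinarith)
  unfold D3
  linarith

theorem mmx_neg (hj : 0 < Kj) (hjk : Kj < Kk) (hX : Kk < KX) (hvj : 0 < vj) (hvk : vj < vk) :
    D3 (-Kk) (Kk * vk) (-Kj) (Kj * vj) KX 0 < 0 := by
  have hk : 0 < Kk := by linarith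
  have e3 : Kj * vj < Kk * vk := mul_lt_mul hjk hvk.le hvj (by linarith)
  have e1 : 0 < Kj * Kk * (vk - vj) := mul_pos (mul_pos hj hk) (by linarith)
  have e4 : KX * (Kj * vj) < KX * (Kk * vk) := mul_lt_mul_of_pos_left e3 (by linarith)
  unfold D3
  linarith

theorem mpx_neg (hj : 0 < Kj) (hk : 0 < Kk) (hX : Kk < KX) (hvj : 0 < vj) (hvk : 0 < vk) :
    D3 (-Kj) (Kj * vj) Kk (-Kk * vk) KX 0 < 0 := by
  have e1 : 0 < Kk * vk * (KX + Kj) := mul_pos (mul_pos hk hvk) (by linarith)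
  have e2 : 0 < Kj * vj * (KX - Kk) := mul_pos (mul_pos hj hvj) (by linarith)
  unfold D3
  linarith

theorem ppp_pos (hj : 0 < Kj) (hjk : Kj < Kk) (hkl : Kk < Kl) (hγ : 0 < γ)
    (hvj : 0 < vj) (hvk : vj + 2 * γ ≤ vk) (hvl : vk + 2 * γ ≤ vl) (hV : vl ≤ V)
    (g1 : Kj * V < Kk * γ) : 0 < D3 Kj (-Kj * vj) Kk (-Kk * vk) Kl (-Kl * vl) := by
  have hk : 0 < Kk := by linarith
  have hl : 0 < Kl := by linarith
  have e1 : Kk * (2 * γ) ≤ Kk * (vl - vk) := mul_le_mul_of_nonneg_left (by linarith) hk.le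
  have e2 : Kj * (vl - vj) ≤ Kj * V := mul_le_mul_of_nonneg_left (by linarith) hj.le
  have e3 : 0 < Kk * (vl - vk) - Kj * (vl - vj) := by
    have : 0 < Kk * γ := mul_pos hk hγ
    linarith
  have e4 := mul_pos hl e3
  have e5 : 0 < Kj * Kk * (vk - vj) := mul_pos (mul_pos hj hk) (by linarith)
  unfold D3
  linarith

theorem mmm_neg (hj : 0 < Kj) (hjk : Kj < Kk) (hkl : Kk < Kl) (hγ : 0 < γ)
    (hvj : 0 < vj) (hvk : vj + 2 * γ ≤ vk) (hvl : vk + 2 * γ ≤ vl) (hV : vl ≤ V)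
    (g1 : Kj * V < Kk * γ) :
    D3 (-Kl) (Kl * vl) (-Kk) (Kk * vk) (-Kj) (Kj * vj) < 0 := by
  have := ppp_pos hj hjk hkl hγ hvj hvk hvl hV g1
  unfold D3 at this ⊢
  linarith

/-- the sign, in terms of abscissas -/
theorem mpp_pos (hj : 0 < Kj) (hk : 0 < Kk) (hkl : Kk < Kl) (hγ : 0 < γ)
    (hvk : 0 < vk) (hvl : vk + 2 * γ ≤ vl) (hjl : vj ≤ vl) (hV : vl ≤ V) (hvj : 0 < vj)
    (h : vk ≤ vj ∨ Kj * V < Kl * γ) : 0 < D3 (-Kj) (Kj * vj) Kk (-Kk * vk) Kl (-Kl * vl) := by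
  have hl : 0 < Kl := by linarith
  have e1 : Kl * Kk * (2 * γ) ≤ Kl * Kk * (vl - vk) :=
    mul_le_mul_of_nonneg_left (by linarith) (mul_pos hl hk).le
  have e2 : 0 ≤ Kl * Kj * (vl - vj) := mul_nonneg (mul_pos hl hj).le (by linarith)
  have e6 : 0 < Kl * Kk * γ := mul_pos (mul_pos hl hk) hγ
  have e3 : -(Kl * Kk * γ) ≤ Kj * Kk * (vj - vk) := by
    rcases h with h | h
    · have : 0 ≤ Kj * Kk * (vj - vk) := mul_nonneg (mul_pos hj hk).le (by linarith)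
      linarith
    · have a1 : Kj * Kk * (vk - vj) ≤ Kj * Kk * V :=
        mul_le_mul_of_nonneg_left (by linarith) (mul_pos hj hk).le
      have a2 : Kk * (Kj * V) ≤ Kk * (Kl * γ) := mul_le_mul_of_nonneg_left h.le hk.le
      linarith
  unfold D3
  linarith

theorem mpp_neg (hj : 0 < Kj) (hk : 0 < Kk) (hkl : Kk < Kl) (hγ : 0 < γ)
    (hvk : 0 < vk) (hvl : vk < vl) (hjl : vl + 2 * γ ≤ vj) (hV : vj ≤ V)
    (g1 : Kk * V < Kl * γ) (g2 : Kk * V < Kj * γ) :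
    D3 (-Kj) (Kj * vj) Kk (-Kk * vk) Kl (-Kl * vl) < 0 := by
  have hl : 0 < Kl := by linarith
  have e1 : Kl * Kk * (vl - vk) ≤ Kl * Kk * V :=
    mul_le_mul_of_nonneg_left (by linarith) (mul_pos hl hk).le
  have e2 : Kl * Kj * (2 * γ) ≤ Kl * Kj * (vj - vl) :=
    mul_le_mul_of_nonneg_left (by linarith) (mul_pos hl hj).le
  have e3 : Kj * Kk * (vj - vk) ≤ Kj * Kk * V :=
    mul_le_mul_of_nonneg_left (by linarith) (mul_pos hj hk).le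
  have e4 : Kl * (Kk * V) < Kl * (Kj * γ) := mul_lt_mul_of_pos_left g2 hl
  have e5 : Kj * (Kk * V) < Kj * (Kl * γ) := mul_lt_mul_of_pos_left g1 hj
  unfold D3
  linarith

theorem mmp_neg (hj : 0 < Kj) (hk : 0 < Kk) (hkl : Kk < Kl) (hγ : 0 < γ)
    (hvk : 0 < vk) (hvl : vk + 2 * γ ≤ vl) (hjl : vj ≤ vl) (hV : vl ≤ V) (hvj : 0 < vj)
    (h : vk ≤ vj ∨ Kj * V < Kl * γ) :
    D3 (-Kl) (Kl * vl) (-Kk) (Kk * vk) Kj (-Kj * vj) < 0 := by
  have := mpp_pos hj hk hkl hγ hvk hvl hjl hV hvj h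
  unfold D3 at this ⊢
  linarith

theorem mmp_pos (hj : 0 < Kj) (hk : 0 < Kk) (hkl : Kk < Kl) (hγ : 0 < γ)
    (hvk : 0 < vk) (hvl : vk < vl) (hjl : vl + 2 * γ ≤ vj) (hV : vj ≤ V)
    (g1 : Kk * V < Kl * γ) (g2 : Kk * V < Kj * γ) :
    0 < D3 (-Kl) (Kl * vl) (-Kk) (Kk * vk) Kj (-Kj * vj) := by
  have := mpp_neg hj hk hkl hγ hvk hvl hjl hV g1 g2
  unfold D3 at this ⊢
  linarith

end vert

end Pool.Agent.Lib.ETR.Str
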