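import Pool.Agent.Lib.ETR.Str.Sound
import Pool.Agent.Lib.ETR.Str.Signs

set_option autoImplicit false
set_option linter.unusedSimpArgs false

/-!
# The lines in terms of the parameters
-/

namespace Pool.Agent.Lib.ETR.Str

/-- The parameters of the arrangement. -/
structure SPar (L : List BCon) (n N : ℕ) where
  /-- the solution -/
  x : ℕ → ℝ
  /-- the solution -/
  y : ℕ → ℝ
  /-- the abscissas -/
  v : ℕ → ℝ
  /-- the slopes -/
  T : ℕ → ℝ
  /-- the heights -/
  h : ℕ → ℝ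
  /-- the slopes of the vertical lines -/
  K : ℕ → ℝ
  /-- a lower bound -/
  ζ : ℝ
  /-- an upper bound -/
  M : ℝ
  /-- shift of the corners -/
  γ : ℝ
  /-- perturbation of slopes -/
  α : ℝ
  /-- bound of the abscissas -/
  V : ℝ
  /-- bound of the heights in a gadget -/
  Λ : ℝ
  /-- bound of the heights -/
  H : ℝ
  /-- bound of the slopes -/
  S : ℝ
  /-- bound of the differences of heights -/
  δ : ℝ
  /-- slope of `x0` -/
  KX : ℝ
  hN0 : 0 < N
  ζ0 : 0 < ζ
  ζ1 : ζ ≤ 1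
  M1 : 1 ≤ M
  hx : ∀ c < n, ζ ≤ x c ∧ x c ≤ M
  hy : ∀ j < N, ζ ≤ y j ∧ y j ≤ M
  hxy : ∀ c < n, ∀ j < N, ζ ≤ x c * y j
  hk0 : ∀ k ∈ L, k.2.2.2 = false →
    x (si k .a) * y (ai k .a) + x (si k .b) * y (ai k .b) + ζ ≤ x (si k .c) * y (ai k .c)
  hk1 : ∀ k ∈ L, k.2.2.2 = true → x (si k .b) * y (ai k .b) + ζ ≤ x (si k .c) * y (ai k .c) ∧
    x (si k .c) * y (ai k .c) + ζ ≤ x (si k .a) * y (ai k .a) + x (si k .b) * y (ai k .b)
  hn : ∀ k ∈ L, ∀ l, si k l < n
  hN : ∀ k ∈ L, ∀ l, ai k l < N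
  hg : ∀ k ∈ L, KGood k
  γ0 : 0 < γ
  γM : 640 * γ * M ≤ ζ
  v1 : ∀ j < N, v (2 * j + 1) = v (2 * j) + y j
  vmono : ∀ i j, i < j → j < 2 * N → v i + 2 * γ ≤ v j
  vge : ∀ j < 2 * N, 1 ≤ v j
  vV : ∀ j < 2 * N, v j + 1 ≤ V
  vlow : ∀ j < N, 4 * (M * M + 1) ≤ ζ / 2 * v (2 * j)
  vgrow : ∀ d b, d < b → b < N →
    (M + 1) * (v (2 * d) + M + 1) + 4 * (M * M + 1) ≤ ζ / 2 * v (2 * b)
  α0 : 0 < α
  α1 : α ≤ 1
  αζ : α ≤ ζ / 2
  hα : 2 * α * RR L * (V + M + 2) ≤ ζ / 320
  hΛ : (M + 1) * (V + M + 1) + 4 * (M * M + 1) ≤ Λ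
  hh : ∀ g' g, g' < g → (h g' + 2 * Λ) * (M + 1) < (h g - h g' - 2 * Λ) * α
  hh0 : ∀ g, 2 * Λ ≤ h g
  hH : ∀ f ∈ fls L n, h f.gad + Λ ≤ H
  hT0 : ∀ c < n, M + 2 ≤ T c
  hT : ∀ c c', c < c' → c' < n → H * (T c + M + 1) < ζ / 40 * (T c' - T c - 2 * (M + 1))
  hS : ∀ c < n, T c + M + 1 ≤ S
  δ0 : 0 < δ
  δγ : δ ≤ γ * ζ / 2
  hK0 : ∀ j, H * S + 4 * H + S * V + S < K j * δ
  hK : ∀ j k, j < k → K j * V < K k * γ ∧ K j < K k
  hKX : ∀ j < 2 * N, K j < KX
  hKX0 : H * S < KX * δ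
  hKXS : 2 * S ≤ KX

namespace SPar

variable {L : List BCon} {n N : ℕ} (P : SPar L n N)

/-- the unperturbed slopes -/
noncomputable def base (k : ℕ) : ℝ := if k % 2 = 0 then P.T (k / 2) else P.T (k / 2) + P.x (k / 2)

theorem base_false (c : ℕ) : P.base (2 * c + Bool.toNat false) = P.T c := by
  simp [base]

theorem base_true (c : ℕ) : P.base (2 * c + Bool.toNat true) = P.T c + P.x c := by
  have h1 : (2 * c + 1) % 2 = 1 := by omega
  have h2 : (2 * c + 1) / 2 = c := by omega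
  simp [base, h1, h2]

/-- the perturbations are small -/
noncomputable def ε : ℝ := P.α * RR L

theorem ε_nonneg : 0 ≤ P.ε := mul_nonneg P.α0.le (RR_nonneg L)

theorem V2 : 2 ≤ P.V := by
  have h0 := P.hN0
  have := P.vge 0 (by omega)
  have := P.vV 0 (by omega)
  linarith

theorem Λ16 : 16 ≤ P.Λ := by
  have h1 := P.V2
  have h2 := P.M1
  have h3 := P.hΛ
  nlinarith

theorem ε_small : 2 * P.ε * (P.V + P.M + 2) ≤ P.ζ / 320 := by
  have := P.hα
  unfold ε
  linarith

theorem ε_small' : 2 * P.ε ≤ P.ζ / 320 := by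
  have h1 := P.ε_small
  have h2 := P.ε_nonneg
  have h3 := P.V2
  have h4 := P.M1
  nlinarith

theorem slope_near {f : FL} (hf : f ∈ fls L n) :
    |f.slope P.base P.α - P.base (2 * f.cls + f.ty.toNat)| ≤ P.ε := by
  rw [FL.slope, add_sub_cancel_left, abs_mul, abs_of_pos P.α0]
  exact mul_le_mul_of_nonneg_left (abs_z_le (by unfold RR; exact_mod_cast fls_mag_le hf)) P.α0.le

theorem M0 : 0 < P.M := by linarith [P.M1]

/-- abscissa of the first corner -/
noncomputable def x1 (k : BCon) (l : T3) : ℝ :=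
  P.v (2 * ai k l + 1) + if qT l k.2.2.2 then P.γ else -P.γ

/-- abscissa of the second corner -/
noncomputable def x2 (k : BCon) (l : T3) : ℝ :=
  P.v (2 * ai k l) - if qT l k.2.2.2 then P.γ else -P.γ

/-- slope of a line of a loop -/
noncomputable def ms (g : ℕ) (k : BCon) (l p : T3) : ℝ :=
  (FL.lp g l p (si k l) (ai k l) k.2.2.2).slope P.base P.α

/-- the increment -/
noncomputable def i12 (g : ℕ) (k : BCon) (l : T3) : ℝ := (P.ms g k l .a - P.ms g k l .b) * P.x1 k l

/-- the increment -/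
noncomputable def i23 (g : ℕ) (k : BCon) (l : T3) : ℝ := (P.ms g k l .b - P.ms g k l .c) * P.x2 k l

/-- the signed shift of the start points -/
noncomputable def oβ (k : BCon) : ℝ := if k.2.2.2 then -(P.ζ / 20) else P.ζ / 20

/-- the start points -/
noncomputable def st (g : ℕ) (k : BCon) : T3 → ℝ
  | .a => 0
  | .b => P.i12 g k .a + P.i23 g k .a + P.oβ k
  | .c => P.i12 g k .a + P.i23 g k .a + P.oβ k + (P.i12 g k .b + P.i23 g k .b) + P.oβ k

/-- the heights in a gadget -/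
noncomputable def bp (g : ℕ) (k : BCon) (l : T3) : T3 → ℝ
  | .a => P.st g k l
  | .b => P.st g k l + P.i12 g k l
  | .c => P.st g k l + (P.i12 g k l + P.i23 g k l)

/-- the heights -/
noncomputable def bb : FL → ℝ
  | .ref c t => P.h (FL.ref c t).gad
  | .lp g l p c j s => P.h (FL.lp g l p c j s).gad + P.bp g (L.getD g ((0, 0), (0, 0), (0, 0), false)) l p

section gadget

variable {g : ℕ} {k : BCon} (hk : L[g]? = some k)

include P hk

theorem mem_of : k ∈ L := List.mem_of_getElem? hk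

theorem lp_mem (l p : T3) : FL.lp g l p (si k l) (ai k l) k.2.2.2 ∈ fls L n :=
  mem_fls.mpr ⟨P.hn k (List.mem_of_getElem? hk) l, Or.inr (mem_loopLines.mpr ⟨g, k, l, p, hk, rfl⟩)⟩

theorem ms_near (l p : T3) :
    |P.ms g k l p - (P.T (si k l) + if tyT l p then P.x (si k l) else 0)| ≤ P.ε := by
  have h1 := P.slope_near (P.lp_mem hk l p)
  simp only [FL.cls, FL.ty] at h1
  cases h2 : tyT l p
  · rw [h2, P.base_false] at h1
    simpa [ms] using h1
  · rw [h2, P.base_true] at h1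
    simpa [ms] using h1

/-- the value of a loop -/
theorem loop_val (l : T3) :
    |P.i12 g k l + P.i23 g k l -
      (if tyT l .a then P.x (si k l) * P.y (ai k l) else -(P.x (si k l) * P.y (ai k l)))| ≤
      P.ζ / 160 := by
  have hm := P.mem_of hk
  have na := abs_le.mp (P.ms_near hk l .a)
  have nb := abs_le.mp (P.ms_near hk l .b)
  have nc := abs_le.mp (P.ms_near hk l .c)
  have hε := P.ε_small
  have hε0 := P.ε_nonneg
  have hγ0 := P.γ0
  have hγM := P.γM
  have hM := P.M1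
  have hζ := P.ζ0
  have hζ1 := P.ζ1
  obtain ⟨hx1, hx2⟩ := P.hx _ (P.hn k hm l)
  obtain ⟨hy1, hy2⟩ := P.hy _ (P.hN k hm l)
  have hv := P.v1 _ (P.hN k hm l)
  have hjN := P.hN k hm l
  have v1 := P.vge (2 * ai k l) (by omega)
  have v2 := P.vV (2 * ai k l) (by omega)
  have hγ1 : P.γ ≤ 1 / 640 := by nlinarith
  set X := P.x (si k l) with hX
  set Y := P.y (ai k l) with hY
  -- the general estimate
  have gen : ∀ (σ q e r : ℝ), |σ| = 1 → |q| = P.γ → |e| ≤ 2 * P.ε → |r| ≤ 2 * P.ε →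
      |(σ * X + e) * (Y + 2 * q) + r * (P.v (2 * ai k l) - q) - σ * (X * Y)| ≤ P.ζ / 160 := by
    intro σ q e r hσ hq he hr
    have e1 : (σ * X + e) * (Y + 2 * q) + r * (P.v (2 * ai k l) - q) - σ * (X * Y) =
      2 * σ * X * q + e * (Y + 2 * q) + r * (P.v (2 * ai k l) - q) := by ring
    rw [e1]
    have a1 : |2 * σ * X * q| ≤ 2 * P.M * P.γ := by
      rw [abs_mul, abs_mul, abs_mul, hσ, hq, abs_of_pos (by norm_num : (0 : ℝ) < 2),
        abs_of_pos (by linarith : 0 < X)]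
      nlinarith
    have a2 : |e * (Y + 2 * q)| ≤ 2 * P.ε * (P.M + 1) := by
      rw [abs_mul]
      refine mul_le_mul he ?_ (abs_nonneg _) (by linarith)
      have := abs_le.mp hq.le
      rw [abs_le]
      constructor <;> linarith [this.1, this.2]
    have a3 : |r * (P.v (2 * ai k l) - q)| ≤ 2 * P.ε * P.V := by
      rw [abs_mul]
      refine mul_le_mul hr ?_ (abs_nonneg _) (by linarith)
      have := abs_le.mp hq.le
      rw [abs_le]
      constructor <;> linarith [this.1, this.2]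
    have a4 := abs_add_three (2 * σ * X * q) (e * (Y + 2 * q)) (r * (P.v (2 * ai k l) - q))
    have a5 : 2 * P.M * P.γ ≤ P.ζ / 320 := by linarith
    nlinarith
  have hq : |(if qT l k.2.2.2 then P.γ else -P.γ)| = P.γ := by
    split_ifs
    · exact abs_of_pos hγ0
    · rw [abs_neg]; exact abs_of_pos hγ0
  have key : P.i12 g k l + P.i23 g k l = (P.ms g k l .a - P.ms g k l .b) *
      (Y + 2 * (if qT l k.2.2.2 then P.γ else -P.γ)) + (P.ms g k l .a - P.ms g k l .c) *
      (P.v (2 * ai k l) - (if qT l k.2.2.2 then P.γ else -P.γ)) := by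
    rw [i12, i23, x1, x2, hv]
    ring
  rw [key]
  set q := (if qT l k.2.2.2 then P.γ else -P.γ) with hqd
  have hty : tyT l .c = tyT l .a := by cases l <;> rfl
  have htb : tyT l .b = !(tyT l .a) := by cases l <;> rfl
  cases ht : tyT l .a
  · rw [ht] at hty htb
    rw [ht] at na
    rw [htb] at nb
    rw [hty] at nc
    simp only [Bool.false_eq_true, if_false, Bool.not_false, if_true] at na nb nc ⊢
    have := gen (-1) q (P.ms g k l .a - P.ms g k l .b + X) (P.ms g k l .a - P.ms g k l .c)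
      (by simp) hq (by rw [abs_le]; constructor <;> linarith [na.1, na.2, nb.1, nb.2])
      (by rw [abs_le]; constructor <;> linarith [na.1, na.2, nc.1, nc.2])
    convert this using 2
    ring
  · rw [ht] at hty htb
    rw [ht] at na
    rw [htb] at nb
    rw [hty] at nc
    simp only [Bool.false_eq_true, if_false, Bool.not_true, if_true] at na nb nc ⊢
    have := gen 1 q (P.ms g k l .a - P.ms g k l .b - X) (P.ms g k l .a - P.ms g k l .c)
      (by simp) hq (by rw [abs_le]; constructor <;> linarith [na.1, na.2, nb.1, nb.2])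
      (by rw [abs_le]; constructor <;> linarith [na.1, na.2, nc.1, nc.2])
    convert this using 2
    ring

/-- the first increment -/
theorem i12_bound (l : T3) :
    if tyT l .a then P.ζ / 2 * P.v (2 * ai k l) ≤ P.i12 g k l ∧
        P.i12 g k l ≤ (P.M + 1) * (P.v (2 * ai k l) + P.M + 1)
      else P.i12 g k l ≤ -(P.ζ / 2 * P.v (2 * ai k l)) ∧
        -((P.M + 1) * (P.v (2 * ai k l) + P.M + 1)) ≤ P.i12 g k l := by
  have hm := P.mem_of hk
  have na := abs_le.mp (P.ms_near hk l .a)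
  have nb := abs_le.mp (P.ms_near hk l .b)
  have hε := P.ε_small'
  have hγ0 := P.γ0
  have hγM := P.γM
  have hM := P.M1
  have hζ := P.ζ0
  have hζ1 := P.ζ1
  obtain ⟨hx1, hx2⟩ := P.hx _ (P.hn k hm l)
  obtain ⟨hy1, hy2⟩ := P.hy _ (P.hN k hm l)
  have hv := P.v1 _ (P.hN k hm l)
  have hjN := P.hN k hm l
  have v1 := P.vge (2 * ai k l) (by omega)
  have hγζ : 640 * P.γ ≤ P.ζ := by nlinarith
  have b1 : P.v (2 * ai k l) ≤ P.x1 k l := by
    rw [x1, hv]
    split_ifs <;> linarith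
  have b2 : P.x1 k l ≤ P.v (2 * ai k l) + P.M + 1 := by
    rw [x1, hv]
    split_ifs <;> linarith
  have htb : tyT l .b = !(tyT l .a) := by cases l <;> rfl
  rw [i12]
  cases ht : tyT l .a
  · rw [ht] at htb na
    rw [htb] at nb
    simp only [Bool.false_eq_true, if_false, Bool.not_false, if_true] at na nb ⊢
    have c1 : P.ms g k l .a - P.ms g k l .b ≤ -(P.ζ / 2) := by linarith [na.2, nb.1]
    have c2 : -(P.M + 1) ≤ P.ms g k l .a - P.ms g k l .b := by linarith [na.1, nb.2]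
    constructor
    · have := mul_le_mul (a := P.ζ / 2) (b := -(P.ms g k l .a - P.ms g k l .b)) (by linarith) b1
        (by linarith) (by linarith)
      linarith
    · have := mul_le_mul (a := -(P.ms g k l .a - P.ms g k l .b)) (b := P.M + 1) (by linarith) b2
        (by linarith) (by linarith)
      linarith
  · rw [ht] at htb na
    rw [htb] at nb
    simp only [Bool.false_eq_true, if_false, Bool.not_true, if_true] at na nb ⊢
    have c1 : P.ζ / 2 ≤ P.ms g k l .a - P.ms g k l .b := by linarith [na.1, nb.2]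
    have c2 : P.ms g k l .a - P.ms g k l .b ≤ P.M + 1 := by linarith [na.2, nb.1]
    constructor
    · exact mul_le_mul c1 b1 (by linarith) (by linarith)
    · exact mul_le_mul c2 b2 (by linarith) (by linarith)

end gadget

end SPar

end Pool.Agent.Lib.ETR.Str
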