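import Pool.Agent.Lib.ETR.Str.Gadget

set_option autoImplicit false
set_option linter.unusedSimpArgs false

/-!
# The order of the lines
-/

namespace Pool.Agent.Lib.ETR.Str

namespace SPar

variable {L : List BCon} {n N : ℕ} (P : SPar L n N)

section gadget

variable {g : ℕ} {k : BCon} (hk : L[g]? = some k)

include P hk

theorem prod_bounds (l : T3) : P.ζ ≤ P.x (si k l) * P.y (ai k l) ∧
    P.x (si k l) * P.y (ai k l) ≤ P.M * P.M := by
  have hm := P.mem_of hk
  have hζ := P.ζ0
  have hM := P.M1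
  obtain ⟨hx1, hx2⟩ := P.hx _ (P.hn k hm l)
  obtain ⟨hy1, hy2⟩ := P.hy _ (P.hN k hm l)
  exact ⟨P.hxy _ (P.hn k hm l) _ (P.hN k hm l), mul_le_mul hx2 hy2 (by linarith) (by linarith)⟩

theorem bp_lt (l p l' p' : T3) (h : rkT l p k.2.2.2 < rkT l' p' k.2.2.2) :
    P.bp g k l p + P.ζ / 40 ≤ P.bp g k l' p' := by
  have hm := P.mem_of hk
  have hζ := P.ζ0
  have hζ1 := P.ζ1
  have va := abs_le.mp (P.loop_val hk .a)
  have vb := abs_le.mp (P.loop_val hk .b)
  have vc := abs_le.mp (P.loop_val hk .c)
  have ia := P.i12_bound hk .a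
  have ib := P.i12_bound hk .b
  have ic := P.i12_bound hk .c
  have la := P.vlow _ (P.hN k hm .a)
  have lb := P.vlow _ (P.hN k hm .b)
  have lc := P.vlow _ (P.hN k hm .c)
  have pa := P.prod_bounds hk .a
  have pb := P.prod_bounds hk .b
  have pc := P.prod_bounds hk .c
  have h0 := P.hk0 k hm
  have h1 := P.hk1 k hm
  simp only [tyT, if_true, Bool.false_eq_true, if_false] at va vb vc ia ib ic
  generalize P.x (si k .a) * P.y (ai k .a) = Wa at *
  generalize P.x (si k .b) * P.y (ai k .b) = Wb at *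
  generalize P.x (si k .c) * P.y (ai k .c) = Wc at *
  cases hs : k.2.2.2
  · have h0 := h0 hs
    rw [hs] at h
    cases l <;> cases p <;> cases l' <;> cases p' <;> simp only [rkT] at h <;>
      first
      | omega
      | (simp only [bp, st, oβ, hs, Bool.false_eq_true, if_false]; linarith [va.1, va.2, vb.1,
          vb.2, vc.1, vc.2, ia.1, ib.1, ic.1])
  · have h1 := h1 hs
    rw [hs] at h
    cases l <;> cases p <;> cases l' <;> cases p' <;> simp only [rkT] at h <;>
      first
      | omega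
      | (simp only [bp, st, oβ, hs, if_true]; linarith [va.1, va.2, vb.1,
          vb.2, vc.1, vc.2, ia.1, ib.1, ic.1, h1.1, h1.2])

end gadget

end SPar

end Pool.Agent.Lib.ETR.Str
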