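import Pool.Agent.Lib.ETR.Str.Heights

set_option autoImplicit false
set_option linter.unusedSimpArgs false

/-!
# The order of the lines, continued
-/

namespace Pool.Agent.Lib.ETR.Str

namespace SPar

variable {L : List BCon} {n N : ℕ} (P : SPar L n N)

section gadget

variable {g : ℕ} {k : BCon} (hk : L[g]? = some k)

include P hk

theorem i12_le_Λ (l : T3) : (P.M + 1) * (P.v (2 * ai k l) + P.M + 1) + 4 * (P.M * P.M + 1) ≤ P.Λ := by
  have hm := P.mem_of hk
  have hM := P.M1
  have hjN := P.hN k hm l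
  have v2 := P.vV (2 * ai k l) (by omega)
  have hΛ := P.hΛ
  have : (P.M + 1) * (P.v (2 * ai k l) + P.M + 1) ≤ (P.M + 1) * (P.V + P.M + 1) :=
    mul_le_mul_of_nonneg_left (by linarith) (by linarith)
  linarith

theorem bp_B : (ai k .a < ai k .b → P.bp g k .a .b + P.ζ / 40 ≤ P.bp g k .b .b) ∧
    (ai k .b < ai k .a → P.bp g k .b .b + P.ζ / 40 ≤ P.bp g k .a .b) := by
  have hm := P.mem_of hk
  have hζ := P.ζ0
  have hζ1 := P.ζ1
  have va := abs_le.mp (P.loop_val hk .a)
  have ia := P.i12_bound hk .a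
  have ib := P.i12_bound hk .b
  have pa := P.prod_bounds hk .a
  have gr := P.vgrow
  simp only [tyT, if_true, Bool.false_eq_true, if_false] at va ia ib
  have ho : |P.oβ k| ≤ P.ζ / 20 := by
    unfold oβ
    split_ifs
    · rw [abs_neg, abs_of_pos (by linarith)]
    · rw [abs_of_pos (by linarith)]
  have ho := abs_le.mp ho
  constructor
  · intro h
    have h1 := gr _ _ h (P.hN k hm .b)
    simp only [bp, st]
    linarith [va.1, va.2, ia.1, ia.2, ib.1, ib.2, ho.1, ho.2]
  · intro h
    have h1 := gr _ _ h (P.hN k hm .a)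
    simp only [bp, st]
    linarith [va.1, va.2, ia.1, ia.2, ib.1, ib.2, ho.1, ho.2]

theorem bp_bound (l p : T3) : |P.bp g k l p| ≤ P.Λ := by
  have hm := P.mem_of hk
  have hζ := P.ζ0
  have hζ1 := P.ζ1
  have va := abs_le.mp (P.loop_val hk .a)
  have vb := abs_le.mp (P.loop_val hk .b)
  have vc := abs_le.mp (P.loop_val hk .c)
  have ia := P.i12_bound hk .a
  have ib := P.i12_bound hk .b
  have ic := P.i12_bound hk .c
  have la := P.i12_le_Λ hk .a
  have lb := P.i12_le_Λ hk .b
  have lc := P.i12_le_Λ hk .c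
  have wa := P.vlow _ (P.hN k hm .a)
  have wb := P.vlow _ (P.hN k hm .b)
  have wc := P.vlow _ (P.hN k hm .c)
  have pa := P.prod_bounds hk .a
  have pb := P.prod_bounds hk .b
  have pc := P.prod_bounds hk .c
  have ho : |P.oβ k| ≤ P.ζ / 20 := by
    unfold oβ
    split_ifs
    · rw [abs_neg, abs_of_pos (by linarith)]
    · rw [abs_of_pos (by linarith)]
  have ho := abs_le.mp ho
  simp only [tyT, if_true, Bool.false_eq_true, if_false] at va vb vc ia ib ic
  have hp : 0 < (P.M + 1) * (P.v (2 * ai k .a) + P.M + 1) := by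
    have h1 := P.M1
    have h2 := P.vge (2 * ai k .a) (by have := P.hN k hm .a; omega)
    positivity
  rw [abs_le]
  cases l <;> cases p <;> simp only [bp, st] <;> constructor <;>
    linarith [va.1, va.2, vb.1, vb.2, vc.1, vc.2, ia.1, ib.1, ic.1, ia.2, ib.2, ic.2, ho.1, ho.2]

end gadget

theorem bb_lp {g : ℕ} {k : BCon} (hk : L[g]? = some k) (l p : T3) (c j : ℕ) (s : Bool) :
    P.bb (FL.lp g l p c j s) = P.h (2 * g + 1) + P.bp g k l p := by
  have : L.getD g ((0, 0), (0, 0), (0, 0), false) = k := by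
    rw [List.getD_eq_getElem?_getD, hk]
    rfl
  rw [bb, this]
  rfl

/-- the lines which are not reference lines -/
theorem lp_form {f : FL} (hf : f ∈ fls L n) : (∃ c t, f = FL.ref c t) ∨ ∃ g k l p,
    L[g]? = some k ∧ f = FL.lp g l p (si k l) (ai k l) k.2.2.2 := by
  rcases (mem_fls.mp hf).2 with h | h
  · exact Or.inl h
  · exact Or.inr (mem_loopLines.mp h)

theorem hW {g' g : ℕ} (h : g' < g) :
    (P.h g' + 2 * P.Λ) * (P.M + 1) < (P.h g - P.h g' - 2 * P.Λ) * P.α ∧
      8 * P.Λ ≤ P.h g - P.h g' - 2 * P.Λ := by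
  have h1 := P.hh _ _ h
  have h2 := P.hh0 g'
  have h3 := P.Λ16
  have h4 := P.M1
  have h5 := P.α0
  have h6 := P.α1
  refine ⟨h1, ?_⟩
  have h7 : 8 * P.Λ ≤ (P.h g' + 2 * P.Λ) * (P.M + 1) := by nlinarith
  by_contra h8
  rw [not_le] at h8
  have h9 : (P.h g - P.h g' - 2 * P.Λ) * P.α ≤ 8 * P.Λ := by
    by_cases h10 : 0 ≤ P.h g - P.h g' - 2 * P.Λ
    · nlinarith
    · nlinarith
  linarith

theorem bb_near {f : FL} (hf : f ∈ fls L n) : |P.bb f - P.h f.gad| ≤ P.Λ := by
  have h3 := P.Λ16
  rcases lp_form hf with ⟨c, t, rfl⟩ | ⟨g, k, l, p, hk, rfl⟩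
  · rw [bb, sub_self, abs_zero]
    linarith
  · rw [P.bb_lp hk, FL.gad, add_sub_cancel_left]
    exact P.bp_bound hk l p

theorem bb_pos {f : FL} (hf : f ∈ fls L n) : 0 < P.bb f := by
  have h1 := abs_le.mp (P.bb_near hf)
  have h2 := P.hh0 f.gad
  have h3 := P.Λ16
  linarith [h1.1]

theorem bb_le {f : FL} (hf : f ∈ fls L n) : P.bb f ≤ P.H := by
  have h1 := abs_le.mp (P.bb_near hf)
  have h2 := P.hH f hf
  linarith [h1.2]

theorem slope_lo {f : FL} (hf : f ∈ fls L n) : P.T f.cls - P.ε ≤ f.slope P.base P.α := by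
  have h1 := abs_le.mp (P.slope_near hf)
  have h2 := P.hx _ (mem_fls.mp hf).1
  have h3 := P.ζ0
  cases ht : f.ty
  · rw [ht, P.base_false] at h1
    linarith [h1.1]
  · rw [ht, P.base_true] at h1
    linarith [h1.1, h2.1]

theorem slope_hi {f : FL} (hf : f ∈ fls L n) : f.slope P.base P.α ≤ P.T f.cls + P.M + P.ε := by
  have h1 := abs_le.mp (P.slope_near hf)
  have h2 := P.hx _ (mem_fls.mp hf).1
  have h3 := P.M1
  cases ht : f.ty
  · rw [ht, P.base_false] at h1
    linarith [h1.2]
  · rw [ht, P.base_true] at h1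
    linarith [h1.2, h2.2]

theorem ε_half : P.ε ≤ 1 / 640 := by
  have h1 := P.ε_small'
  have h2 := P.ζ1
  linarith

theorem slope_pos {f : FL} (hf : f ∈ fls L n) : 0 < f.slope P.base P.α := by
  have h1 := P.slope_lo hf
  have h2 := P.hT0 _ (mem_fls.mp hf).1
  have h3 := P.ε_half
  have h4 := P.M1
  linarith

theorem slope_S {f : FL} (hf : f ∈ fls L n) : f.slope P.base P.α < P.S := by
  have h1 := P.slope_hi hf
  have h2 := P.hS _ (mem_fls.mp hf).1
  have h3 := P.ε_half
  linarith

theorem H_pos {f : FL} (hf : f ∈ fls L n) : 0 < P.H := (P.bb_pos hf).trans_le (P.bb_le hf)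

/-- lines of different classes -/
theorem cls_gap {f f' : FL} (hf : f ∈ fls L n) (hf' : f' ∈ fls L n) (h : f.cls < f'.cls) :
    P.H * (P.T f.cls + P.M + 1) <
      P.ζ / 40 * (f'.slope P.base P.α - f.slope P.base P.α) ∧
      0 < f'.slope P.base P.α - f.slope P.base P.α := by
  have h1 := P.hT _ _ h (mem_fls.mp hf').1
  have h2 := P.slope_hi hf
  have h3 := P.slope_lo hf'
  have h4 := P.ε_half
  have h5 := P.ζ0
  have h6 := P.H_pos hf
  have h7 := P.hT0 _ (mem_fls.mp hf).1
  have h8 := P.M1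
  have h9 : P.ζ / 40 * (P.T f'.cls - P.T f.cls - 2 * (P.M + 1)) ≤
      P.ζ / 40 * (f'.slope P.base P.α - f.slope P.base P.α) :=
    mul_le_mul_of_nonneg_left (by linarith) (by linarith)
  refine ⟨h1.trans_le h9, ?_⟩
  have h10 : 0 < P.H * (P.T f.cls + P.M + 1) := mul_pos h6 (by linarith)
  have h11 : 0 < P.ζ / 40 * (f'.slope P.base P.α - f.slope P.base P.α) := by linarith
  exact (mul_pos_iff_of_pos_left (by linarith)).mp h11

theorem cls_le {f f' : FL} (hf : f ∈ fls L n) (hf' : f' ∈ fls L n)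
    (h : f.slope P.base P.α < f'.slope P.base P.α) : f.cls ≤ f'.cls := by
  by_contra h1
  have := (P.cls_gap hf' hf (by omega)).2
  linarith

/-- the sign of the perturbation, as an integer -/
def _root_.Pool.Agent.Lib.ETR.Str.FL.zi (f : FL) : ℤ := if f.sg then (f.mag : ℤ) else -(f.mag : ℤ)

theorem z_eq (f : FL) : f.z = (f.zi : ℝ) := by
  unfold FL.z FL.zi
  split_ifs
  · push_cast; rfl
  · push_cast; rfl

theorem ty_gap {f f' : FL} (hf : f ∈ fls L n) (hf' : f' ∈ fls L n) (hc : f.cls = f'.cls)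
    (ht : f.ty = false) (ht' : f'.ty = true) :
    P.ζ * (319 / 320) ≤ f'.slope P.base P.α - f.slope P.base P.α := by
  have h1 := abs_le.mp (P.slope_near hf)
  have h1' := abs_le.mp (P.slope_near hf')
  have h2 := P.hx _ (mem_fls.mp hf').1
  have h3 := P.ε_small'
  rw [ht, P.base_false] at h1
  rw [ht', P.base_true] at h1'
  rw [hc] at h1
  linarith [h1.2, h1'.1, h2.1]

/-- lines of the same class -/
theorem same_gap {f f' : FL} (hf : f ∈ fls L n) (hf' : f' ∈ fls L n) (hc : f.cls = f'.cls)
    (h : f.slope P.base P.α < f'.slope P.base P.α) :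
    P.α ≤ f'.slope P.base P.α - f.slope P.base P.α ∧
      f'.slope P.base P.α - f.slope P.base P.α ≤ P.M + 1 := by
  have hα := P.α0
  have hζ := P.ζ0
  constructor
  · cases ht : f.ty <;> cases ht' : f'.ty
    · have e : f'.slope P.base P.α - f.slope P.base P.α = P.α * (f'.z - f.z) := by
        rw [FL.slope, FL.slope, ht, ht', hc]; ring
      rw [e, z_eq, z_eq]
      have h1 : 0 < P.α * (f'.z - f.z) := by rw [← e]; linarith
      have h2 := (mul_pos_iff_of_pos_left hα).mp h1
      rw [z_eq, z_eq] at h2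
      have h3 : f.zi < f'.zi := by
        have : (f.zi : ℝ) < (f'.zi : ℝ) := by linarith
        exact_mod_cast this
      have h4 : (f.zi : ℝ) + 1 ≤ (f'.zi : ℝ) := by exact_mod_cast h3
      nlinarith
    · have := P.ty_gap hf hf' hc ht ht'
      have := P.αζ
      linarith
    · have := P.ty_gap hf' hf hc.symm ht' ht
      nlinarith
    · have e : f'.slope P.base P.α - f.slope P.base P.α = P.α * (f'.z - f.z) := by
        rw [FL.slope, FL.slope, ht, ht', hc]; ring
      rw [e, z_eq, z_eq]
      have h1 : 0 < P.α * (f'.z - f.z) := by rw [← e]; linarith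
      have h2 := (mul_pos_iff_of_pos_left hα).mp h1
      rw [z_eq, z_eq] at h2
      have h3 : f.zi < f'.zi := by
        have : (f.zi : ℝ) < (f'.zi : ℝ) := by linarith
        exact_mod_cast this
      have h4 : (f.zi : ℝ) + 1 ≤ (f'.zi : ℝ) := by exact_mod_cast h3
      nlinarith
  · have h1 := P.slope_lo hf
    have h2 := P.slope_hi hf'
    have h3 := P.ε_half
    rw [hc] at h1
    linarith

/-! ### The order on `x0` -/

theorem rkT_inj {l p l' p' : T3} {s : Bool} (h : rkT l p s = rkT l' p' s) :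
    (l = l' ∧ p = p') ∨ (l = .a ∧ l' = .b ∧ p = .b ∧ p' = .b) ∨
      (l = .b ∧ l' = .a ∧ p = .b ∧ p' = .b) := by
  cases s <;> cases l <;> cases p <;> cases l' <;> cases p' <;> simp_all [rkT]

theorem blt_spec {f f' : FL} (hf : f ∈ fls L n) (hf' : f' ∈ fls L n) (hne : f ≠ f') :
    (blt f f' = true → P.bb f + P.ζ / 40 ≤ P.bb f') ∧
    (blt f f' = false → P.bb f' + P.ζ / 40 ≤ P.bb f) := by
  have h1 := abs_le.mp (P.bb_near hf)
  have h1' := abs_le.mp (P.bb_near hf')
  have hΛ := P.Λ16
  have hζ := P.ζ1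
  rcases lt_trichotomy f.gad f'.gad with hg | hg | hg
  · have h2 := (P.hW hg).2
    refine ⟨fun _ => by linarith [h1.2, h1'.1], fun h => ?_⟩
    simp [blt, hg] at h
  · rcases lp_form hf with ⟨c, t, rfl⟩ | ⟨g, k, l, p, hk, rfl⟩
    · rcases lp_form hf' with ⟨c', t', rfl⟩ | ⟨g', k', l', p', hk', rfl⟩
      · exfalso
        apply hne
        simp only [FL.gad] at hg
        cases t <;> cases t' <;> simp at hg ⊢ <;> omega
      · simp only [FL.gad] at hg
        omega
    · rcases lp_form hf' with ⟨c', t', rfl⟩ | ⟨g', k', l', p', hk', rfl⟩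
      · simp only [FL.gad] at hg
        omega
      · have hgg : g = g' := by simp only [FL.gad] at hg; omega
        subst hgg
        have hkk : k = k' := by rw [hk] at hk'; exact Option.some_inj.mp hk'
        subst hkk
        rw [P.bb_lp hk, P.bb_lp hk]
        have hblt : blt (FL.lp g l p (si k l) (ai k l) k.2.2.2)
            (FL.lp g l' p' (si k l') (ai k l') k.2.2.2) =
            (decide (rkT l p k.2.2.2 < rkT l' p' k.2.2.2) ||
              (decide (rkT l p k.2.2.2 = rkT l' p' k.2.2.2) && decide (ai k l < ai k l'))) := by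
          rw [Bool.eq_iff_iff]
          simp [blt, FL.gad, FL.rk, FL.jx]
        rw [hblt]
        rcases lt_trichotomy (rkT l p k.2.2.2) (rkT l' p' k.2.2.2) with hr | hr | hr
        · have := P.bp_lt hk l p l' p' hr
          refine ⟨fun _ => by linarith, fun h => ?_⟩
          simp [hr] at h
        · have hgood := (P.hg k (P.mem_of hk)).2
          have hB := P.bp_B hk
          rcases rkT_inj hr with ⟨rfl, rfl⟩ | ⟨rfl, rfl, rfl, rfl⟩ | ⟨rfl, rfl, rfl, rfl⟩
          · exact absurd rfl hne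
          · rcases lt_or_gt_of_ne (show ai k .a ≠ ai k .b from hgood) with h2 | h2
            · have := hB.1 h2
              refine ⟨fun _ => by linarith, fun h => ?_⟩
              simp [hr, h2] at h
            · have := hB.2 h2
              refine ⟨fun h => ?_, fun _ => by linarith⟩
              simp [hr] at h
              omega
          · rcases lt_or_gt_of_ne (show ai k .a ≠ ai k .b from hgood) with h2 | h2
            · have := hB.1 h2
              refine ⟨fun h => ?_, fun _ => by linarith⟩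
              simp [hr] at h
              omega
            · have := hB.2 h2
              refine ⟨fun _ => by linarith, fun h => ?_⟩
              simp [hr] at h
              omega
        · have := P.bp_lt hk l' p' l p hr
          refine ⟨fun h => ?_, fun _ => by linarith⟩
          simp [hr.ne', not_lt.mpr hr.le] at h
  · have h2 := (P.hW hg).2
    refine ⟨fun h => ?_, fun _ => by linarith [h1.1, h1'.2]⟩
    simp [blt, hg.ne', not_lt.mpr hg.le] at h

end SPar

end Pool.Agent.Lib.ETR.Str
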