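import Pool.Agent.Lib.ETR.Str.Copy

set_option autoImplicit false
set_option linter.unusedSimpArgs false

/-!
# The lines of the arrangement and their orientations
-/

namespace Pool.Agent.Lib.ETR.Str

/-- three names -/
inductive T3 where
  | a | b | c
  deriving DecidableEq, Fintype

/-- the index of the slope -/
def si (k : BCon) : T3 → ℕ
  | .a => k.1.1
  | .b => k.2.1.1
  | .c => k.2.2.1.1

/-- the index of the abscissa -/
def ai (k : BCon) : T3 → ℕ
  | .a => k.1.2
  | .b => k.2.1.2
  | .c => k.2.2.1.2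

/-- Reference lines (slope number `c`, of the second or of the first kind) and lines of the loops
(gadget `g`, loop `l`, number `p`, indices `c` and `j`, kind `s` of the comparison). -/
inductive FL where
  | ref (c : ℕ) (t : Bool)
  | lp (g : ℕ) (l p : T3) (c j : ℕ) (s : Bool)
  deriving DecidableEq

/-- the lines, in the order of their slopes: two nearly vertical lines for each abscissa, the line
`x0` of abscissa zero -/
inductive Ln where
  | vm (j : ℕ) | fl (f : FL) | vp (j : ℕ) | x0
  deriving DecidableEq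

/-- numbers of names -/
def tn : T3 → ℕ
  | .a => 0
  | .b => 1
  | .c => 2

/-- the slope is of the first kind -/
def tyT : T3 → T3 → Bool
  | .c, .b => true
  | .c, _ => false
  | _, .b => false
  | _, _ => true

/-- the perturbation of the slope is positive -/
def sgT : T3 → Bool → Bool
  | .a, s => !s
  | _, s => s

/-- the direction of the turn -/
def qT : T3 → Bool → Bool
  | .c, s => s
  | _, s => !s

/-- the order of the lines of a gadget along `x0` -/
def rkT : T3 → T3 → Bool → ℕ
  | .c, .b, _ => 0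
  | .c, .c, false => 1
  | .a, .a, false => 2
  | .a, .c, false => 3
  | .b, .a, false => 4
  | .b, .c, false => 5
  | .c, .a, false => 6
  | .a, .a, true => 1
  | .c, .c, true => 2
  | .b, .a, true => 3
  | .a, .c, true => 4
  | .c, .a, true => 5
  | .b, .c, true => 6
  | _, .b, _ => 7

/-- kinds of pairs -/
def pkT : T3 → T3 → ℕ
  | .a, .b => 0
  | .b, .a => 0
  | .b, .c => 1
  | .c, .b => 1
  | _, _ => 2

namespace FL

/-- class of the slope -/
def cls : FL → ℕ
  | ref c _ => c
  | lp _ _ _ c _ _ => c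

/-- kind of the slope -/
def ty : FL → Bool
  | ref _ t => t
  | lp _ l p _ _ _ => tyT l p

/-- number of the gadget -/
def gad : FL → ℕ
  | ref c t => 2 * (2 * c + t.toNat)
  | lp g _ _ _ _ _ => 2 * g + 1

/-- index of the abscissa -/
def jx : FL → ℕ
  | ref _ _ => 0
  | lp _ _ _ _ j _ => j

/-- sign of the perturbation -/
def sg : FL → Bool
  | ref _ _ => true
  | lp _ _ p _ _ s => sgT p s

/-- size of the perturbation -/
def mag : FL → ℕ
  | ref _ _ => 0
  | lp g l p _ _ _ => 9 * g + 3 * tn l + tn p + 1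

/-- rank in the gadget -/
def rk : FL → ℕ
  | ref _ _ => 0
  | lp _ l p _ _ s => rkT l p s

/-- direction of the turn -/
def q : FL → Bool
  | ref _ _ => false
  | lp _ l _ _ _ s => qT l s

/-- number in the loop -/
def ps : FL → T3
  | ref _ _ => .a
  | lp _ _ p _ _ _ => p

/-- kind of the comparison -/
def sb : FL → Bool
  | ref _ _ => false
  | lp _ _ _ _ _ s => s

end FL

/-- `f` meets `x0` below `f'` -/
def blt (f f' : FL) : Bool :=
  decide (f.gad < f'.gad) || (decide (f.gad = f'.gad) &&
    (decide (f.rk < f'.rk) || (decide (f.rk = f'.rk) && decide (f.jx < f'.jx))))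

/-- the crossing of two lines of a loop is on the left of the line number `j` -/
def lleT (q : Bool) (k b j : ℕ) : Bool :=
  if k = 0 then decide (2 * b + 1 + q.toNat ≤ j) else
    if k = 1 then decide (2 * b + 1 ≤ j + q.toNat) else !q

/-- the crossing of `f` and `f'` is on the left of the line number `j` -/
def lle (f f' : FL) (j : ℕ) : Bool :=
  if f.cls = f'.cls then
    if f.gad = f'.gad then lleT f.q (pkT f.ps f'.ps) f.jx j else decide (f.gad < f'.gad)
  else true

/-- orientation of three reference lines or lines of loops -/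
def fff (f f' f'' : FL) : Bool :=
  if f.cls = f''.cls then
    if f.gad = f'.gad ∧ f'.gad = f''.gad then !f.sb
    else decide (f.gad ≤ f'.gad) && decide (f''.gad ≤ f'.gad)
  else if f'.cls = f''.cls then blt f'' f' else blt f f'

/-- the orientation of three lines (of increasing slopes) -/
def pos : Ln → Ln → Ln → Bool
  | .fl f, .fl f', .fl f'' => fff f f' f''
  | .fl f, .fl f', .vp j => lle f f' j
  | .vm j, .fl f, .fl f' => !(lle f f' j)
  | .fl f, .fl f', .x0 => blt f f'
  | .vm j, .fl _, .vp k => decide (j ≤ k)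
  | .fl _, .vp _, .vp _ => true
  | .vp _, .vp _, .vp _ => true
  | .vm j, .vp _, .vp l => decide (j ≤ l)
  | .vm l, .vm _, .vp j => decide (l < j)
  | _, _, _ => false

/-! ### The list of lines -/

/-- the lines of the loops -/
def loopLines (L : List BCon) : List FL :=
  L.zipIdx.flatMap (fun q => [T3.a, T3.b, T3.c].flatMap (fun l =>
    [T3.a, T3.b, T3.c].map (fun p => FL.lp q.2 l p (si q.1 l) (ai q.1 l) q.1.2.2.2)))

/-- the lines of the loops with given class, kind of slope and sign -/
def blockL (L : List BCon) (c : ℕ) (t sg : Bool) : List FL :=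
  (loopLines L).filter (fun f => decide (f.cls = c) && (decide (f.ty = t) && decide (f.sg = sg)))

/-- the lines with given class and kind -/
def block (L : List BCon) (c : ℕ) (t : Bool) : List FL :=
  (blockL L c t false).reverse ++ FL.ref c t :: blockL L c t true

/-- all lines but the vertical ones -/
def fls (L : List BCon) (n : ℕ) : List FL :=
  (List.range n).flatMap (fun c => block L c false ++ block L c true)

/-- all lines -/
def names (L : List BCon) (n N : ℕ) : List Ln :=
  (List.range (2 * N)).reverse.map Ln.vm ++ ((fls L n).map Ln.fl ++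
    ((List.range (2 * N)).map Ln.vp ++ [Ln.x0]))

/-! ### Slopes -/

/-- the signed size of the perturbation -/
noncomputable def FL.z (f : FL) : ℝ := if f.sg then (f.mag : ℝ) else -(f.mag : ℝ)

/-- the slopes -/
noncomputable def FL.slope (base : ℕ → ℝ) (α : ℝ) (f : FL) : ℝ :=
  base (2 * f.cls + f.ty.toNat) + α * f.z

/-- the slopes -/
noncomputable def Ln.slope (base : ℕ → ℝ) (α : ℝ) (K : ℕ → ℝ) (KX : ℝ) : Ln → ℝ
  | .vm j => -K j
  | .fl f => f.slope base α
  | .vp j => K j
  | .x0 => KX

theorem mem_loopLines {L : List BCon} {f : FL} : f ∈ loopLines L ↔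
    ∃ g k l p, L[g]? = some k ∧ f = FL.lp g l p (si k l) (ai k l) k.2.2.2 := by
  simp only [loopLines, List.mem_flatMap, List.mem_map]
  constructor
  · rintro ⟨⟨k, g⟩, h1, l, -, p, -, rfl⟩
    exact ⟨g, k, l, p, List.mem_zipIdx_iff_getElem?.mp h1, rfl⟩
  · rintro ⟨g, k, l, p, h1, rfl⟩
    exact ⟨(k, g), List.mem_zipIdx_iff_getElem?.mpr h1, l, by cases l <;> simp, p,
      by cases p <;> simp, rfl⟩

theorem mem_block {L : List BCon} {c : ℕ} {t : Bool} {f : FL} : f ∈ block L c t ↔
    (f = FL.ref c t ∨ f ∈ loopLines L ∧ f.cls = c ∧ f.ty = t) := by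
  simp only [block, blockL, List.mem_append, List.mem_reverse, List.mem_cons, List.mem_filter,
    Bool.and_eq_true, decide_eq_true_eq]
  constructor
  · rintro (⟨h1, h2, h3, -⟩ | h | ⟨h1, h2, h3, -⟩)
    · exact Or.inr ⟨h1, h2, h3⟩
    · exact Or.inl h
    · exact Or.inr ⟨h1, h2, h3⟩
  · rintro (h | ⟨h1, h2, h3⟩)
    · exact Or.inr (Or.inl h)
    · cases h4 : f.sg
      · exact Or.inl ⟨h1, h2, h3, rfl⟩
      · exact Or.inr (Or.inr ⟨h1, h2, h3, rfl⟩)

theorem mem_fls {L : List BCon} {n : ℕ} {f : FL} : f ∈ fls L n ↔ f.cls < n ∧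
    ((∃ c t, f = FL.ref c t) ∨ f ∈ loopLines L) := by
  simp only [fls, List.mem_flatMap, List.mem_range, List.mem_append, mem_block]
  constructor
  · rintro ⟨c, hc, (h | ⟨h1, h2, h3⟩) | (h | ⟨h1, h2, h3⟩)⟩
    · exact ⟨by rw [h]; exact hc, Or.inl ⟨_, _, h⟩⟩
    · exact ⟨by rw [h2]; exact hc, Or.inr h1⟩
    · exact ⟨by rw [h]; exact hc, Or.inl ⟨_, _, h⟩⟩
    · exact ⟨by rw [h2]; exact hc, Or.inr h1⟩
  · rintro ⟨h1, ⟨c, t, rfl⟩ | h2⟩
    · cases t
      · exact ⟨c, h1, Or.inl (Or.inl rfl)⟩
      · exact ⟨c, h1, Or.inr (Or.inl rfl)⟩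
    · cases h3 : f.ty
      · exact ⟨_, h1, Or.inl (Or.inr ⟨h2, rfl, rfl⟩)⟩
      · exact ⟨_, h1, Or.inr (Or.inr ⟨h2, rfl, rfl⟩)⟩

theorem mem_names {L : List BCon} {n N : ℕ} {a : Ln} : a ∈ names L n N ↔
    (∃ j < 2 * N, a = Ln.vm j) ∨ (∃ f ∈ fls L n, a = Ln.fl f) ∨ (∃ j < 2 * N, a = Ln.vp j) ∨
      a = Ln.x0 := by
  simp only [names, List.mem_append, List.mem_map, List.mem_reverse, List.mem_range,
    List.mem_singleton]
  constructor
  · rintro (⟨j, h1, rfl⟩ | ⟨f, h1, rfl⟩ | ⟨j, h1, rfl⟩ | h)
    · exact Or.inl ⟨j, h1, rfl⟩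
    · exact Or.inr (Or.inl ⟨f, h1, rfl⟩)
    · exact Or.inr (Or.inr (Or.inl ⟨j, h1, rfl⟩))
    · exact Or.inr (Or.inr (Or.inr h))
  · rintro (⟨j, h1, rfl⟩ | ⟨f, h1, rfl⟩ | ⟨j, h1, rfl⟩ | h)
    · exact Or.inl ⟨j, h1, rfl⟩
    · exact Or.inr (Or.inl ⟨f, h1, rfl⟩)
    · exact Or.inr (Or.inr (Or.inl ⟨j, h1, rfl⟩))
    · exact Or.inr (Or.inr (Or.inr h))

theorem loopLines_pairwise (L : List BCon) : (loopLines L).Pairwise (fun f f' => f.mag < f'.mag) := by
  unfold loopLines
  rw [List.pairwise_flatMap]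
  constructor
  · rintro ⟨k, g⟩ -
    simp [FL.mag, tn]
  · rw [List.pairwise_iff_getElem]
    intro i j hi hj hij f hf f' hf'
    simp only [List.getElem_zipIdx, List.mem_flatMap, List.mem_map] at hf hf'
    obtain ⟨l, -, p, -, rfl⟩ := hf
    obtain ⟨l', -, p', -, rfl⟩ := hf'
    simp only [FL.mag]
    cases l <;> cases p <;> cases l' <;> cases p' <;> simp only [tn] <;> omega

theorem loopLines_mag_pos {L : List BCon} {f : FL} (h : f ∈ loopLines L) : 0 < f.mag := by
  obtain ⟨g, k, l, p, -, rfl⟩ := mem_loopLines.mp h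
  simp only [FL.mag]
  omega

theorem loopLines_mag_le {L : List BCon} {f : FL} (h : f ∈ loopLines L) :
    f.mag ≤ 9 * L.length := by
  obtain ⟨g, k, l, p, h1, rfl⟩ := mem_loopLines.mp h
  have h2 : g < L.length := (List.getElem?_eq_some_iff.mp h1).1
  simp only [FL.mag]
  cases l <;> cases p <;> simp only [tn] <;> omega

theorem fls_mag_le {L : List BCon} {n : ℕ} {f : FL} (h : f ∈ fls L n) : f.mag ≤ 9 * L.length := by
  rcases (mem_fls.mp h).2 with ⟨c, t, rfl⟩ | h1
  · simp [FL.mag]
  · exact loopLines_mag_le h1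

theorem abs_z_le {f : FL} {R : ℝ} (h : (f.mag : ℝ) ≤ R) : |f.z| ≤ R := by
  unfold FL.z
  have h0 : (0 : ℝ) ≤ f.mag := Nat.cast_nonneg _
  split_ifs
  · rw [abs_of_nonneg h0]; exact h
  · rw [abs_neg, abs_of_nonneg h0]; exact h

section slopes

variable {L : List BCon} {n : ℕ} {base : ℕ → ℝ} {α R : ℝ}

theorem base_mono {m : ℕ} {D : ℝ} (hD : 0 ≤ D) (h : ∀ k, k + 1 < m → base k + D < base (k + 1)) :
    ∀ k k', k < k' → k' < m → base k + D < base k' := by
  intro k k' hk
  induction k', hk using Nat.le_induction with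
  | base => intro h1; exact h k h1
  | succ k' hk ih =>
    intro h1
    have h2 := ih (by omega)
    have h3 := h k' h1
    linarith

theorem block_pairwise (hα : 0 < α) (c : ℕ) (t : Bool) :
    (block L c t).Pairwise (fun f f' => f.slope base α < f'.slope base α) := by
  have h1 : ∀ sg, (blockL L c t sg).Pairwise (fun f f' => f.mag < f'.mag) := fun sg =>
    (loopLines_pairwise L).filter _
  have hm : ∀ sg, ∀ f ∈ blockL L c t sg, f.slope base α = base (2 * c + t.toNat) + α * f.z ∧
      f.sg = sg ∧ 0 < f.mag := by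
    intro sg f hf
    simp only [blockL, List.mem_filter, Bool.and_eq_true, decide_eq_true_eq] at hf
    obtain ⟨h2, h3, h4, h5⟩ := hf
    exact ⟨by rw [FL.slope, h3, h4], h5, loopLines_mag_pos h2⟩
  have hr : (FL.ref c t).slope base α = base (2 * c + t.toNat) := by
    simp [FL.slope, FL.z, FL.mag, FL.cls, FL.ty, FL.sg]
  unfold block
  rw [List.pairwise_append, List.pairwise_reverse, List.pairwise_cons]
  refine ⟨?_, ⟨?_, ?_⟩, ?_⟩
  · refine List.Pairwise.imp_of_mem ?_ (h1 false)
    intro f f' hf hf' hlt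
    obtain ⟨e1, e2, e3⟩ := hm _ f hf
    obtain ⟨e1', e2', e3'⟩ := hm _ f' hf'
    rw [e1, e1', FL.z, FL.z, e2, e2']
    have : (f.mag : ℝ) < f'.mag := by exact_mod_cast hlt
    simp only [Bool.false_eq_true, if_false]
    nlinarith
  · intro f hf
    obtain ⟨e1, e2, e3⟩ := hm _ f hf
    rw [hr, e1, FL.z, e2]
    have : (0 : ℝ) < f.mag := by exact_mod_cast e3
    simp only [if_true]
    nlinarith
  · refine List.Pairwise.imp_of_mem ?_ (h1 true)
    intro f f' hf hf' hlt
    obtain ⟨e1, e2, e3⟩ := hm _ f hf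
    obtain ⟨e1', e2', e3'⟩ := hm _ f' hf'
    rw [e1, e1', FL.z, FL.z, e2, e2']
    have : (f.mag : ℝ) < f'.mag := by exact_mod_cast hlt
    simp only [if_true]
    nlinarith
  · intro f hf f' hf'
    obtain ⟨e1, e2, e3⟩ := hm _ f (List.mem_reverse.mp hf)
    have h3 : (0 : ℝ) < f.mag := by exact_mod_cast e3
    have h4 : f.slope base α < base (2 * c + t.toNat) := by
      rw [e1, FL.z, e2]
      simp only [Bool.false_eq_true, if_false]
      nlinarith
    rcases List.mem_cons.mp hf' with rfl | hf'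
    · rw [hr]
      exact h4
    · obtain ⟨e1', e2', e3'⟩ := hm _ f' hf'
      have h3' : (0 : ℝ) < f'.mag := by exact_mod_cast e3'
      have h5 : base (2 * c + t.toNat) < f'.slope base α := by
        rw [e1', FL.z, e2']
        simp only [if_true]
        nlinarith
      exact h4.trans h5

theorem fls_pairwise (hα : 0 < α) (hR : (9 * L.length : ℝ) ≤ R)
    (hb : ∀ k, k + 1 < 2 * n → base k + 2 * α * R < base (k + 1)) :
    (fls L n).Pairwise (fun f f' => f.slope base α < f'.slope base α) := by
  have hR0 : 0 ≤ R := le_trans (by positivity) hR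
  have hmono := base_mono (D := 2 * α * R) (by positivity) hb
  have hmem : ∀ c t, ∀ f ∈ block L c t, |f.slope base α - base (2 * c + t.toNat)| ≤ α * R := by
    intro c t f hf
    have h1 : f.cls = c ∧ f.ty = t ∧ f.mag ≤ 9 * L.length := by
      rcases mem_block.mp hf with rfl | ⟨h1, h2, h3⟩
      · exact ⟨rfl, rfl, by simp [FL.mag]⟩
      · exact ⟨h2, h3, loopLines_mag_le h1⟩
    have h2 : |f.z| ≤ R := abs_z_le (le_trans (by exact_mod_cast h1.2.2) hR)
    rw [FL.slope, h1.1, h1.2.1, add_sub_cancel_left, abs_mul, abs_of_pos hα]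
    exact mul_le_mul_of_nonneg_left h2 hα.le
  have hcross : ∀ c t c' t', 2 * c + Bool.toNat t < 2 * c' + Bool.toNat t' → c' < n →
      ∀ f ∈ block L c t, ∀ f' ∈ block L c' t', f.slope base α < f'.slope base α := by
    intro c t c' t' h1 h2 f hf f' hf'
    have h3 := abs_le.mp (hmem c t f hf)
    have h4 := abs_le.mp (hmem c' t' f' hf')
    have h5 := hmono _ _ h1 (by have := Bool.toNat_le t'; omega)
    linarith [h3.1, h3.2, h4.1, h4.2]
  unfold fls
  rw [List.pairwise_flatMap]
  constructor
  · intro c hc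
    rw [List.mem_range] at hc
    rw [List.pairwise_append]
    refine ⟨block_pairwise hα c false, block_pairwise hα c true, ?_⟩
    exact hcross c false c true (by simp) hc
  · refine List.Pairwise.imp_of_mem ?_ (List.pairwise_lt_range (n := n))
    intro c c' _ hc' hcc f hf f' hf'
    rw [List.mem_range] at hc'
    rw [List.mem_append] at hf hf'
    rcases hf with hf | hf <;> rcases hf' with hf' | hf'
    · exact hcross _ _ _ _ (by simp; omega) hc' f hf f' hf'
    · exact hcross _ _ _ _ (by simp; omega) hc' f hf f' hf'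
    · exact hcross _ _ _ _ (by simp; omega) hc' f hf f' hf'
    · exact hcross _ _ _ _ (by simp; omega) hc' f hf f' hf'

theorem names_pairwise {N : ℕ} {K : ℕ → ℝ} {KX S : ℝ} (hα : 0 < α) (hR : (9 * L.length : ℝ) ≤ R)
    (hb : ∀ k, k + 1 < 2 * n → base k + 2 * α * R < base (k + 1))
    (hS : ∀ f ∈ fls L n, 0 < f.slope base α ∧ f.slope base α < S) (hK0 : ∀ j, S ≤ K j)
    (hKp : ∀ j, 0 < K j) (hKm : StrictMono K) (hKX : ∀ j < 2 * N, K j < KX) (hSX : S ≤ KX)
    (hX : 0 < KX) :
    (names L n N).Pairwise (fun a b => a.slope base α K KX < b.slope base α K KX) := by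
  unfold names
  rw [List.pairwise_append, List.pairwise_append, List.pairwise_append]
  refine ⟨?_, ⟨?_, ⟨?_, List.pairwise_singleton _ _, ?_⟩, ?_⟩, ?_⟩
  · rw [List.pairwise_map, List.pairwise_reverse]
    refine (List.pairwise_lt_range (n := 2 * N)).imp ?_
    intro a b hab
    simp only [Ln.slope]
    linarith [hKm hab]
  · rw [List.pairwise_map]
    exact fls_pairwise hα hR hb
  · rw [List.pairwise_map]
    refine (List.pairwise_lt_range (n := 2 * N)).imp ?_
    intro a b hab
    simp only [Ln.slope]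
    exact hKm hab
  · intro a ha b hb'
    rw [List.mem_singleton] at hb'
    obtain ⟨j, hj, rfl⟩ := List.mem_map.mp ha
    subst hb'
    exact hKX j (List.mem_range.mp hj)
  · intro a ha b hb'
    obtain ⟨f, hf, rfl⟩ := List.mem_map.mp ha
    have h1 := hS f hf
    rcases List.mem_append.mp hb' with hb' | hb'
    · obtain ⟨j, hj, rfl⟩ := List.mem_map.mp hb'
      simp only [Ln.slope]
      linarith [h1.2, hK0 j]
    · rw [List.mem_singleton] at hb'
      subst hb'
      simp only [Ln.slope]
      linarith [h1.2]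
  · intro a ha b hb'
    obtain ⟨j, hj, rfl⟩ := List.mem_map.mp ha
    have h0 := hKp j
    rcases List.mem_append.mp hb' with hb' | hb'
    · obtain ⟨f, hf, rfl⟩ := List.mem_map.mp hb'
      have h1 := hS f hf
      simp only [Ln.slope]
      linarith [h1.1]
    · rcases List.mem_append.mp hb' with hb' | hb'
      · obtain ⟨j', hj', rfl⟩ := List.mem_map.mp hb'
        simp only [Ln.slope]
        linarith [hKp j']
      · rw [List.mem_singleton] at hb'
        subst hb'
        simp only [Ln.slope]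
        linarith

end slopes

end Pool.Agent.Lib.ETR.Str
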