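import Pool.Agent.Lib.MP_beb3fe_lc.Final
import Pool.Agent.Lib.PolyTime
import Pool.Agent.Lib.PolyTime.Lists

set_option autoImplicit false
set_option linter.unusedSimpArgs false

/-!
# Local sequences from the orientations of the triples of lines
-/

namespace Pool.Agent.Lib.ETR.Str

open SegGirth (Stretchable)

/-- the orientation of three lines `y = m x + b` (positive if the second one is above the crossing
of the other two) -/
def D3 (m1 b1 m2 b2 m3 b3 : ℝ) : ℝ := b2 * (m3 - m1) - b1 * (m3 - m2) - b3 * (m2 - m1)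

section cmp

variable {m1 b1 m2 b2 m3 b3 : ℝ} (h12 : m1 < m2) (h23 : m2 < m3)

include h12 h23

theorem cross_one : (b2 - b1) / (m1 - m2) < (b3 - b1) / (m1 - m3) ↔ 0 < D3 m1 b1 m2 b2 m3 b3 := by
  have e1 : (b2 - b1) / (m1 - m2) = (b1 - b2) / (m2 - m1) := by
    rw [← neg_div_neg_eq]; congr 1 <;> ring
  have e2 : (b3 - b1) / (m1 - m3) = (b1 - b3) / (m3 - m1) := by
    rw [← neg_div_neg_eq]; congr 1 <;> ring
  rw [e1, e2, div_lt_div_iff₀ (by linarith) (by linarith), ← sub_pos]
  unfold D3
  constructor <;> intro h <;> linarith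

theorem cross_one' : (b3 - b1) / (m1 - m3) < (b2 - b1) / (m1 - m2) ↔ D3 m1 b1 m2 b2 m3 b3 < 0 := by
  have e1 : (b2 - b1) / (m1 - m2) = (b1 - b2) / (m2 - m1) := by
    rw [← neg_div_neg_eq]; congr 1 <;> ring
  have e2 : (b3 - b1) / (m1 - m3) = (b1 - b3) / (m3 - m1) := by
    rw [← neg_div_neg_eq]; congr 1 <;> ring
  rw [e1, e2, div_lt_div_iff₀ (by linarith) (by linarith), ← sub_pos]
  unfold D3
  constructor <;> intro h <;> linarith

theorem cross_two : (b1 - b2) / (m2 - m1) < (b3 - b2) / (m2 - m3) ↔ 0 < D3 m1 b1 m2 b2 m3 b3 := by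
  have e2 : (b3 - b2) / (m2 - m3) = (b2 - b3) / (m3 - m2) := by
    rw [← neg_div_neg_eq]; congr 1 <;> ring
  rw [e2, div_lt_div_iff₀ (by linarith) (by linarith), ← sub_pos]
  unfold D3
  constructor <;> intro h <;> linarith

theorem cross_two' : (b3 - b2) / (m2 - m3) < (b1 - b2) / (m2 - m1) ↔ D3 m1 b1 m2 b2 m3 b3 < 0 := by
  have e2 : (b3 - b2) / (m2 - m3) = (b2 - b3) / (m3 - m2) := by
    rw [← neg_div_neg_eq]; congr 1 <;> ring
  rw [e2, div_lt_div_iff₀ (by linarith) (by linarith), ← sub_pos]
  unfold D3
  constructor <;> intro h <;> linarith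

theorem cross_three : (b1 - b3) / (m3 - m1) < (b2 - b3) / (m3 - m2) ↔
    0 < D3 m1 b1 m2 b2 m3 b3 := by
  rw [div_lt_div_iff₀ (by linarith) (by linarith), ← sub_pos]
  unfold D3
  constructor <;> intro h <;> linarith

theorem cross_three' : (b2 - b3) / (m3 - m2) < (b1 - b3) / (m3 - m1) ↔
    D3 m1 b1 m2 b2 m3 b3 < 0 := by
  rw [div_lt_div_iff₀ (by linarith) (by linarith), ← sub_pos]
  unfold D3
  constructor <;> intro h <;> linarith

end cmp

/-- the bit of the triple `{i, j, k}`, where `j < k` -/
def tri (P : ℕ → ℕ → ℕ → Bool) (i j k : ℕ) : Bool :=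
  if i < j then P i j k else if i < k then P j i k else P j k i

/-- line `i` meets `j` before `k` -/
def bef (P : ℕ → ℕ → ℕ → Bool) (i j k : ℕ) : Bool :=
  if j < k then tri P i j k else !(tri P i k j)

/-- the rank of `j` on `i` -/
def rnk (len : ℕ) (P : ℕ → ℕ → ℕ → Bool) (i j : ℕ) : ℕ :=
  ((List.range len).filter (fun k => !(decide (k = i)) && (!(decide (k = j)) && bef P i k j))).length

/-- the local sequence of `i` -/
def locSeq (len : ℕ) (P : ℕ → ℕ → ℕ → Bool) (i : ℕ) : List ℕ :=
  (List.range len).flatMap (fun r =>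
    (List.range len).filter (fun j => !(decide (j = i)) && decide (rnk len P i j = r)))

/-- the ranks are consistent -/
def okk (len : ℕ) (P : ℕ → ℕ → ℕ → Bool) : Bool :=
  (List.range len).all fun i => (List.range len).all fun j => (List.range len).all fun k =>
    decide (j = i) || (decide (k = i) || (decide (j = k) ||
      decide (bef P i j k = decide (rnk len P i j < rnk len P i k))))

/-- the local sequences, or a list which is not stretchable -/
def outOf (len : ℕ) (P : ℕ → ℕ → ℕ → Bool) : List (List ℕ) :=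
  if okk len P then (List.range len).map (locSeq len P) else [[], []]

/-- the orientations are as prescribed -/
def Realizes (len : ℕ) (P : ℕ → ℕ → ℕ → Bool) (m b : ℕ → ℝ) : Prop :=
  (∀ i j, i < j → j < len → m i < m j) ∧ ∀ i j k, i < j → j < k → k < len →
    if P i j k then 0 < D3 (m i) (b i) (m j) (b j) (m k) (b k)
    else D3 (m i) (b i) (m j) (b j) (m k) (b k) < 0

theorem rnk_eq (len : ℕ) (P : ℕ → ℕ → ℕ → Bool) (i j : ℕ) :
    rnk len P i j = ((Finset.range len).filter (fun k => k ≠ i ∧ k ≠ j ∧ bef P i k j = true)).card := by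
  have h : (List.range len).filter (fun k => !(decide (k = i)) && (!(decide (k = j)) && bef P i k j)) =
      (List.range len).filter (fun k => decide (k ≠ i ∧ k ≠ j ∧ bef P i k j = true)) := by
    apply List.filter_congr
    intro k _
    simp only [Bool.decide_and, decide_not, Bool.decide_eq_true]
  rw [rnk, h]
  rfl

theorem not_stretch_bad : ¬ Stretchable [[], []] := by
  rintro ⟨m, b, -, h⟩
  have h1 := ((h 0 (by simp)).1 1).mpr ⟨by simp, by simp⟩
  simp at h1

/-- crossing of two lines -/
noncomputable def xcr (m b : ℕ → ℝ) (i j : ℕ) : ℝ := (b j - b i) / (m i - m j)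

theorem outOf_sound {len : ℕ} {P : ℕ → ℕ → ℕ → Bool} (h : Stretchable (outOf len P)) :
    ∃ m b : ℕ → ℝ, Realizes len P m b := by
  by_cases hok : okk len P = true
  · rw [outOf, if_pos hok] at h
    obtain ⟨m, b, hm, h⟩ := h
    rw [List.length_map, List.length_range] at hm h
    have hget : ∀ i < len, ((List.range len).map (locSeq len P)).getD i [] = locSeq len P i := by
      intro i hi
      rw [List.getD_eq_getElem _ _ (by simpa using hi)]
      simp
    have key : ∀ i j k, i < len → j < len → k < len → j ≠ i → k ≠ i → j ≠ k →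
        bef P i j k = true → xcr m b i j < xcr m b i k := by
      intro i j k hi hj hk hji hki hjk hb
      obtain ⟨h1, h2⟩ := h i hi
      rw [hget i hi] at h1 h2
      have ej := (h1 j).mpr ⟨hj, hji⟩
      have ek := (h1 k).mpr ⟨hk, hki⟩
      simp only [okk, List.all_eq_true, List.mem_range, Bool.or_eq_true, decide_eq_true_eq] at hok
      have h3 : rnk len P i j < rnk len P i k := by
        rcases hok i hi j hj k hk with h4 | h4 | h4 | h4
        · exact absurd h4 hji
        · exact absurd h4 hki
        · exact absurd h4 hjk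
        · rw [hb] at h4
          exact of_decide_eq_true h4.symm
      unfold locSeq at h2 ej ek
      rw [List.pairwise_flatMap] at h2
      simp only [List.mem_flatMap, List.mem_filter, List.mem_range, Bool.and_eq_true,
        decide_eq_true_eq] at ej ek
      obtain ⟨r, hr, ej1, ej2, ej3⟩ := ej
      obtain ⟨r', hr', ek1, ek2, ek3⟩ := ek
      have hp := List.pairwise_iff_getElem.mp h2.2 r r' (by simpa using hr) (by simpa using hr')
        (by omega)
      simp only [List.getElem_range] at hp
      exact hp j (by simp [List.mem_filter, hj, hji, ej3]) k (by simp [List.mem_filter, hk, hki, ek3])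
    refine ⟨m, b, hm, ?_⟩
    intro i j k hij hjk hk
    have hj : j < len := by omega
    have hi : i < len := by omega
    have h1 := hm i j hij hj
    have h2 := hm j k hjk hk
    by_cases hP : P i j k = true
    · rw [if_pos hP]
      have := key i j k hi hj hk (by omega) (by omega) (by omega)
        (by rw [bef, if_pos hjk, tri, if_pos hij, hP])
      exact (cross_one h1 h2).mp this
    · rw [if_neg hP]
      have := key i k j hi hk hj (by omega) (by omega) (by omega)
        (by rw [bef, if_neg (by omega), tri, if_pos hij]; simpa using hP)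
      exact (cross_one' h1 h2).mp this
  · rw [outOf, if_neg hok] at h
    exact absurd h not_stretch_bad

theorem outOf_complete {len : ℕ} {P : ℕ → ℕ → ℕ → Bool} {m b : ℕ → ℝ} (h : Realizes len P m b) :
    Stretchable (outOf len P) := by
  obtain ⟨hm, hP⟩ := h
  -- the order on a line
  have tri_spec : ∀ i j k, i < len → j < len → k < len → i ≠ j → i ≠ k → j < k →
      (tri P i j k = true → xcr m b i j < xcr m b i k) ∧
      (tri P i j k = false → xcr m b i k < xcr m b i j) := by
    intro i j k hi hj hk hij hik hjk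
    unfold xcr
    rcases lt_trichotomy i j with h1 | h1 | h1
    · rw [tri, if_pos h1]
      have h2 := hm i j h1 hj
      have h3 := hm j k hjk hk
      have h4 := hP i j k h1 hjk hk
      constructor
      · intro h5
        rw [if_pos h5] at h4
        exact (cross_one h2 h3).mpr h4
      · intro h5
        rw [if_neg (by simp [h5])] at h4
        exact (cross_one' h2 h3).mpr h4
    · exact absurd h1 hij
    · rw [tri, if_neg (by omega)]
      rcases lt_trichotomy i k with h6 | h6 | h6
      · rw [if_pos h6]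
        have h2 := hm j i h1 hi
        have h3 := hm i k h6 hk
        have h4 := hP j i k h1 h6 hk
        constructor
        · intro h5
          rw [if_pos h5] at h4
          exact (cross_two h2 h3).mpr h4
        · intro h5
          rw [if_neg (by simp [h5])] at h4
          exact (cross_two' h2 h3).mpr h4
      · exact absurd h6 hik
      · rw [if_neg (by omega)]
        have h2 := hm j k hjk hk
        have h3 := hm k i h6 hi
        have h4 := hP j k i hjk h6 hi
        constructor
        · intro h5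
          rw [if_pos h5] at h4
          exact (cross_three h2 h3).mpr h4
        · intro h5
          rw [if_neg (by simp [h5])] at h4
          exact (cross_three' h2 h3).mpr h4
  have bef_iff : ∀ i j k, i < len → j < len → k < len → i ≠ j → i ≠ k → j ≠ k →
      (bef P i j k = true ↔ xcr m b i j < xcr m b i k) := by
    intro i j k hi hj hk hij hik hjk
    rcases lt_or_gt_of_ne hjk with h1 | h1
    · rw [bef, if_pos h1]
      obtain ⟨h2, h3⟩ := tri_spec i j k hi hj hk hij hik h1
      constructor
      · exact h2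
      · intro h4
        by_contra h5
        rw [Bool.not_eq_true] at h5
        exact lt_asymm h4 (h3 h5)
    · rw [bef, if_neg (by omega)]
      obtain ⟨h2, h3⟩ := tri_spec i k j hi hk hj hik hij h1
      rw [Bool.not_eq_true']
      constructor
      · exact h3
      · intro h4
        by_contra h5
        rw [Bool.not_eq_false] at h5
        exact lt_asymm h4 (h2 h5)
  have ne : ∀ i j k, i < len → j < len → k < len → i ≠ j → i ≠ k → j ≠ k →
      xcr m b i j ≠ xcr m b i k := by
    intro i j k hi hj hk hij hik hjk he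
    have h1 := bef_iff i j k hi hj hk hij hik hjk
    have h2 := bef_iff i k j hi hk hj hik hij (Ne.symm hjk)
    rw [he] at h1 h2
    have h3 : bef P i j k = false := by simpa using h1
    have h4 : bef P i k j = false := by simpa using h2
    rcases lt_or_gt_of_ne hjk with h5 | h5
    · rw [bef, if_pos h5] at h3
      rw [bef, if_neg (by omega), h3] at h4
      simp at h4
    · rw [bef, if_pos h5] at h4
      rw [bef, if_neg (by omega), h4] at h3
      simp at h3
  have rk_lt : ∀ i j k, i < len → j < len → k < len → i ≠ j → i ≠ k → j ≠ k →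
      xcr m b i j < xcr m b i k → rnk len P i j < rnk len P i k := by
    intro i j k hi hj hk hij hik hjk hlt
    rw [rnk_eq, rnk_eq]
    apply Finset.card_lt_card
    rw [Finset.ssubset_iff_of_subset]
    · refine ⟨j, ?_, ?_⟩
      · rw [Finset.mem_filter, Finset.mem_range]
        exact ⟨hj, Ne.symm hij, hjk, (bef_iff i j k hi hj hk hij hik hjk).mpr hlt⟩
      · rw [Finset.mem_filter]
        rintro ⟨-, -, h1, -⟩
        exact h1 rfl
    · intro l hl
      rw [Finset.mem_filter, Finset.mem_range] at hl ⊢
      obtain ⟨h1, h2, h3, h4⟩ := hl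
      have h5 := (bef_iff i l j hi h1 hj (Ne.symm h2) hij h3).mp h4
      have h6 : l ≠ k := by
        rintro rfl
        exact lt_asymm h5 hlt
      exact ⟨h1, h2, h6, (bef_iff i l k hi h1 hk (Ne.symm h2) hik h6).mpr (h5.trans hlt)⟩
  have rk_iff : ∀ i j k, i < len → j < len → k < len → i ≠ j → i ≠ k → j ≠ k →
      (xcr m b i j < xcr m b i k ↔ rnk len P i j < rnk len P i k) := by
    intro i j k hi hj hk hij hik hjk
    refine ⟨rk_lt i j k hi hj hk hij hik hjk, fun h => ?_⟩
    by_contra h1
    have h2 : xcr m b i k < xcr m b i j :=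
      lt_of_le_of_ne (not_lt.mp h1) (Ne.symm (ne i j k hi hj hk hij hik hjk))
    have := rk_lt i k j hi hk hj hik hij (Ne.symm hjk) h2
    omega
  have rk_len : ∀ i j, j < len → rnk len P i j < len := by
    intro i j hj
    rw [rnk_eq]
    calc _ < (Finset.range len).card := by
          apply Finset.card_lt_card
          rw [Finset.ssubset_iff_of_subset (Finset.filter_subset _ _)]
          refine ⟨j, Finset.mem_range.mpr hj, ?_⟩
          rw [Finset.mem_filter]
          rintro ⟨-, -, h1, -⟩
          exact h1 rfl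
      _ = len := Finset.card_range len
  have hok : okk len P = true := by
    simp only [okk, List.all_eq_true, List.mem_range, Bool.or_eq_true, decide_eq_true_eq]
    intro i hi j hj k hk
    by_cases h1 : j = i
    · exact Or.inl h1
    by_cases h2 : k = i
    · exact Or.inr (Or.inl h2)
    by_cases h3 : j = k
    · exact Or.inr (Or.inr (Or.inl h3))
    refine Or.inr (Or.inr (Or.inr ?_))
    rw [Bool.eq_iff_iff, decide_eq_true_eq,
      bef_iff i j k hi hj hk (Ne.symm h1) (Ne.symm h2) h3,
      rk_iff i j k hi hj hk (Ne.symm h1) (Ne.symm h2) h3]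
  rw [outOf, if_pos hok]
  refine ⟨m, b, ?_, ?_⟩
  · rw [List.length_map, List.length_range]
    exact hm
  rw [List.length_map, List.length_range]
  intro i hi
  have hget : ((List.range len).map (locSeq len P)).getD i [] = locSeq len P i := by
    rw [List.getD_eq_getElem _ _ (by simpa using hi)]
    simp
  rw [hget]
  constructor
  · intro j
    simp only [locSeq, List.mem_flatMap, List.mem_filter, List.mem_range, Bool.and_eq_true,
      Bool.not_eq_true', decide_eq_false_iff_not, decide_eq_true_eq]
    constructor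
    · rintro ⟨r, -, h1, h2, -⟩
      exact ⟨h1, h2⟩
    · rintro ⟨h1, h2⟩
      exact ⟨_, rk_len i j h1, h1, h2, rfl⟩
  · unfold locSeq
    rw [List.pairwise_flatMap]
    constructor
    · intro r _
      have h1 : ((List.range len).filter
          (fun j => !(decide (j = i)) && decide (rnk len P i j = r))).Nodup :=
        List.nodup_range.filter _
      refine List.Pairwise.imp_of_mem ?_ h1
      intro j k hj hk hjk
      simp only [List.mem_filter, List.mem_range, Bool.and_eq_true,
        Bool.not_eq_true', decide_eq_false_iff_not, decide_eq_true_eq] at hj hk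
      exfalso
      have h2 := rk_iff i j k hi hj.1 hk.1 (Ne.symm hj.2.1) (Ne.symm hk.2.1) hjk
      have h3 := rk_iff i k j hi hk.1 hj.1 (Ne.symm hk.2.1) (Ne.symm hj.2.1) (Ne.symm hjk)
      have h4 := ne i j k hi hj.1 hk.1 (Ne.symm hj.2.1) (Ne.symm hk.2.1) hjk
      rcases lt_or_gt_of_ne h4 with h5 | h5
      · have := h2.mp h5
        omega
      · have := h3.mp h5
        omega
    · refine (List.pairwise_lt_range (n := len)).imp ?_
      intro r r' hrr j hj k hk
      simp only [List.mem_filter, List.mem_range, Bool.and_eq_true,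
        Bool.not_eq_true', decide_eq_false_iff_not, decide_eq_true_eq] at hj hk
      have hjk : j ≠ k := by
        rintro rfl
        omega
      refine (rk_iff i j k hi hj.1 hk.1 (Ne.symm hj.2.1) (Ne.symm hk.2.1) hjk).mpr ?_
      omega

theorem outOf_iff {len : ℕ} {P : ℕ → ℕ → ℕ → Bool} :
    Stretchable (outOf len P) ↔ ∃ m b : ℕ → ℝ, Realizes len P m b :=
  ⟨outOf_sound, fun ⟨_, _, h⟩ => outOf_complete h⟩

/-! ### Polynomial time -/

open Pool.Agent.Lib.PolyTime

variable {α : Type} [Enc α]

theorem pt_tri {P : α → ℕ → ℕ → ℕ → Bool} (hP : PT (fun x : α × ℕ × ℕ × ℕ => P x.1 x.2.1 x.2.2.1 x.2.2.2))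
    {β : Type} [Enc β] {f : β → α} {i j k : β → ℕ} (hf : PT f) (hi : PT i) (hj : PT j) (hk : PT k) :
    PT (fun x => tri (P (f x)) (i x) (j x) (k x)) := by
  refine PT.ite (PT.lt hi hj) (hP.comp (hf.pair (hi.pair (hj.pair hk)))) ?_
  exact PT.ite (PT.lt hi hk) (hP.comp (hf.pair (hj.pair (hi.pair hk))))
    (hP.comp (hf.pair (hj.pair (hk.pair hi))))

theorem pt_bef {P : α → ℕ → ℕ → ℕ → Bool} (hP : PT (fun x : α × ℕ × ℕ × ℕ => P x.1 x.2.1 x.2.2.1 x.2.2.2))
    {β : Type} [Enc β] {f : β → α} {i j k : β → ℕ} (hf : PT f) (hi : PT i) (hj : PT j) (hk : PT k) :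
    PT (fun x => bef (P (f x)) (i x) (j x) (k x)) :=
  PT.ite (PT.lt hj hk) (pt_tri hP hf hi hj hk) (PT.not (pt_tri hP hf hi hk hj))

theorem pt_rnk {len : α → ℕ} {P : α → ℕ → ℕ → ℕ → Bool} (hl : PT len)
    (hP : PT (fun x : α × ℕ × ℕ × ℕ => P x.1 x.2.1 x.2.2.1 x.2.2.2))
    {β : Type} [Enc β] {f : β → α} {i j : β → ℕ} (hf : PT f) (hi : PT i) (hj : PT j) :
    PT (fun x => rnk (len (f x)) (P (f x)) (i x) (j x)) := by
  refine PT.length (PT.filter (f := fun x => List.range (len (f x)))
    (p := fun x k => !(decide (k = i x)) && (!(decide (k = j x)) && bef (P (f x)) (i x) k (j x)))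
    (PT.range (hl.comp hf)) ?_)
  exact PT.and (PT.not (PT.eq PT.snd (hi.comp PT.fst))) (PT.and (PT.not (PT.eq PT.snd (hj.comp PT.fst)))
    (pt_bef hP (hf.comp PT.fst) (hi.comp PT.fst) PT.snd (hj.comp PT.fst)))

theorem pt_locSeq {len : α → ℕ} {P : α → ℕ → ℕ → ℕ → Bool} (hl : PT len)
    (hP : PT (fun x : α × ℕ × ℕ × ℕ => P x.1 x.2.1 x.2.2.1 x.2.2.2)) :
    PT (fun x : α × ℕ => locSeq (len x.1) (P x.1) x.2) := by
  refine PT.flatMap (f := fun x : α × ℕ => List.range (len x.1)) (g := fun (x : α × ℕ) r =>
    (List.range (len x.1)).filter (fun j => !(decide (j = x.2)) &&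
      decide (rnk (len x.1) (P x.1) x.2 j = r))) (PT.range (hl.comp PT.fst)) ?_
  refine PT.filter (f := fun x : (α × ℕ) × ℕ => List.range (len x.1.1))
    (p := fun x j => !(decide (j = x.1.2)) && decide (rnk (len x.1.1) (P x.1.1) x.1.2 j = x.2))
    (PT.range (hl.comp PT.fst.fst')) ?_
  exact PT.and (PT.not (PT.eq PT.snd PT.fst.fst'.snd'))
    (PT.eq (pt_rnk hl hP PT.fst.fst'.fst' PT.fst.fst'.snd' PT.snd) PT.fst.snd')

theorem pt_okk {len : α → ℕ} {P : α → ℕ → ℕ → ℕ → Bool} (hl : PT len)
    (hP : PT (fun x : α × ℕ × ℕ × ℕ => P x.1 x.2.1 x.2.2.1 x.2.2.2)) :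
    PT (fun x : α => okk (len x) (P x)) := by
  refine PT.all (f := fun x : α => List.range (len x)) (p := fun (x : α) i =>
    (List.range (len x)).all fun j => (List.range (len x)).all fun k =>
    decide (j = i) || (decide (k = i) || (decide (j = k) ||
      decide (bef (P x) i j k = decide (rnk (len x) (P x) i j < rnk (len x) (P x) i k)))))
    (PT.range hl) ?_
  refine PT.all (f := fun x : α × ℕ => List.range (len x.1)) (p := fun (x : α × ℕ) j =>
    (List.range (len x.1)).all fun k =>
    decide (j = x.2) || (decide (k = x.2) || (decide (j = k) ||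
      decide (bef (P x.1) x.2 j k =
        decide (rnk (len x.1) (P x.1) x.2 j < rnk (len x.1) (P x.1) x.2 k)))))
    (PT.range (hl.comp PT.fst)) ?_
  refine PT.all (f := fun x : (α × ℕ) × ℕ => List.range (len x.1.1))
    (p := fun (x : (α × ℕ) × ℕ) k =>
    decide (x.2 = x.1.2) || (decide (k = x.1.2) || (decide (x.2 = k) ||
      decide (bef (P x.1.1) x.1.2 x.2 k =
        decide (rnk (len x.1.1) (P x.1.1) x.1.2 x.2 < rnk (len x.1.1) (P x.1.1) x.1.2 k)))))
    (PT.range (hl.comp PT.fst.fst')) ?_
  have ha : PT (fun x : ((α × ℕ) × ℕ) × ℕ => x.1.1.1) := PT.fst.fst'.fst'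
  have hi : PT (fun x : ((α × ℕ) × ℕ) × ℕ => x.1.1.2) := PT.fst.fst'.snd'
  have hj : PT (fun x : ((α × ℕ) × ℕ) × ℕ => x.1.2) := PT.fst.snd'
  have hk : PT (fun x : ((α × ℕ) × ℕ) × ℕ => x.2) := PT.snd
  exact PT.or (PT.eq hj hi) (PT.or (PT.eq hk hi) (PT.or (PT.eq hj hk)
    (PT.eq (pt_bef hP ha hi hj hk) (PT.lt (pt_rnk hl hP ha hi hj) (pt_rnk hl hP ha hi hk)))))

/-- The local sequences are computed in polynomial time. -/
theorem pt_outOf {len : α → ℕ} {P : α → ℕ → ℕ → ℕ → Bool} (hl : PT len)
    (hP : PT (fun x : α × ℕ × ℕ × ℕ => P x.1 x.2.1 x.2.2.1 x.2.2.2)) :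
    PT (fun x : α => outOf (len x) (P x)) := by
  refine PT.ite (c := fun x : α => okk (len x) (P x) = true) ?_ ?_ (PT.const _)
  · exact (pt_okk hl hP).congr (fun x => by simp)
  · exact PT.map (f := fun x : α => List.range (len x)) (g := fun x i => locSeq (len x) (P x) i)
      (PT.range hl) (pt_locSeq hl hP)

end Pool.Agent.Lib.ETR.Str
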