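import Pool.Agent.Lib.ETR.Str.Assemble

set_option autoImplicit false
set_option linter.unusedSimpArgs false

/-!
# Existence of the parameters
-/

namespace Pool.Agent.Lib.ETR.Str

open Filter Topology

theorem exists_small {ι : Type} (s : Set ι) (hs : s.Finite) (f : ι → ℝ) (hf : ∀ i ∈ s, 0 < f i) :
    ∀ᶠ ζ : ℝ in 𝓝[>] 0, ∀ i ∈ s, ζ ≤ f i := by
  rw [eventually_all_finite hs]
  intro i hi
  exact nhdsWithin_le_nhds ((eventually_lt_nhds (hf i hi)).mono fun _ h => h.le)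

theorem exists_big {ι : Type} (s : Set ι) (hs : s.Finite) (f : ι → ℝ) :
    ∀ᶠ M : ℝ in atTop, ∀ i ∈ s, f i ≤ M := by
  rw [eventually_all_finite hs]
  intro i _
  exact eventually_ge_atTop _

theorem pow_grow {a : ℝ} (ha : 1 ≤ a) {i j : ℕ} (h : i < j) : a * a ^ i ≤ a ^ j := by
  calc a * a ^ i = a ^ (i + 1) := by ring
    _ ≤ a ^ j := pow_le_pow_right₀ ha h

/-- the abscissas -/
theorem par_v {ζ M : ℝ} {N : ℕ} {y : ℕ → ℝ} (ζ0 : 0 < ζ) (ζ1 : ζ ≤ 1) (M1 : 1 ≤ M)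
    (hy : ∀ j < N, ζ ≤ y j ∧ y j ≤ M) : ∃ (γ V : ℝ) (v : ℕ → ℝ), 0 < γ ∧ 640 * γ * M ≤ ζ ∧ 0 < V ∧
      (∀ j < N, v (2 * j + 1) = v (2 * j) + y j) ∧
      (∀ i j, i < j → j < 2 * N → v i + 2 * γ ≤ v j) ∧ (∀ j < 2 * N, 1 ≤ v j) ∧
      (∀ j < 2 * N, v j + 1 ≤ V) ∧ (∀ j < N, 4 * (M * M + 1) ≤ ζ / 2 * v (2 * j)) ∧
      ∀ d b, d < b → b < N →
        (M + 1) * (v (2 * d) + M + 1) + 4 * (M * M + 1) ≤ ζ / 2 * v (2 * b) := by
  have M0 : 0 < M := by linarith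
  obtain ⟨γ, hγ⟩ : ∃ γ : ℝ, γ = ζ / (640 * M) := ⟨_, rfl⟩
  have γ0 : 0 < γ := by rw [hγ]; positivity
  have γM : 640 * γ * M = ζ := by rw [hγ]; field_simp
  have γζ : 2 * γ ≤ ζ := by nlinarith
  obtain ⟨A, hA⟩ : ∃ A : ℝ, A = 20 * (M + 1) ^ 2 / ζ := ⟨_, rfl⟩
  have hAζ : ζ * A = 20 * (M + 1) ^ 2 := by rw [hA]; field_simp
  have hA20 : 20 * (M + 1) ^ 2 ≤ A := by
    have : 0 ≤ A := by rw [hA]; positivity
    nlinarith
  have hAM : M + 2 ≤ A := by nlinarith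
  have hA1 : 1 ≤ A := by linarith
  clear hA
  obtain ⟨v, hv⟩ : ∃ v : ℕ → ℝ, v = fun k => A ^ (k / 2 + 1) + if k % 2 = 0 then 0 else y (k / 2) :=
    ⟨_, rfl⟩
  have v0 : ∀ j, v (2 * j) = A ^ (j + 1) := by
    intro j
    have e1 : 2 * j / 2 = j := by omega
    have e2 : 2 * j % 2 = 0 := by omega
    simp only [hv, e1, e2, if_true, add_zero]
  have v1 : ∀ j, v (2 * j + 1) = A ^ (j + 1) + y j := by
    intro j
    have e1 : (2 * j + 1) / 2 = j := by omega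
    have e2 : (2 * j + 1) % 2 = 1 := by omega
    simp only [hv, e1, e2, one_ne_zero, if_false]
  clear hv
  have hAp : ∀ j : ℕ, A ≤ A ^ (j + 1) := by
    intro j
    have := pow_le_pow_right₀ hA1 (show 1 ≤ j + 1 by omega)
    simpa using this
  have vstep : ∀ i, i + 1 < 2 * N → v i + 2 * γ ≤ v (i + 1) := by
    intro i hi
    rcases Nat.even_or_odd' i with ⟨c, rfl | rfl⟩
    · rw [v0, v1]
      have := (hy c (show c < N by omega)).1
      linarith
    · rw [show 2 * c + 1 + 1 = 2 * (c + 1) by ring, v0, v1]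
      have h1 := (hy c (show c < N by omega)).2
      have h2 := hAp c
      have h3 : A ^ (c + 1 + 1) = A * A ^ (c + 1) := by ring
      rw [h3]
      nlinarith
  have vmono : ∀ i j, i < j → j < 2 * N → v i + 2 * γ ≤ v j := by
    intro i j hij
    induction j, hij using Nat.le_induction with
    | base => intro h1; exact vstep i h1
    | succ j hj ih =>
      intro h1
      have h2 := ih (by omega)
      have h3 := vstep j h1
      linarith
  refine ⟨γ, A ^ N + M + 1, v, γ0, γM.le, by positivity, fun j _ => by rw [v0, v1], vmono,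
    ?_, ?_, ?_, ?_⟩
  · intro j hj
    rcases Nat.even_or_odd' j with ⟨c, rfl | rfl⟩
    · rw [v0]; linarith [hAp c]
    · rw [v1]; linarith [hAp c, (hy c (show c < N by omega)).1]
  · intro j hj
    rcases Nat.even_or_odd' j with ⟨c, rfl | rfl⟩
    · rw [v0]
      have := pow_le_pow_right₀ hA1 (show c + 1 ≤ N by omega)
      linarith
    · rw [v1]
      have := pow_le_pow_right₀ hA1 (show c + 1 ≤ N by omega)
      have := (hy c (show c < N by omega)).2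
      linarith
  · intro j _
    rw [v0]
    have h1 := hAp j
    have h2 : ζ / 2 * A ≤ ζ / 2 * A ^ (j + 1) := mul_le_mul_of_nonneg_left h1 (by linarith)
    nlinarith
  · intro d b hdb _
    rw [v0, v0]
    have h1 := pow_grow hA1 (show d + 1 < b + 1 by omega)
    have h2 : 1 ≤ A ^ (d + 1) := by linarith [hAp d]
    have h3 : ζ / 2 * (A * A ^ (d + 1)) ≤ ζ / 2 * A ^ (b + 1) :=
      mul_le_mul_of_nonneg_left h1 (by linarith)
    refine le_trans ?_ h3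
    have h4 : ζ / 2 * (A * A ^ (d + 1)) = 10 * (M + 1) ^ 2 * A ^ (d + 1) := by
      calc ζ / 2 * (A * A ^ (d + 1)) = ζ * A / 2 * A ^ (d + 1) := by ring
        _ = _ := by rw [hAζ]; ring
    rw [h4]
    clear h3 h4 h1 vmono vstep hAp v0 v1 hAζ hA20 γM γζ hy
    generalize A ^ (d + 1) = B at *
    have h5 : (M + 1) * B ≤ (M + 1) ^ 2 * B := by
      have : M + 1 ≤ (M + 1) ^ 2 := by nlinarith
      nlinarith
    have h6 : (M + 1) ^ 2 ≤ (M + 1) ^ 2 * B := by nlinarith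
    nlinarith

/-- the perturbations -/
theorem par_α {ζ R V M : ℝ} (ζ0 : 0 < ζ) (ζ1 : ζ ≤ 1) (hR : 0 ≤ R) (hV : 0 < V) (hM : 1 ≤ M) :
    ∃ α : ℝ, 0 < α ∧ α ≤ 1 ∧ α ≤ ζ / 2 ∧ 2 * α * R * (V + M + 2) ≤ ζ / 320 := by
  obtain ⟨α, hα⟩ : ∃ α : ℝ, α = ζ / (640 * ((R + 1) * (V + M + 2))) := ⟨_, rfl⟩
  have α0 : 0 < α := by rw [hα]; positivity
  have αe : 640 * α * ((R + 1) * (V + M + 2)) = ζ := by rw [hα]; field_simp
  clear hα
  have h1 : 1 ≤ (R + 1) * (V + M + 2) := by nlinarith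
  have αζ : α ≤ ζ / 640 := by nlinarith
  refine ⟨α, α0, by linarith, by linarith, ?_⟩
  have h2 : α * (V + M + 2) * R ≤ α * (V + M + 2) * (R + 1) :=
    mul_le_mul_of_nonneg_left (by linarith) (by positivity)
  nlinarith

/-- the heights -/
theorem par_h {Λ M α : ℝ} (Λ0 : 0 < Λ) (M1 : 1 ≤ M) (α0 : 0 < α) : ∃ h : ℕ → ℝ,
    (∀ g' g, g' < g → (h g' + 2 * Λ) * (M + 1) < (h g - h g' - 2 * Λ) * α) ∧ ∀ g, 2 * Λ ≤ h g := by
  obtain ⟨Q, hQ⟩ : ∃ Q : ℝ, Q = 3 * (M + 1) / α + 2 := ⟨_, rfl⟩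
  have hQα : (Q - 2) * α = 3 * (M + 1) := by rw [hQ]; field_simp; ring
  have hQ2 : 2 ≤ Q := by
    have : 0 < 3 * (M + 1) / α := by positivity
    linarith
  clear hQ
  have hQ1 : ∀ g : ℕ, 1 ≤ Q ^ g := fun g => one_le_pow₀ (by linarith)
  refine ⟨fun g => 2 * Λ * Q ^ g, ?_, ?_⟩
  · intro g' g hlt
    have h1 := pow_grow (show 1 ≤ Q by linarith) hlt
    have h2 := hQ1 g'
    simp only
    generalize Q ^ g' = B at *
    generalize Q ^ g = C at *
    have e1 : 2 * Λ * (B * (Q - 2)) ≤ 2 * Λ * C - 2 * Λ * B - 2 * Λ := by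
      have : B * (Q - 2) ≤ C - B - 1 := by nlinarith
      nlinarith
    have e2 : 2 * Λ * (B * (Q - 2)) * α = 2 * Λ * B * (3 * (M + 1)) := by
      rw [← hQα]; ring
    have e3 : 2 * Λ * (B * (Q - 2)) * α ≤ (2 * Λ * C - 2 * Λ * B - 2 * Λ) * α :=
      mul_le_mul_of_nonneg_right e1 α0.le
    rw [e2] at e3
    refine lt_of_lt_of_le ?_ e3
    have e4 : 2 * Λ * B + 2 * Λ ≤ 2 * Λ * B * 2 := by nlinarith
    have e5 : 0 < 2 * Λ * B * (M + 1) := by positivity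
    nlinarith
  · intro g
    have := hQ1 g
    simp only
    nlinarith

/-- the slopes -/
theorem par_T {H ζ M : ℝ} (H1 : 1 ≤ H) (ζ0 : 0 < ζ) (M1 : 1 ≤ M) : ∃ T : ℕ → ℝ,
    (∀ c, M + 2 ≤ T c) ∧
    ∀ c c', c < c' → H * (T c + M + 1) < ζ / 40 * (T c' - T c - 2 * (M + 1)) := by
  obtain ⟨Z, hZ⟩ : ∃ Z : ℝ, Z = 80 * H / ζ + 4 := ⟨_, rfl⟩
  have hZζ : ζ * (Z - 4) = 80 * H := by rw [hZ]; field_simp; ring
  have hZ4 : 4 ≤ Z := by
    have : 0 < 80 * H / ζ := by positivity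
    linarith
  clear hZ
  have hZ1 : ∀ c : ℕ, 1 ≤ Z ^ c := fun g => one_le_pow₀ (by linarith)
  have hT0 : ∀ c : ℕ, M + 2 ≤ (M + 2) * Z ^ c := by
    intro c
    have := hZ1 c
    nlinarith
  refine ⟨fun c => (M + 2) * Z ^ c, hT0, ?_⟩
  intro c c' hlt
  have h1 := pow_grow (show 1 ≤ Z by linarith) hlt
  have h2 : Z * ((M + 2) * Z ^ c) ≤ (M + 2) * Z ^ c' := by
    have := mul_le_mul_of_nonneg_left h1 (show 0 ≤ M + 2 by linarith)
    linarith
  have h3 := hT0 c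
  simp only
  generalize (M + 2) * Z ^ c = A at *
  generalize (M + 2) * Z ^ c' = B at *
  have h4 : (Z - 3) * A ≤ B - A - 2 * (M + 1) := by linarith
  have h5 : ζ / 40 * ((Z - 3) * A) ≤ ζ / 40 * (B - A - 2 * (M + 1)) :=
    mul_le_mul_of_nonneg_left h4 (by linarith)
  refine lt_of_lt_of_le ?_ h5
  have h6 : ζ / 40 * ((Z - 3) * A) = 2 * H * A + ζ / 40 * A := by
    have : ζ / 40 * (Z - 4) = 2 * H := by linarith
    calc ζ / 40 * ((Z - 3) * A) = ζ / 40 * (Z - 4) * A + ζ / 40 * A := by ring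
      _ = _ := by rw [this]
  rw [h6]
  have h7 : 0 < ζ / 40 * A := mul_pos (by linarith) (by linarith)
  nlinarith

/-- the vertical lines -/
theorem par_K {γ V δ C : ℝ} (γ0 : 0 < γ) (V0 : 0 < V) (δ0 : 0 < δ) (C0 : 0 < C) : ∃ K : ℕ → ℝ,
    (∀ j, 0 < K j) ∧ (∀ j, C < K j * δ) ∧ ∀ j k, j < k → K j * V < K k * γ ∧ K j < K k := by
  obtain ⟨Y, hY⟩ : ∃ Y : ℝ, Y = V / γ + 2 := ⟨_, rfl⟩
  have hYγ : Y * γ = V + 2 * γ := by rw [hY]; field_simp
  have hY2 : 2 ≤ Y := by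
    have : 0 < V / γ := by positivity
    linarith
  clear hY
  obtain ⟨K0, hK0⟩ : ∃ K0 : ℝ, K0 = (C + 1) / δ := ⟨_, rfl⟩
  have hK0δ : K0 * δ = C + 1 := by rw [hK0]; field_simp
  have K00 : 0 < K0 := by rw [hK0]; positivity
  clear hK0
  have hY1 : ∀ c : ℕ, 1 ≤ Y ^ c := fun g => one_le_pow₀ (by linarith)
  refine ⟨fun j => K0 * Y ^ j, fun j => by positivity, ?_, ?_⟩
  · intro j
    have h1 : K0 * 1 ≤ K0 * Y ^ j := mul_le_mul_of_nonneg_left (hY1 j) K00.le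
    have h2 := mul_le_mul_of_nonneg_right h1 δ0.le
    simp only
    linarith
  · intro j k hlt
    have h1 := pow_grow (show 1 ≤ Y by linarith) hlt
    have h2 : Y * (K0 * Y ^ j) ≤ K0 * Y ^ k := by
      have := mul_le_mul_of_nonneg_left h1 K00.le
      linarith
    have h3 : 0 < K0 * Y ^ j := by positivity
    simp only
    generalize K0 * Y ^ j = A at *
    generalize K0 * Y ^ k = B at *
    constructor
    · have h4 : Y * A * γ ≤ B * γ := mul_le_mul_of_nonneg_right h2 γ0.le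
      have h5 : Y * A * γ = A * V + 2 * γ * A := by
        calc Y * A * γ = Y * γ * A := by ring
          _ = _ := by rw [hYγ]; ring
      have h6 : 0 < 2 * γ * A := by positivity
      linarith
    · nlinarith

/-- bounds of a solution -/
theorem par_ζ {L : List BCon} {x y : ℕ → ℝ} (n N : ℕ) (hx : ∀ i, 0 < x i) (hy : ∀ j, 0 < y j)
    (h : ∀ k ∈ L, KHolds x y k) : ∃ ζ M : ℝ, 0 < ζ ∧ ζ ≤ 1 ∧ 1 ≤ M ∧
    (∀ c < n, ζ ≤ x c ∧ x c ≤ M) ∧ (∀ j < N, ζ ≤ y j ∧ y j ≤ M) ∧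
    (∀ c < n, ∀ j < N, ζ ≤ x c * y j) ∧
    (∀ k ∈ L, k.2.2.2 = false →
      x (si k .a) * y (ai k .a) + x (si k .b) * y (ai k .b) + ζ ≤ x (si k .c) * y (ai k .c)) ∧
    (∀ k ∈ L, k.2.2.2 = true → x (si k .b) * y (ai k .b) + ζ ≤ x (si k .c) * y (ai k .c) ∧
      x (si k .c) * y (ai k .c) + ζ ≤ x (si k .a) * y (ai k .a) + x (si k .b) * y (ai k .b)) := by
  have a1 := exists_small {c : ℕ | c < n} (Set.finite_lt_nat n) x (fun c _ => hx c)
  have a2 := exists_small {j : ℕ | j < N} (Set.finite_lt_nat N) y (fun j _ => hy j)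
  have a3 := exists_small ({c : ℕ | c < n} ×ˢ {j : ℕ | j < N})
    ((Set.finite_lt_nat n).prod (Set.finite_lt_nat N)) (fun p => x p.1 * y p.2)
    (fun p _ => mul_pos (hx _) (hy _))
  have a4 := exists_small {k | k ∈ L} (List.finite_toSet L)
    (fun k => if k.2.2.2 then x (si k .c) * y (ai k .c) - x (si k .b) * y (ai k .b) else
      x (si k .c) * y (ai k .c) - (x (si k .a) * y (ai k .a) + x (si k .b) * y (ai k .b))) (by
        rintro ⟨p, q, r, s⟩ hk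
        have := h _ hk
        cases s
        · simp only [KHolds] at this
          simp only [si, ai, Bool.false_eq_true, if_false]
          linarith
        · simp only [KHolds] at this
          simp only [si, ai, if_true]
          linarith [this.1])
  have a5 := exists_small {k | k ∈ L} (List.finite_toSet L)
    (fun k => if k.2.2.2 then x (si k .a) * y (ai k .a) + x (si k .b) * y (ai k .b) -
      x (si k .c) * y (ai k .c) else 1) (by
        rintro ⟨p, q, r, s⟩ hk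
        have := h _ hk
        cases s
        · simp only [Bool.false_eq_true, if_false]
          exact one_pos
        · simp only [KHolds] at this
          simp only [si, ai, if_true]
          linarith [this.2])
  have a6 : ∀ᶠ ζ : ℝ in 𝓝[>] 0, ζ ≤ 1 :=
    nhdsWithin_le_nhds ((eventually_lt_nhds one_pos).mono fun _ h => h.le)
  have a7 : ∀ᶠ ζ : ℝ in 𝓝[>] 0, 0 < ζ := eventually_mem_nhdsWithin
  obtain ⟨ζ, b1, b2, b3, b4, b5, b6, ζ0⟩ :=
    (a1.and (a2.and (a3.and (a4.and (a5.and (a6.and a7)))))).exists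
  obtain ⟨M, c1, c2, M1⟩ := ((exists_big {c : ℕ | c < n} (Set.finite_lt_nat n) x).and
    ((exists_big {j : ℕ | j < N} (Set.finite_lt_nat N) y).and
      (eventually_ge_atTop (1 : ℝ)))).exists
  refine ⟨ζ, M, ζ0, b6, M1, fun c hc => ⟨b1 c hc, c1 c hc⟩, fun j hj => ⟨b2 j hj, c2 j hj⟩,
    fun c hc j hj => b3 (c, j) ⟨hc, hj⟩, ?_, ?_⟩
  · intro k hk hs
    have := b4 k hk
    rw [if_neg (by simp [hs])] at this
    linarith
  · intro k hk hs
    have h1 := b4 k hk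
    have h2 := b5 k hk
    rw [if_pos hs] at h1 h2
    exact ⟨by linarith, by linarith⟩

theorem exists_par {L : List BCon} {n N : ℕ} (hn : ∀ k ∈ L, ∀ l, si k l < n)
    (hN : ∀ k ∈ L, ∀ l, ai k l < N) (hn0 : 0 < n) (hN0 : 0 < N) (hg : ∀ k ∈ L, KGood k)
    {x y : ℕ → ℝ} (hx : ∀ i, 0 < x i) (hy : ∀ j, 0 < y j) (h : ∀ k ∈ L, KHolds x y k) :
    Nonempty (SPar L n N) := by
  obtain ⟨ζ, M, ζ0, ζ1, M1, e1, e2, e3, e4, e5⟩ := par_ζ n N hx hy h
  obtain ⟨γ, V, v, γ0, γM, V0, v1, v2, v3, v4, v5, v6⟩ := par_v ζ0 ζ1 M1 e2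
  obtain ⟨α, α0, α1, αζ, hα⟩ := par_α (R := RR L) ζ0 ζ1 (RR_nonneg L) V0 M1
  have Λ0 : 0 < (M + 1) * (V + M + 1) + 4 * (M * M + 1) := by positivity
  obtain ⟨hh, hh1, hh2⟩ := par_h Λ0 M1 α0
  obtain ⟨H, hH, H1⟩ := ((exists_big {f : FL | f ∈ fls L n} (List.finite_toSet _)
    (fun f => hh f.gad + ((M + 1) * (V + M + 1) + 4 * (M * M + 1)))).and
      (eventually_ge_atTop (1 : ℝ))).exists
  obtain ⟨T, hT0, hT⟩ := par_T H1 ζ0 M1
  obtain ⟨S, hS⟩ := (exists_big {c : ℕ | c < n} (Set.finite_lt_nat n)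
    (fun c => T c + M + 1)).exists
  have S0 : 0 < S := by
    have h1 := hS 0 hn0
    have h2 := hT0 0
    linarith
  have δ0 : 0 < γ * ζ / 2 := by positivity
  have C0 : 0 < H * S + 4 * H + S * V + S := by
    have : 0 < H := by linarith
    positivity
  obtain ⟨K, K1, K2, K3⟩ := par_K γ0 V0 δ0 C0
  have hx0 : 0 < H * S := mul_pos (by linarith) S0
  have hx1 : 0 < S * V := mul_pos S0 V0
  have hx2 : 0 < 2 * S * (γ * ζ / 2) := mul_pos (by linarith) δ0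
  exact ⟨{
    x := x, y := y, v := v, T := T, h := hh, K := K, ζ := ζ, M := M, γ := γ, α := α, V := V,
    Λ := (M + 1) * (V + M + 1) + 4 * (M * M + 1), H := H, S := S, δ := γ * ζ / 2,
    KX := K (2 * N) + 2 * S
    hN0 := hN0, ζ0 := ζ0, ζ1 := ζ1, M1 := M1, hx := e1, hy := e2, hxy := e3, hk0 := e4, hk1 := e5
    hn := hn, hN := hN, hg := hg, γ0 := γ0, γM := γM, v1 := v1, vmono := v2, vge := v3, vV := v4
    vlow := v5, vgrow := v6, α0 := α0, α1 := α1, αζ := αζ, hα := hα, hΛ := le_refl _, hh := hh1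
    hh0 := hh2, hH := hH, hT0 := fun c _ => hT0 c, hT := fun c c' hlt _ => hT c c' hlt, hS := hS
    δ0 := δ0, δγ := le_refl _, hK0 := K2, hK := K3
    hKX := fun j hj => by
      have := (K3 j (2 * N) hj).2
      linarith
    hKX0 := by
      have h1 := K2 (2 * N)
      linarith
    hKXS := by linarith [K1 (2 * N)] }⟩

/-- Solutions give arrangements. -/
theorem str_complete {L : List BCon} {n N : ℕ} (hn : ∀ k ∈ L, ∀ l, si k l < n)
    (hN : ∀ k ∈ L, ∀ l, ai k l < N) (hn0 : 0 < n) (hN0 : 0 < N) (hg : ∀ k ∈ L, KGood k)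
    {x y : ℕ → ℝ} (hx : ∀ i, 0 < x i) (hy : ∀ j, 0 < y j) (h : ∀ k ∈ L, KHolds x y k) :
    ∃ m b, Realizes (names L n N).length (posI L n N) m b := by
  obtain ⟨P⟩ := exists_par hn hN hn0 hN0 hg hx hy h
  exact P.realizes hn0

end Pool.Agent.Lib.ETR.Str
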