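import Pool.Agent.Lib.ETR.Str.Names
import Pool.Agent.Lib.ETR.Str.Order

set_option autoImplicit false
set_option linter.unusedSimpArgs false

/-!
# Arrangements give solutions
-/

namespace Pool.Agent.Lib.ETR.Str

/-- the line with a given number -/
def nm (L : List BCon) (n N i : ℕ) : Ln := ((names L n N)[i]?).getD Ln.x0

/-- the orientations in terms of numbers -/
def posI (L : List BCon) (n N i j k : ℕ) : Bool := pos (nm L n N i) (nm L n N j) (nm L n N k)

/-- the orientations are right -/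
def NReal (NM : List Ln) (sl μ ν : Ln → ℝ) : Prop :=
  (∀ a ∈ NM, ∀ b ∈ NM, sl a < sl b → μ a < μ b) ∧
  ∀ a ∈ NM, ∀ b ∈ NM, ∀ c ∈ NM, sl a < sl b → sl b < sl c →
    if pos a b c then 0 < D3 (μ a) (ν a) (μ b) (ν b) (μ c) (ν c)
    else D3 (μ a) (ν a) (μ b) (ν b) (μ c) (ν c) < 0

theorem extract {L : List BCon} {n N : ℕ} {m b : ℕ → ℝ} {sl : Ln → ℝ}
    (h : Realizes (names L n N).length (posI L n N) m b)
    (hP : (names L n N).Pairwise (fun a b => sl a < sl b)) :
    ∃ μ ν : Ln → ℝ, NReal (names L n N) sl μ ν := by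
  obtain ⟨h1, h2⟩ := h
  have hlt : ∀ a ∈ names L n N, (names L n N).idxOf a < (names L n N).length :=
    fun a ha => List.idxOf_lt_length_of_mem ha
  have hnm : ∀ a ∈ names L n N, nm L n N ((names L n N).idxOf a) = a := by
    intro a ha
    rw [nm, List.getElem?_eq_getElem (hlt a ha), Option.getD_some]
    exact List.getElem_idxOf (hlt a ha)
  have hord : ∀ a ∈ names L n N, ∀ b ∈ names L n N, sl a < sl b →
      (names L n N).idxOf a < (names L n N).idxOf b := by
    intro a ha b hb hab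
    rcases lt_trichotomy ((names L n N).idxOf a) ((names L n N).idxOf b) with h3 | h3 | h3
    · exact h3
    · exfalso
      have h4 : a = b := by rw [← hnm a ha, h3, hnm b hb]
      rw [h4] at hab
      exact lt_irrefl _ hab
    · exfalso
      have h4 := List.pairwise_iff_getElem.mp hP _ _ (hlt b hb) (hlt a ha) h3
      rw [List.getElem_idxOf, List.getElem_idxOf] at h4
      exact lt_asymm hab h4
  refine ⟨fun a => m ((names L n N).idxOf a), fun a => b ((names L n N).idxOf a), ?_, ?_⟩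
  · intro a ha b hb hab
    exact h1 _ _ (hord a ha b hb hab) (hlt b hb)
  · intro a ha b hb c hc hab hbc
    have h3 := h2 _ _ _ (hord a ha b hb hab) (hord b hb c hc hbc) (hlt c hc)
    rw [posI, hnm a ha, hnm b hb, hnm c hc] at h3
    exact h3

theorem realizes_of {L : List BCon} {n N : ℕ} {μ ν : Ln → ℝ}
    (hP : (names L n N).Pairwise (fun a b => μ a < μ b))
    (h : ∀ a ∈ names L n N, ∀ b ∈ names L n N, ∀ c ∈ names L n N, μ a < μ b → μ b < μ c →
      if pos a b c then 0 < D3 (μ a) (ν a) (μ b) (ν b) (μ c) (ν c)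
      else D3 (μ a) (ν a) (μ b) (ν b) (μ c) (ν c) < 0) :
    Realizes (names L n N).length (posI L n N) (fun i => μ (nm L n N i))
      (fun i => ν (nm L n N i)) := by
  have hnm : ∀ i (hi : i < (names L n N).length), nm L n N i = (names L n N)[i] := by
    intro i hi
    rw [nm, List.getElem?_eq_getElem hi, Option.getD_some]
  have hlt : ∀ i j, i < j → j < (names L n N).length → μ (nm L n N i) < μ (nm L n N j) := by
    intro i j hij hj
    rw [hnm i (by omega), hnm j hj]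
    exact List.pairwise_iff_getElem.mp hP i j (by omega) hj hij
  refine ⟨hlt, ?_⟩
  intro i j k hij hjk hk
  have hj : j < (names L n N).length := by omega
  have hi : i < (names L n N).length := by omega
  have := h (nm L n N i) (by rw [hnm i hi]; exact List.getElem_mem _) (nm L n N j)
    (by rw [hnm j hj]; exact List.getElem_mem _) (nm L n N k)
    (by rw [hnm k hk]; exact List.getElem_mem _) (hlt i j hij hj) (hlt j k hjk hk)
  exact this

/-! ### The loops -/

theorem loop_ge {b1 b2 b3 m1 m2 m3 p q u v : ℝ} (h1 : p ≤ m1) (h2 : m2 ≤ q) (h3 : m3 ≤ p)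
    (hv : 0 < v) (huv : v < u) (hu : b1 + m1 * u ≤ b2 + m2 * u) (hv' : b2 + m2 * v ≤ b3 + m3 * v) :
    b1 + (p - q) * (u - v) ≤ b3 := by
  nlinarith [mul_le_mul_of_nonneg_right h1 (hv.trans huv).le,
    mul_le_mul_of_nonneg_right h2 (sub_pos.mpr huv).le, mul_le_mul_of_nonneg_right h3 hv.le]

theorem loop_le {b1 b2 b3 m1 m2 m3 p q u v : ℝ} (h1 : m1 ≤ p) (h2 : q ≤ m2) (h3 : p ≤ m3)
    (hv : 0 < v) (huv : v < u) (hu : b2 + m2 * u ≤ b1 + m1 * u) (hv' : b3 + m3 * v ≤ b2 + m2 * v) :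
    b3 ≤ b1 + (p - q) * (u - v) := by
  nlinarith [mul_le_mul_of_nonneg_right h1 (hv.trans huv).le,
    mul_le_mul_of_nonneg_right h2 (sub_pos.mpr huv).le, mul_le_mul_of_nonneg_right h3 hv.le]

/-! ### The line `x0` becomes the axis -/

theorem D3_transform {m1 b1 m2 b2 m3 b3 M B : ℝ} (h1 : m1 < M) (h2 : m2 < M) (h3 : m3 < M) :
    D3 (1 / (M - m1)) ((b1 - B) / (M - m1)) (1 / (M - m2)) ((b2 - B) / (M - m2)) (1 / (M - m3))
      ((b3 - B) / (M - m3)) = D3 m1 b1 m2 b2 m3 b3 / ((M - m1) * (M - m2) * (M - m3)) := by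
  have e1 : M - m1 ≠ 0 := by linarith
  have e2 : M - m2 ≠ 0 := by linarith
  have e3 : M - m3 ≠ 0 := by linarith
  unfold D3
  field_simp
  ring

theorem D3_last {m1 b1 m2 b2 M B : ℝ} (h1 : m1 < M) (h2 : m2 < M) :
    (b2 - B) / (M - m2) - (b1 - B) / (M - m1) = D3 m1 b1 m2 b2 M B / ((M - m1) * (M - m2)) := by
  have e1 : M - m1 ≠ 0 := by linarith
  have e2 : M - m2 ≠ 0 := by linarith
  unfold D3
  field_simp
  ring

/-! ### The concrete slopes -/

/-- the number of perturbations -/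
noncomputable def RR (L : List BCon) : ℝ := 9 * L.length

/-- concrete slopes -/
noncomputable def sl0 (L : List BCon) (n N : ℕ) : Ln → ℝ :=
  Ln.slope (fun k => (k + 1) * (2 * RR L + 1)) 1 (fun j => (2 * n + 2) * (2 * RR L + 1) + j)
    ((2 * n + 2) * (2 * RR L + 1) + 2 * N + 1)

theorem RR_nonneg (L : List BCon) : 0 ≤ RR L := by unfold RR; positivity

theorem sl0_pairwise (L : List BCon) (n N : ℕ) :
    (names L n N).Pairwise (fun a b => sl0 L n N a < sl0 L n N b) := by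
  have hR := RR_nonneg L
  refine names_pairwise (R := RR L) (S := (2 * n + 2) * (2 * RR L + 1)) one_pos (le_refl _)
    ?_ ?_ ?_ ?_ ?_ ?_ ?_ ?_
  · intro k _
    push_cast
    nlinarith
  · intro f hf
    have h1 : |f.z| ≤ RR L := abs_z_le (by unfold RR; exact_mod_cast fls_mag_le hf)
    have h2 := (mem_fls.mp hf).1
    have h3 := abs_le.mp h1
    have h4 : ((2 * f.cls + f.ty.toNat : ℕ) : ℝ) + 1 ≤ 2 * n := by
      have := Bool.toNat_le f.ty
      have h5 : 2 * f.cls + f.ty.toNat + 1 ≤ 2 * n := by omega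
      exact_mod_cast h5
    have h5 : (0 : ℝ) ≤ ((2 * f.cls + f.ty.toNat : ℕ) : ℝ) := Nat.cast_nonneg _
    simp only [FL.slope]
    constructor
    · nlinarith [h3.1]
    · nlinarith [h3.2]
  · intro j
    have : (0 : ℝ) ≤ j := Nat.cast_nonneg _
    linarith
  · intro j
    positivity
  · intro a b hab
    have : (a : ℝ) < b := by exact_mod_cast hab
    simp only
    linarith
  · intro j hj
    have : (j : ℝ) < 2 * N := by exact_mod_cast hj
    linarith
  · have : (0 : ℝ) ≤ N := Nat.cast_nonneg _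
    linarith
  · positivity

theorem sl0_fl {L : List BCon} {n N : ℕ} {f : FL} (hf : f ∈ fls L n) :
    0 < sl0 L n N (Ln.fl f) ∧ sl0 L n N (Ln.fl f) < (2 * n + 2) * (2 * RR L + 1) := by
  have hR := RR_nonneg L
  have h1 : |f.z| ≤ RR L := abs_z_le (by unfold RR; exact_mod_cast fls_mag_le hf)
  have h2 := (mem_fls.mp hf).1
  have h3 := abs_le.mp h1
  have h4 : ((2 * f.cls + f.ty.toNat : ℕ) : ℝ) + 1 ≤ 2 * n := by
    have := Bool.toNat_le f.ty
    have h5 : 2 * f.cls + f.ty.toNat + 1 ≤ 2 * n := by omega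
    exact_mod_cast h5
  have h5 : (0 : ℝ) ≤ ((2 * f.cls + f.ty.toNat : ℕ) : ℝ) := Nat.cast_nonneg _
  simp only [sl0, Ln.slope, FL.slope]
  constructor
  · nlinarith [h3.1]
  · nlinarith [h3.2]

theorem sl0_vm_fl {L : List BCon} {n N : ℕ} {f : FL} (hf : f ∈ fls L n) (j : ℕ) :
    sl0 L n N (Ln.vm j) < sl0 L n N (Ln.fl f) := by
  have h1 := (sl0_fl (N := N) hf).1
  have hR := RR_nonneg L
  have : sl0 L n N (Ln.vm j) ≤ 0 := by
    simp only [sl0, Ln.slope]
    have : (0 : ℝ) ≤ (2 * n + 2) * (2 * RR L + 1) + j := by positivity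
    linarith
  linarith

theorem sl0_fl_vp {L : List BCon} {n N : ℕ} {f : FL} (hf : f ∈ fls L n) (j : ℕ) :
    sl0 L n N (Ln.fl f) < sl0 L n N (Ln.vp j) := by
  have h1 := (sl0_fl (N := N) hf).2
  have h2 : (0 : ℝ) ≤ j := Nat.cast_nonneg _
  simp only [sl0, Ln.slope] at h1 ⊢
  linarith

theorem sl0_vm_vp {L : List BCon} {n N : ℕ} (i j : ℕ) :
    sl0 L n N (Ln.vm i) < sl0 L n N (Ln.vp j) := by
  have hR := RR_nonneg L
  have h1 : (0 : ℝ) ≤ i := Nat.cast_nonneg _
  have h2 : (0 : ℝ) ≤ j := Nat.cast_nonneg _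
  have h3 : (0 : ℝ) < (2 * n + 2) * (2 * RR L + 1) := by positivity
  simp only [sl0, Ln.slope]
  linarith

theorem sl0_vp_x0 {L : List BCon} {n N : ℕ} {j : ℕ} (hj : j < 2 * N) :
    sl0 L n N (Ln.vp j) < sl0 L n N Ln.x0 := by
  have : (j : ℝ) < 2 * N := by exact_mod_cast hj
  simp only [sl0, Ln.slope]
  linarith

theorem sl0_fl_x0 {L : List BCon} {n N : ℕ} {f : FL} (hf : f ∈ fls L n) :
    sl0 L n N (Ln.fl f) < sl0 L n N Ln.x0 := by
  have h1 := (sl0_fl (N := N) hf).2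
  have h2 : (0 : ℝ) ≤ N := Nat.cast_nonneg _
  simp only [sl0, Ln.slope] at h1 ⊢
  linarith

theorem sl0_key {L : List BCon} {n N : ℕ} {f f' : FL} (hf : f ∈ fls L n) (hf' : f' ∈ fls L n)
    (h : 2 * f.cls + f.ty.toNat < 2 * f'.cls + f'.ty.toNat) :
    sl0 L n N (Ln.fl f) < sl0 L n N (Ln.fl f') := by
  have hR := RR_nonneg L
  have h1 : |f.z| ≤ RR L := abs_z_le (by unfold RR; exact_mod_cast fls_mag_le hf)
  have h1' : |f'.z| ≤ RR L := abs_z_le (by unfold RR; exact_mod_cast fls_mag_le hf')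
  have h3 := abs_le.mp h1
  have h3' := abs_le.mp h1'
  have h4 : ((2 * f.cls + f.ty.toNat : ℕ) : ℝ) + 1 ≤ ((2 * f'.cls + f'.ty.toNat : ℕ) : ℝ) := by
    exact_mod_cast h
  simp only [sl0, Ln.slope, FL.slope]
  nlinarith [h3.2, h3'.1]

theorem sl0_ref {L : List BCon} {n N : ℕ} (c : ℕ) (t : Bool) :
    sl0 L n N (Ln.fl (FL.ref c t)) = ((2 * c + t.toNat : ℕ) + 1 : ℝ) * (2 * RR L + 1) := by
  simp [sl0, Ln.slope, FL.slope, FL.z, FL.mag, FL.sg, FL.cls, FL.ty]

theorem sl0_ref_lt {L : List BCon} {n N : ℕ} {f : FL} (hf : f ∈ loopLines L) (hs : f.sg = true) :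
    sl0 L n N (Ln.fl (FL.ref f.cls f.ty)) < sl0 L n N (Ln.fl f) := by
  rw [sl0_ref]
  have : (0 : ℝ) < f.mag := by exact_mod_cast loopLines_mag_pos hf
  simp only [sl0, Ln.slope, FL.slope, FL.z, hs, if_true]
  linarith

theorem sl0_lt_ref {L : List BCon} {n N : ℕ} {f : FL} (hf : f ∈ loopLines L) (hs : f.sg = false) :
    sl0 L n N (Ln.fl f) < sl0 L n N (Ln.fl (FL.ref f.cls f.ty)) := by
  rw [sl0_ref]
  have : (0 : ℝ) < f.mag := by exact_mod_cast loopLines_mag_pos hf
  simp only [sl0, Ln.slope, FL.slope, FL.z, hs, Bool.false_eq_true, if_false]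
  linarith

theorem ref_mem {L : List BCon} {n c : ℕ} (hc : c < n) (t : Bool) : FL.ref c t ∈ fls L n :=
  mem_fls.mpr ⟨hc, Or.inl ⟨c, t, rfl⟩⟩

/-! ### The solution -/

theorem str_sound {L : List BCon} {n N : ℕ} (hn : ∀ k ∈ L, ∀ l, si k l < n)
    (hN : ∀ k ∈ L, ∀ l, ai k l < N) (hn0 : 0 < n) (hg : ∀ k ∈ L, KGood k) {m b : ℕ → ℝ}
    (h : Realizes (names L n N).length (posI L n N) m b) :
    ∃ x y : ℕ → ℝ, (∀ i, 0 < x i) ∧ (∀ j, 0 < y j) ∧ ∀ k ∈ L, KWeak x y k := by
  obtain ⟨μ, ν, h1, h2⟩ := extract h (sl0_pairwise L n N)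
  have mx : Ln.x0 ∈ names L n N := mem_names.mpr (Or.inr (Or.inr (Or.inr rfl)))
  have mm : ∀ j < 2 * N, Ln.vm j ∈ names L n N := fun j hj => mem_names.mpr (Or.inl ⟨j, hj, rfl⟩)
  have mf : ∀ f ∈ fls L n, Ln.fl f ∈ names L n N := fun f hf =>
    mem_names.mpr (Or.inr (Or.inl ⟨f, hf, rfl⟩))
  have mp : ∀ j < 2 * N, Ln.vp j ∈ names L n N := fun j hj =>
    mem_names.mpr (Or.inr (Or.inr (Or.inl ⟨j, hj, rfl⟩)))
  -- all lines but `x0` are flatter than `x0`
  set M := μ Ln.x0 with hM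
  set B := ν Ln.x0 with hB
  have tm : ∀ j < 2 * N, μ (Ln.vm j) < M := fun j hj =>
    h1 _ (mm j hj) _ mx ((sl0_vm_vp j j).trans (sl0_vp_x0 hj))
  have tf : ∀ f ∈ fls L n, μ (Ln.fl f) < M := fun f hf => h1 _ (mf f hf) _ mx (sl0_fl_x0 hf)
  have tp : ∀ j < 2 * N, μ (Ln.vp j) < M := fun j hj => h1 _ (mp j hj) _ mx (sl0_vp_x0 hj)
  let m' : Ln → ℝ := fun a => 1 / (M - μ a)
  let b' : Ln → ℝ := fun a => (ν a - B) / (M - μ a)
  have hm' : ∀ a ∈ names L n N, ∀ c ∈ names L n N, sl0 L n N a < sl0 L n N c → μ c < M →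
      m' a < m' c := by
    intro a ha c hc hac hcM
    have := h1 a ha c hc hac
    exact one_div_lt_one_div_of_lt (by linarith) (by linarith)
  have hpos3 : ∀ a ∈ names L n N, ∀ c ∈ names L n N, ∀ d ∈ names L n N,
      sl0 L n N a < sl0 L n N c → sl0 L n N c < sl0 L n N d → μ d < M →
      (pos a c d = true → 0 < D3 (m' a) (b' a) (m' c) (b' c) (m' d) (b' d)) ∧
      (pos a c d = false → D3 (m' a) (b' a) (m' c) (b' c) (m' d) (b' d) < 0) := by
    intro a ha c hc d hd hac hcd hdM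
    have e1 := h1 a ha c hc hac
    have e2 := h1 c hc d hd hcd
    have e3 := h2 a ha c hc d hd hac hcd
    have e4 : D3 (m' a) (b' a) (m' c) (b' c) (m' d) (b' d) =
      D3 (μ a) (ν a) (μ c) (ν c) (μ d) (ν d) / ((M - μ a) * (M - μ c) * (M - μ d)) :=
      D3_transform (by linarith) (by linarith) hdM
    have e5 : 0 < (M - μ a) * (M - μ c) * (M - μ d) :=
      mul_pos (mul_pos (by linarith) (by linarith)) (by linarith)
    rw [e4]
    constructor
    · intro e6
      rw [if_pos e6] at e3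
      exact div_pos e3 e5
    · intro e6
      rw [if_neg (by simp [e6])] at e3
      exact div_neg_of_neg_of_pos e3 e5
  have hpos2 : ∀ a ∈ names L n N, ∀ c ∈ names L n N, sl0 L n N a < sl0 L n N c →
      sl0 L n N c < sl0 L n N Ln.x0 →
      (pos a c Ln.x0 = true → b' a < b' c) ∧ (pos a c Ln.x0 = false → b' c < b' a) := by
    intro a ha c hc hac hcx
    have e1 := h1 a ha c hc hac
    have e2 : μ c < M := h1 c hc _ mx hcx
    have e3 := h2 a ha c hc _ mx hac hcx
    have e4 : b' c - b' a = D3 (μ a) (ν a) (μ c) (ν c) M B / ((M - μ a) * (M - μ c)) :=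
      D3_last (by linarith) e2
    have e5 : 0 < (M - μ a) * (M - μ c) := mul_pos (by linarith) (by linarith)
    constructor
    · intro e6
      rw [if_pos e6] at e3
      have := div_pos e3 e5
      linarith
    · intro e6
      rw [if_neg (by simp [e6])] at e3
      have := div_neg_of_neg_of_pos e3 e5
      linarith
  clear_value m' b'
  -- abscissas
  let vv : ℕ → ℝ := fun j => (b' (Ln.vm j) - b' (Ln.vp j)) / (m' (Ln.vp j) - m' (Ln.vm j))
  let ww : ℕ → ℝ := fun j => b' (Ln.vp j) + m' (Ln.vp j) * vv j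
  have mlt : ∀ j < 2 * N, m' (Ln.vm j) < m' (Ln.vp j) := fun j hj =>
    hm' _ (mm j hj) _ (mp j hj) (sl0_vm_vp j j) (tp j hj)
  have ebp : ∀ j < 2 * N, b' (Ln.vp j) = ww j - m' (Ln.vp j) * vv j := by
    intro j _
    simp only [ww]
    ring
  have ebm : ∀ j < 2 * N, b' (Ln.vm j) = ww j - m' (Ln.vm j) * vv j := by
    intro j hj
    have h3 : m' (Ln.vp j) - m' (Ln.vm j) ≠ 0 := by linarith [mlt j hj]
    have h4 : vv j * (m' (Ln.vp j) - m' (Ln.vm j)) = b' (Ln.vm j) - b' (Ln.vp j) :=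
      div_mul_cancel₀ _ h3
    simp only [ww]
    linarith
  clear_value ww
  have vv_pos : ∀ j < 2 * N, 0 < vv j := by
    intro j hj
    have h3 := (hpos2 _ (mm j hj) _ (mp j hj) (sl0_vm_vp j j) (sl0_vp_x0 hj)).2 rfl
    exact div_pos (by linarith) (by linarith [mlt j hj])
  clear_value vv
  have mm_f : ∀ f ∈ fls L n, ∀ j < 2 * N, m' (Ln.vm j) < m' (Ln.fl f) := fun f hf j hj =>
    hm' _ (mm j hj) _ (mf f hf) (sl0_vm_fl hf j) (tf f hf)
  have mf_p : ∀ f ∈ fls L n, ∀ j < 2 * N, m' (Ln.fl f) < m' (Ln.vp j) := fun f hf j hj =>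
    hm' _ (mf f hf) _ (mp j hj) (sl0_fl_vp hf j) (tp j hj)
  -- all lines are above the crossings
  have above : ∀ f ∈ fls L n, ∀ j < 2 * N, ww j < b' (Ln.fl f) + m' (Ln.fl f) * vv j := by
    intro f hf j hj
    have h3 := (hpos3 _ (mm j hj) _ (mf f hf) _ (mp j hj) (sl0_vm_fl hf j) (sl0_fl_vp hf j)
      (tp j hj)).1 (by simp [pos])
    rw [D3, ebp j hj, ebm j hj] at h3
    have h4 := mlt j hj
    have h5 : 0 < (m' (Ln.vp j) - m' (Ln.vm j)) * (b' (Ln.fl f) + m' (Ln.fl f) * vv j - ww j) := by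
      linarith
    have := (mul_pos_iff_of_pos_left (by linarith)).mp h5
    linarith
  have cmpF : ∀ f ∈ fls L n, ∀ f' ∈ fls L n, sl0 L n N (Ln.fl f) < sl0 L n N (Ln.fl f') →
      ∀ j < 2 * N, (lle f f' j = false → b' (Ln.fl f') + m' (Ln.fl f') * vv j <
        b' (Ln.fl f) + m' (Ln.fl f) * vv j) ∧ (lle f f' j = true →
        b' (Ln.fl f) + m' (Ln.fl f) * vv j < b' (Ln.fl f') + m' (Ln.fl f') * vv j) := by
    intro f hf f' hf' hff j hj
    have a1 := above f hf j hj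
    have a2 := above f' hf' j hj
    have c1 := hm' _ (mf f hf) _ (mf f' hf') hff (tf f' hf')
    constructor
    · intro h3
      have h4 := (hpos3 _ (mf f hf) _ (mf f' hf') _ (mp j hj) hff (sl0_fl_vp hf' j) (tp j hj)).2
        (by simp [pos, h3])
      have c2 := mf_p f' hf' j hj
      rw [D3, ebp j hj] at h4
      by_contra h5
      rw [not_lt] at h5
      have h6 : 0 ≤ (b' (Ln.fl f') + m' (Ln.fl f') * vv j - (b' (Ln.fl f) + m' (Ln.fl f) * vv j)) *
        (m' (Ln.vp j) - m' (Ln.fl f)) := mul_nonneg (by linarith) (by linarith)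
      have h7 : 0 < (b' (Ln.fl f) + m' (Ln.fl f) * vv j - ww j) * (m' (Ln.fl f') - m' (Ln.fl f)) :=
        mul_pos (by linarith) (by linarith)
      linarith
    · intro h3
      have h4 := (hpos3 _ (mm j hj) _ (mf f hf) _ (mf f' hf') (sl0_vm_fl hf j) hff (tf f' hf')).2
        (by simp [pos, h3])
      have c2 := mm_f f hf j hj
      rw [D3, ebm j hj] at h4
      by_contra h5
      rw [not_lt] at h5
      have h6 : 0 ≤ (b' (Ln.fl f) + m' (Ln.fl f) * vv j - (b' (Ln.fl f') + m' (Ln.fl f') * vv j)) *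
        (m' (Ln.fl f) - m' (Ln.vm j)) := mul_nonneg (by linarith) (by linarith)
      have h7 : 0 < (b' (Ln.fl f) + m' (Ln.fl f) * vv j - ww j) * (m' (Ln.fl f') - m' (Ln.fl f)) :=
        mul_pos (by linarith) (by linarith)
      linarith
  have vv_lt : ∀ j k, j < k → k < 2 * N → vv j < vv k := by
    intro j k hjk hk
    have hj : j < 2 * N := by omega
    have hf : FL.ref 0 false ∈ fls L n := ref_mem hn0 false
    have a1 := above _ hf j hj
    have a2 := above _ hf k hk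
    have c1 := mm_f _ hf k hk
    have c2 := mf_p _ hf j hj
    have h4 := (hpos3 _ (mm k hk) _ (mf _ hf) _ (mp j hj) (sl0_vm_fl hf k) (sl0_fl_vp hf j)
      (tp j hj)).2 (by simp [pos]; omega)
    rw [D3, ebp j hj, ebm k hk] at h4
    by_contra h5
    rw [not_lt] at h5
    have h6 : 0 ≤ (vv j - vv k) * ((m' (Ln.vp j) - m' (Ln.fl (FL.ref 0 false))) *
      (m' (Ln.fl (FL.ref 0 false)) - m' (Ln.vm k))) :=
      mul_nonneg (by linarith) (mul_nonneg (by linarith) (by linarith))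
    have h7 : 0 < (b' (Ln.fl (FL.ref 0 false)) + m' (Ln.fl (FL.ref 0 false)) * vv k - ww k) *
      (m' (Ln.vp j) - m' (Ln.fl (FL.ref 0 false))) := mul_pos (by linarith) (by linarith)
    have h8 : 0 < (b' (Ln.fl (FL.ref 0 false)) + m' (Ln.fl (FL.ref 0 false)) * vv j - ww j) *
      (m' (Ln.fl (FL.ref 0 false)) - m' (Ln.vm k)) := mul_pos (by linarith) (by linarith)
    linarith
  -- the order on `x0`
  have cmpX : ∀ f ∈ fls L n, ∀ f' ∈ fls L n, f.cls ≠ f'.cls → blt f f' = true →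
      blt f' f = false → b' (Ln.fl f) < b' (Ln.fl f') := by
    intro f hf f' hf' hne hb1 hb2
    have := Bool.toNat_le f.ty
    have := Bool.toNat_le f'.ty
    rcases lt_or_gt_of_ne hne with h3 | h3
    · exact (hpos2 _ (mf f hf) _ (mf f' hf') (sl0_key hf hf' (by omega)) (sl0_fl_x0 hf')).1
        (by simp [pos, hb1])
    · exact (hpos2 _ (mf f' hf') _ (mf f hf) (sl0_key hf' hf (by omega)) (sl0_fl_x0 hf)).2
        (by simp [pos, hb2])
  -- the slopes of the loops
  have refle : ∀ f ∈ loopLines L, f.cls < n → f.sg = true →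
      m' (Ln.fl (FL.ref f.cls f.ty)) ≤ m' (Ln.fl f) := fun f hf hc hs =>
    (hm' _ (mf _ (ref_mem hc _)) _ (mf f (mem_fls.mpr ⟨hc, Or.inr hf⟩)) (sl0_ref_lt hf hs)
      (tf f (mem_fls.mpr ⟨hc, Or.inr hf⟩))).le
  have leref : ∀ f ∈ loopLines L, f.cls < n → f.sg = false →
      m' (Ln.fl f) ≤ m' (Ln.fl (FL.ref f.cls f.ty)) := fun f hf hc hs =>
    (hm' _ (mf f (mem_fls.mpr ⟨hc, Or.inr hf⟩)) _ (mf _ (ref_mem hc _)) (sl0_lt_ref hf hs)
      (tf _ (ref_mem hc _))).le
  let x : ℕ → ℝ := fun c => if c < n then m' (Ln.fl (FL.ref c true)) - m' (Ln.fl (FL.ref c false))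
    else 1
  let y : ℕ → ℝ := fun j => if j < N then vv (2 * j + 1) - vv (2 * j) else 1
  have hx : ∀ c, 0 < x c := by
    intro c
    simp only [x]
    split_ifs with hc
    · have := hm' _ (mf _ (ref_mem hc false)) _ (mf _ (ref_mem hc true))
        (sl0_key (ref_mem hc false) (ref_mem hc true) (by simp [FL.cls, FL.ty]))
        (tf _ (ref_mem hc true))
      linarith
    · exact one_pos
  have hy : ∀ j, 0 < y j := by
    intro j
    simp only [y]
    split_ifs with hj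
    · linarith [vv_lt (2 * j) (2 * j + 1) (by omega) (by omega)]
    · exact one_pos
  refine ⟨x, y, hx, hy, ?_⟩
  intro k hk
  obtain ⟨g, hgk⟩ := List.mem_iff_getElem?.mp hk
  have mlp : ∀ l p, FL.lp g l p (si k l) (ai k l) k.2.2.2 ∈ loopLines L := fun l p =>
    mem_loopLines.mpr ⟨g, k, l, p, hgk, rfl⟩
  have mfl : ∀ l p, FL.lp g l p (si k l) (ai k l) k.2.2.2 ∈ fls L n := fun l p =>
    mem_fls.mpr ⟨hn k hk l, Or.inr (mlp l p)⟩
  have ex : ∀ l, x (si k l) = m' (Ln.fl (FL.ref (si k l) true)) -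
      m' (Ln.fl (FL.ref (si k l) false)) := fun l => if_pos (hn k hk l)
  have ey : ∀ l, y (ai k l) = vv (2 * ai k l + 1) - vv (2 * ai k l) := fun l =>
    if_pos (hN k hk l)
  have v0 : ∀ l, 0 < vv (2 * ai k l) := fun l => vv_pos _ (by have := hN k hk l; omega)
  have v1 : ∀ l, vv (2 * ai k l) < vv (2 * ai k l + 1) := fun l =>
    vv_lt _ _ (by omega) (by have := hN k hk l; omega)
  obtain ⟨⟨hd1, hd2, hd3⟩, -⟩ := hg k hk
  clear_value x y
  have hu : ∀ l, 2 * ai k l + 1 < 2 * N := fun l => by have := hN k hk l; omega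
  have hv : ∀ l, 2 * ai k l < 2 * N := fun l => by have := hN k hk l; omega
  cases hs : k.2.2.2
  · -- first kind
    simp only [hs] at mlp mfl
    have up : ∀ l, tyT l .a = true → tyT l .b = false → tyT l .c = true → qT l false = true →
        b' (Ln.fl (FL.lp g l .a (si k l) (ai k l) false)) + x (si k l) * y (ai k l) ≤
          b' (Ln.fl (FL.lp g l .c (si k l) (ai k l) false)) := by
      intro l t1 t2 t3 t4
      rw [ex, ey]
      have s1 := refle _ (mlp l .a) (hn k hk l) rfl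
      have s2 := leref _ (mlp l .b) (hn k hk l) rfl
      have s3 := leref _ (mlp l .c) (hn k hk l) rfl
      simp only [FL.cls, FL.ty, t1, t2, t3] at s1 s2 s3
      have c1 := (cmpF _ (mfl l .b) _ (mfl l .a) (sl0_key (mfl l .b) (mfl l .a)
        (by simp [FL.cls, FL.ty, t1, t2])) _ (hu l)).1 (by
          simp [lle, FL.cls, FL.gad, FL.q, t4, lleT, pkT, FL.ps, FL.jx])
      have c2 := (cmpF _ (mfl l .b) _ (mfl l .c) (sl0_key (mfl l .b) (mfl l .c)
        (by simp [FL.cls, FL.ty, t3, t2])) _ (hv l)).2 (by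
          simp [lle, FL.cls, FL.gad, FL.q, t4, lleT, pkT, FL.ps, FL.jx])
      exact loop_ge s1 s2 s3 (v0 l) (v1 l) c1.le c2.le
    have dn : b' (Ln.fl (FL.lp g .c .a (si k .c) (ai k .c) false)) - x (si k .c) * y (ai k .c) ≤
          b' (Ln.fl (FL.lp g .c .c (si k .c) (ai k .c) false)) := by
      rw [ex, ey]
      have s1 := refle _ (mlp .c .a) (hn k hk .c) rfl
      have s2 := leref _ (mlp .c .b) (hn k hk .c) rfl
      have s3 := leref _ (mlp .c .c) (hn k hk .c) rfl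
      simp only [FL.cls, FL.ty, tyT] at s1 s2 s3
      have c1 := (cmpF _ (mfl .c .a) _ (mfl .c .b) (sl0_key (mfl .c .a) (mfl .c .b)
        (by simp [FL.cls, FL.ty, tyT])) _ (hu .c)).2 (by
          simp [lle, FL.cls, FL.gad, FL.q, qT, lleT, pkT, FL.ps, FL.jx])
      have c2 := (cmpF _ (mfl .c .c) _ (mfl .c .b) (sl0_key (mfl .c .c) (mfl .c .b)
        (by simp [FL.cls, FL.ty, tyT])) _ (hv .c)).1 (by
          simp [lle, FL.cls, FL.gad, FL.q, qT, lleT, pkT, FL.ps, FL.jx])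
      have := loop_ge s1 s2 s3 (v0 .c) (v1 .c) c1.le c2.le
      linarith
    have e1 := up .a rfl rfl rfl rfl
    have e2 := up .b rfl rfl rfl rfl
    have j1 := cmpX _ (mfl .a .c) _ (mfl .b .a) hd1 (by simp [blt, FL.gad, FL.rk, rkT])
      (by simp [blt, FL.gad, FL.rk, rkT])
    have j2 := cmpX _ (mfl .b .c) _ (mfl .c .a) hd3 (by simp [blt, FL.gad, FL.rk, rkT])
      (by simp [blt, FL.gad, FL.rk, rkT])
    have j3 := cmpX _ (mfl .c .c) _ (mfl .a .a) (Ne.symm hd2) (by simp [blt, FL.gad, FL.rk, rkT])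
      (by simp [blt, FL.gad, FL.rk, rkT])
    obtain ⟨p, q, r, s⟩ := k
    simp only at hs
    subst hs
    simp only [KWeak]
    simp only [si, ai] at e1 e2 j1 j2 j3 dn
    linarith
  · -- second kind
    simp only [hs] at mlp mfl
    have up : ∀ l, tyT l .a = true → tyT l .b = false → tyT l .c = true → qT l true = false →
        b' (Ln.fl (FL.lp g l .c (si k l) (ai k l) true)) ≤
        b' (Ln.fl (FL.lp g l .a (si k l) (ai k l) true)) + x (si k l) * y (ai k l) := by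
      intro l t1 t2 t3 t4
      rw [ex, ey]
      have s1 := leref _ (mlp l .a) (hn k hk l) rfl
      have s2 := refle _ (mlp l .b) (hn k hk l) rfl
      have s3 := refle _ (mlp l .c) (hn k hk l) rfl
      simp only [FL.cls, FL.ty, t1, t2, t3] at s1 s2 s3
      have c1 := (cmpF _ (mfl l .b) _ (mfl l .a) (sl0_key (mfl l .b) (mfl l .a)
        (by simp [FL.cls, FL.ty, t1, t2])) _ (hu l)).2 (by
          simp [lle, FL.cls, FL.gad, FL.q, t4, lleT, pkT, FL.ps, FL.jx])
      have c2 := (cmpF _ (mfl l .b) _ (mfl l .c) (sl0_key (mfl l .b) (mfl l .c)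
        (by simp [FL.cls, FL.ty, t3, t2])) _ (hv l)).1 (by
          simp [lle, FL.cls, FL.gad, FL.q, t4, lleT, pkT, FL.ps, FL.jx])
      exact loop_le s1 s2 s3 (v0 l) (v1 l) c1.le c2.le
    have dn : b' (Ln.fl (FL.lp g .c .c (si k .c) (ai k .c) true)) ≤
        b' (Ln.fl (FL.lp g .c .a (si k .c) (ai k .c) true)) - x (si k .c) * y (ai k .c) := by
      rw [ex, ey]
      have s1 := leref _ (mlp .c .a) (hn k hk .c) rfl
      have s2 := refle _ (mlp .c .b) (hn k hk .c) rfl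
      have s3 := refle _ (mlp .c .c) (hn k hk .c) rfl
      simp only [FL.cls, FL.ty, tyT] at s1 s2 s3
      have c1 := (cmpF _ (mfl .c .a) _ (mfl .c .b) (sl0_key (mfl .c .a) (mfl .c .b)
        (by simp [FL.cls, FL.ty, tyT])) _ (hu .c)).1 (by
          simp [lle, FL.cls, FL.gad, FL.q, qT, lleT, pkT, FL.ps, FL.jx])
      have c2 := (cmpF _ (mfl .c .c) _ (mfl .c .b) (sl0_key (mfl .c .c) (mfl .c .b)
        (by simp [FL.cls, FL.ty, tyT])) _ (hv .c)).2 (by
          simp [lle, FL.cls, FL.gad, FL.q, qT, lleT, pkT, FL.ps, FL.jx])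
      have := loop_le s1 s2 s3 (v0 .c) (v1 .c) c1.le c2.le
      linarith
    have e1 := up .a rfl rfl rfl rfl
    have e2 := up .b rfl rfl rfl rfl
    have j1 := cmpX _ (mfl .b .a) _ (mfl .a .c) (Ne.symm hd1) (by simp [blt, FL.gad, FL.rk, rkT])
      (by simp [blt, FL.gad, FL.rk, rkT])
    have j2 := cmpX _ (mfl .c .a) _ (mfl .b .c) (Ne.symm hd3) (by simp [blt, FL.gad, FL.rk, rkT])
      (by simp [blt, FL.gad, FL.rk, rkT])
    have j3 := cmpX _ (mfl .a .a) _ (mfl .c .c) hd2 (by simp [blt, FL.gad, FL.rk, rkT])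
      (by simp [blt, FL.gad, FL.rk, rkT])
    obtain ⟨p, q, r, s⟩ := k
    simp only at hs
    subst hs
    simp only [KWeak]
    simp only [si, ai] at e1 e2 j1 j2 j3 dn
    linarith

end Pool.Agent.Lib.ETR.Str
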