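import Pool.Agent.Lib.ETR.BilPT
import Pool.Agent.Lib.ETR.Str.Params

set_option autoImplicit false
set_option linter.unusedSimpArgs false

/-!
# The existential theory of the reals reduces to simple stretchability

`strOf` sends a formula (a token sequence) to a list of local sequences. It is computed in
polynomial time, and the local sequences are those of an arrangement of lines if and only if the
formula is satisfiable over the reals.
-/

namespace Pool.Agent.Lib.ETR.Str

open Pool.Agent.Lib.MP_0f8b55_lc (Con Fml Tok consOf pt_consOf)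
open SegGirth (Stretchable)

/-- a number above all indices -/
def nIx (L : List BCon) : ℕ :=
  (L.flatMap (fun k => List.range (k.1.1 + k.1.2 + k.2.1.1 + k.2.1.2 + k.2.2.1.1 +
    k.2.2.1.2 + 1))).length

theorem lt_nIx {L : List BCon} {k : BCon} (hk : k ∈ L) (l : T3) :
    si k l < nIx L ∧ ai k l < nIx L := by
  have h1 := length_le_flatMap (f := fun k : BCon => List.range (k.1.1 + k.1.2 + k.2.1.1 +
    k.2.1.2 + k.2.2.1.1 + k.2.2.1.2 + 1)) hk
  rw [List.length_range] at h1
  cases l <;> simp only [si, ai, nIx] <;> omega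

theorem nIx_pos {L : List BCon} (hL : L ≠ []) : 0 < nIx L := by
  obtain ⟨k, hk⟩ := List.exists_mem_of_ne_nil L hL
  have := (lt_nIx hk .a).1
  omega

/-- the local sequences of a list of comparisons -/
def strB (L : List BCon) : List (List ℕ) :=
  outOf (names L (nIx L) (nIx L)).length (posI L (nIx L) (nIx L))

theorem strB_sound {L : List BCon} (hL : L ≠ []) (hg : ∀ k ∈ L, KGood k)
    (h : Stretchable (strB L)) :
    ∃ x y : ℕ → ℝ, (∀ i, 0 < x i) ∧ (∀ j, 0 < y j) ∧ ∀ k ∈ L, KWeak x y k := by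
  obtain ⟨m, b, hmb⟩ := outOf_sound h
  exact str_sound (fun k hk l => (lt_nIx hk l).1) (fun k hk l => (lt_nIx hk l).2) (nIx_pos hL) hg hmb

theorem strB_complete {L : List BCon} (hL : L ≠ []) (hg : ∀ k ∈ L, KGood k) {x y : ℕ → ℝ}
    (hx : ∀ i, 0 < x i) (hy : ∀ j, 0 < y j) (h : ∀ k ∈ L, KHolds x y k) :
    Stretchable (strB L) := by
  obtain ⟨m, b, hmb⟩ := str_complete (fun k hk l => (lt_nIx hk l).1)
    (fun k hk l => (lt_nIx hk l).2) (nIx_pos hL) (nIx_pos hL) hg hx hy h
  exact outOf_complete hmb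

/-- The local sequences of a token sequence. -/
def strOf (l : List Tok) : List (List ℕ) := strB (conv (bilOf (consOf l)))

/-- A formula is satisfiable if and only if its local sequences are stretchable. -/
theorem strOf_iff (φ : Fml) : (∃ x : ℕ → ℝ, φ.Holds x) ↔ Stretchable (strOf φ.toks) := by
  have hg := conv_good (bilOf_dist φ.toks)
  have hne : conv (bilOf (consOf φ.toks)) ≠ [] := List.cons_ne_nil _ _
  rw [bilOf_iff]
  constructor
  · intro h
    obtain ⟨x, y, hx, hy, h⟩ := conv_complete h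
    exact strB_complete hne hg hx hy h
  · intro h
    obtain ⟨x, y, hx, hy, h⟩ := strB_sound hne hg h
    exact conv_sound hx hy h

/-! ### Polynomial time -/

open Pool.Agent.Lib.PolyTime

variable {α : Type} [Enc α]

/-- numbers of names -/
theorem tn_injective : Function.Injective tn := by
  intro a b h
  cases a <;> cases b <;> simp_all [tn]

instance encT3 : Enc T3 := Enc.ofInj tn tn_injective

/-- code of a line -/
abbrev FC : Type := Bool × ℕ × ℕ × (T3 × T3) × ℕ × Bool

/-- code of a line -/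
def fcode : FL → FC
  | .ref c t => (false, c, 0, (.a, .a), 0, t)
  | .lp g l p c j s => (true, c, g, (l, p), j, s)

theorem fcode_injective : Function.Injective fcode := by
  intro a b h
  rcases a with ⟨c, t⟩ | ⟨g, l, p, c, j, s⟩ <;> rcases b with ⟨c', t'⟩ | ⟨g', l', p', c', j', s'⟩ <;>
    simp_all [fcode]

instance encFL : Enc FL := Enc.ofInj fcode fcode_injective

/-- code of a line -/
def lcode : Ln → ℕ × ℕ × FL
  | .vm j => (0, j, .ref 0 false)
  | .fl f => (1, 0, f)
  | .vp j => (2, j, .ref 0 false)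
  | .x0 => (3, 0, .ref 0 false)

theorem lcode_injective : Function.Injective lcode := by
  intro a b h
  rcases a with j | f | j | _ <;> rcases b with j' | f' | j' | _ <;> simp_all [lcode]

instance encLn : Enc Ln := Enc.ofInj lcode lcode_injective

theorem pt_fcode : PT fcode := PT.of_enc_eq (fun _ => rfl)

theorem pt_lcode : PT lcode := PT.of_enc_eq (fun _ => rfl)

/-! attributes of lines -/

/-- the attribute in terms of the code -/
def tyC (x : Bool × (T3 × T3) × Bool) : Bool := if x.1 then tyT x.2.1.1 x.2.1.2 else x.2.2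
/-- the attribute in terms of the code -/
def rkC (x : Bool × (T3 × T3) × Bool) : ℕ := if x.1 then rkT x.2.1.1 x.2.1.2 x.2.2 else 0
/-- the attribute in terms of the code -/
def sgC (x : Bool × (T3 × T3) × Bool) : Bool := if x.1 then sgT x.2.1.2 x.2.2 else true
/-- the attribute in terms of the code -/
def qC (x : Bool × (T3 × T3) × Bool) : Bool := if x.1 then qT x.2.1.1 x.2.2 else false
/-- the attribute in terms of the code -/
def sbC (x : Bool × (T3 × T3) × Bool) : Bool := if x.1 then x.2.2 else false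

theorem pt_fin {β : Type} [Enc β] (F : Bool × (T3 × T3) × Bool → β) :
    PT (fun f : FL => F ((fcode f).1, (fcode f).2.2.2.1, (fcode f).2.2.2.2.2)) :=
  (PT.ofFintype F).comp ((pt_fcode.fst').pair (pt_fcode.snd'.snd'.snd'.fst'.pair
    pt_fcode.snd'.snd'.snd'.snd'.snd'))

theorem pt_cls {f : α → FL} (hf : PT f) : PT (fun a => (f a).cls) := by
  have h : PT FL.cls := (pt_fcode.snd'.fst').congr (fun f => by cases f <;> rfl)
  exact h.comp hf

theorem pt_ty {f : α → FL} (hf : PT f) : PT (fun a => (f a).ty) := by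
  have h : PT FL.ty := (pt_fin tyC).congr (fun f => by cases f <;> rfl)
  exact h.comp hf

theorem pt_sg {f : α → FL} (hf : PT f) : PT (fun a => (f a).sg) := by
  have h : PT FL.sg := (pt_fin sgC).congr (fun f => by cases f <;> rfl)
  exact h.comp hf

theorem pt_rk {f : α → FL} (hf : PT f) : PT (fun a => (f a).rk) := by
  have h : PT FL.rk := (pt_fin rkC).congr (fun f => by cases f <;> rfl)
  exact h.comp hf

theorem pt_q {f : α → FL} (hf : PT f) : PT (fun a => (f a).q) := by
  have h : PT FL.q := (pt_fin qC).congr (fun f => by cases f <;> rfl)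
  exact h.comp hf

theorem pt_sb {f : α → FL} (hf : PT f) : PT (fun a => (f a).sb) := by
  have h : PT FL.sb := (pt_fin sbC).congr (fun f => by cases f <;> rfl)
  exact h.comp hf

theorem pt_ps {f : α → FL} (hf : PT f) : PT (fun a => (f a).ps) := by
  have h : PT FL.ps := (pt_fcode.snd'.snd'.snd'.fst'.snd').congr (fun f => by cases f <;> rfl)
  exact h.comp hf

theorem pt_jx {f : α → FL} (hf : PT f) : PT (fun a => (f a).jx) := by
  have h : PT FL.jx := (pt_fcode.snd'.snd'.snd'.snd'.fst').congr (fun f => by cases f <;> rfl)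
  exact h.comp hf

theorem pt_toNat {f : α → Bool} (hf : PT f) : PT (fun a => (f a).toNat) :=
  (PT.ofFintype Bool.toNat).comp hf

theorem pt_gad {f : α → FL} (hf : PT f) : PT (fun a => (f a).gad) := by
  have h : PT FL.gad := by
    refine (PT.cond (c := fun f : FL => (fcode f).1) (f := fun f => 2 * (fcode f).2.2.1 + 1)
      (g := fun f => 2 * (2 * (fcode f).2.1 + (fcode f).2.2.2.2.2.toNat)) pt_fcode.fst'
      ((PT.mulConst pt_fcode.snd'.snd'.fst' 2).addConst 1)
      (PT.mulConst ((PT.mulConst pt_fcode.snd'.fst' 2).add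
        (pt_toNat pt_fcode.snd'.snd'.snd'.snd'.snd')) 2)).congr ?_
    intro f
    cases f <;> rfl
  exact h.comp hf

/-! the orientations -/

theorem pt_blt {f g : α → FL} (hf : PT f) (hg : PT g) : PT (fun a => blt (f a) (g a)) :=
  PT.or (PT.lt (pt_gad hf) (pt_gad hg)) (PT.and (PT.eq (pt_gad hf) (pt_gad hg))
    (PT.or (PT.lt (pt_rk hf) (pt_rk hg)) (PT.and (PT.eq (pt_rk hf) (pt_rk hg))
      (PT.lt (pt_jx hf) (pt_jx hg)))))

theorem pt_lleT {q : α → Bool} {k b j : α → ℕ} (hq : PT q) (hk : PT k) (hb : PT b) (hj : PT j) :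
    PT (fun a => lleT (q a) (k a) (b a) (j a)) :=
  PT.ite (PT.eq hk (PT.const 0)) (PT.le (((PT.mulConst hb 2).addConst 1).add (pt_toNat hq)) hj)
    (PT.ite (PT.eq hk (PT.const 1)) (PT.le ((PT.mulConst hb 2).addConst 1) (hj.add (pt_toNat hq)))
      (PT.not hq))

theorem pt_pkT {p q : α → T3} (hp : PT p) (hq : PT q) : PT (fun a => pkT (p a) (q a)) :=
  (PT.ofFintype (fun x : T3 × T3 => pkT x.1 x.2)).comp (hp.pair hq)

theorem pt_lle {f g : α → FL} {j : α → ℕ} (hf : PT f) (hg : PT g) (hj : PT j) :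
    PT (fun a => lle (f a) (g a) (j a)) :=
  PT.ite (PT.eq (pt_cls hf) (pt_cls hg)) (PT.ite (PT.eq (pt_gad hf) (pt_gad hg))
    (pt_lleT (pt_q hf) (pt_pkT (pt_ps hf) (pt_ps hg)) (pt_jx hf) hj)
    (PT.lt (pt_gad hf) (pt_gad hg))) (PT.const true)

theorem pt_fff {f g h : α → FL} (hf : PT f) (hg : PT g) (hh : PT h) :
    PT (fun a => fff (f a) (g a) (h a)) := by
  refine PT.ite (PT.eq (pt_cls hf) (pt_cls hh)) (PT.ite ?_ (PT.not (pt_sb hf))
    (PT.and (PT.le (pt_gad hf) (pt_gad hg)) (PT.le (pt_gad hh) (pt_gad hg))))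
    (PT.ite (PT.eq (pt_cls hg) (pt_cls hh)) (pt_blt hh hg) (pt_blt hf hg))
  exact (PT.and (PT.eq (pt_gad hf) (pt_gad hg)) (PT.eq (pt_gad hg) (pt_gad hh))).congr
    (fun a => by simp)

/-- the orientation in terms of the codes -/
def posC (a b c : ℕ × ℕ × FL) : Bool :=
  if a.1 = 1 then
    if b.1 = 1 then
      if c.1 = 1 then fff a.2.2 b.2.2 c.2.2 else
        if c.1 = 2 then lle a.2.2 b.2.2 c.2.1 else
          if c.1 = 3 then blt a.2.2 b.2.2 else false
    else decide (b.1 = 2) && decide (c.1 = 2)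
  else if a.1 = 0 then
    if b.1 = 1 then
      if c.1 = 1 then !(lle b.2.2 c.2.2 a.2.1) else
        if c.1 = 2 then decide (a.2.1 ≤ c.2.1) else false
    else if b.1 = 2 then decide (c.1 = 2) && decide (a.2.1 ≤ c.2.1)
    else if b.1 = 0 then decide (c.1 = 2) && decide (a.2.1 < c.2.1)
    else false
  else decide (a.1 = 2) && (decide (b.1 = 2) && decide (c.1 = 2))

theorem posC_eq (a b c : Ln) : pos a b c = posC (lcode a) (lcode b) (lcode c) := by
  rcases a with i | f | i | _ <;> rcases b with j | f' | j | _ <;> rcases c with k | f'' | k | _ <;>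
    simp [pos, posC, lcode]

theorem pt_posC {f g h : α → ℕ × ℕ × FL} (hf : PT f) (hg : PT g) (hh : PT h) :
    PT (fun a => posC (f a) (g a) (h a)) := by
  have c : ∀ {u : α → ℕ × ℕ × FL} (hu : PT u) (k : ℕ), PT (fun a => decide ((u a).1 = k)) :=
    fun hu k => PT.eq hu.fst' (PT.const k)
  refine PT.ite (c hf 1) (PT.ite (c hg 1) (PT.ite (c hh 1)
    (pt_fff hf.snd'.snd' hg.snd'.snd' hh.snd'.snd') (PT.ite (c hh 2)
      (pt_lle hf.snd'.snd' hg.snd'.snd' hh.snd'.fst') (PT.ite (c hh 3)
        (pt_blt hf.snd'.snd' hg.snd'.snd') (PT.const false)))) (PT.and (c hg 2) (c hh 2)))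
    (PT.ite (c hf 0) (PT.ite (c hg 1) (PT.ite (c hh 1)
      (PT.not (pt_lle hg.snd'.snd' hh.snd'.snd' hf.snd'.fst'))
      (PT.ite (c hh 2) (PT.le hf.snd'.fst' hh.snd'.fst') (PT.const false)))
      (PT.ite (c hg 2) (PT.and (c hh 2) (PT.le hf.snd'.fst' hh.snd'.fst'))
        (PT.ite (c hg 0) (PT.and (c hh 2) (PT.lt hf.snd'.fst' hh.snd'.fst')) (PT.const false))))
      (PT.and (c hf 2) (PT.and (c hg 2) (c hh 2))))

theorem pt_pos {f g h : α → Ln} (hf : PT f) (hg : PT g) (hh : PT h) :
    PT (fun a => pos (f a) (g a) (h a)) :=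
  (pt_posC (pt_lcode.comp hf) (pt_lcode.comp hg) (pt_lcode.comp hh)).congr
    (fun a => (posC_eq _ _ _).symm)

/-! the list of lines -/

theorem pt_lp {g c j : α → ℕ} {s : α → Bool} (l p : T3) (hg : PT g) (hc : PT c) (hj : PT j)
    (hs : PT s) : PT (fun a => FL.lp (g a) l p (c a) (j a) (s a)) :=
  PT.congr_enc (g := fun a => ((true, c a, g a, (l, p), j a, s a) : FC))
    ((PT.const _).pair (hc.pair (hg.pair ((PT.const _).pair (hj.pair hs))))) (fun _ => rfl)

theorem pt_ref {c : α → ℕ} {t : α → Bool} (hc : PT c) (ht : PT t) :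
    PT (fun a => FL.ref (c a) (t a)) :=
  PT.congr_enc (g := fun a => ((false, c a, 0, (.a, .a), 0, t a) : FC))
    ((PT.const _).pair (hc.pair ((PT.const _).pair ((PT.const _).pair ((PT.const _).pair ht)))))
    (fun _ => rfl)

theorem pt_vm {j : α → ℕ} (hj : PT j) : PT (fun a => Ln.vm (j a)) :=
  PT.congr_enc (g := fun a => ((0, j a, .ref 0 false) : ℕ × ℕ × FL))
    ((PT.const _).pair (hj.pair (PT.const _))) (fun _ => rfl)

theorem pt_vp {j : α → ℕ} (hj : PT j) : PT (fun a => Ln.vp (j a)) :=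
  PT.congr_enc (g := fun a => ((2, j a, .ref 0 false) : ℕ × ℕ × FL))
    ((PT.const _).pair (hj.pair (PT.const _))) (fun _ => rfl)

theorem pt_fl {f : α → FL} (hf : PT f) : PT (fun a => Ln.fl (f a)) :=
  PT.congr_enc (g := fun a => ((1, 0, f a) : ℕ × ℕ × FL))
    ((PT.const _).pair ((PT.const _).pair hf)) (fun _ => rfl)

theorem pt_si {f : α → BCon} (hf : PT f) (l : T3) : PT (fun a => si (f a) l) := by
  cases l
  · exact hf.fst'.fst'
  · exact hf.snd'.fst'.fst'
  · exact hf.snd'.snd'.fst'.fst'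

theorem pt_ai {f : α → BCon} (hf : PT f) (l : T3) : PT (fun a => ai (f a) l) := by
  cases l
  · exact hf.fst'.snd'
  · exact hf.snd'.fst'.snd'
  · exact hf.snd'.snd'.fst'.snd'

theorem pt_loopLines : PT loopLines := by
  refine PT.flatMap (g := fun (_ : List BCon) (q : BCon × ℕ) => [T3.a, T3.b, T3.c].flatMap
    (fun l => [T3.a, T3.b, T3.c].map (fun p =>
      FL.lp q.2 l p (si q.1 l) (ai q.1 l) q.1.2.2.2))) (PT.zipIdx PT.id) ?_
  refine PT.flatMapConst [T3.a, T3.b, T3.c] (f := fun (l : T3) (x : List BCon × BCon × ℕ) =>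
    [T3.a, T3.b, T3.c].map (fun p =>
      FL.lp x.2.2 l p (si x.2.1 l) (ai x.2.1 l) x.2.1.2.2.2)) (fun l _ => ?_)
  refine PT.mapConst [T3.a, T3.b, T3.c] (f := fun (p : T3) (x : List BCon × BCon × ℕ) =>
    FL.lp x.2.2 l p (si x.2.1 l) (ai x.2.1 l) x.2.1.2.2.2) (fun p _ => ?_)
  exact pt_lp l p PT.snd.snd' (pt_si PT.snd.fst' l) (pt_ai PT.snd.fst' l) PT.snd.fst'.snd'.snd'.snd'

theorem pt_blockL {L : α → List BCon} {c : α → ℕ} (hL : PT L) (hc : PT c) (t sg : Bool) :
    PT (fun a => blockL (L a) (c a) t sg) :=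
  PT.filter (f := fun a => loopLines (L a)) (p := fun a f =>
    decide (f.cls = c a) && (decide (f.ty = t) && decide (f.sg = sg))) (pt_loopLines.comp hL)
    (PT.and (PT.eq (pt_cls PT.snd) (hc.comp PT.fst)) (PT.and (PT.eq (pt_ty PT.snd) (PT.const t))
      (PT.eq (pt_sg PT.snd) (PT.const sg))))

theorem pt_block {L : α → List BCon} {c : α → ℕ} (hL : PT L) (hc : PT c) (t : Bool) :
    PT (fun a => block (L a) (c a) t) :=
  PT.append (PT.reverse (pt_blockL hL hc t false))
    (PT.cons (pt_ref hc (PT.const t)) (pt_blockL hL hc t true))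

theorem pt_fls {L : α → List BCon} {n : α → ℕ} (hL : PT L) (hn : PT n) :
    PT (fun a => fls (L a) (n a)) :=
  PT.flatMap (f := fun a => List.range (n a)) (g := fun a c => block (L a) c false ++
    block (L a) c true) (PT.range hn) (PT.append (pt_block (hL.comp PT.fst) PT.snd false)
      (pt_block (hL.comp PT.fst) PT.snd true))

theorem pt_names {L : α → List BCon} {n N : α → ℕ} (hL : PT L) (hn : PT n) (hN : PT N) :
    PT (fun a => names (L a) (n a) (N a)) := by
  have hr : PT (fun a => List.range (2 * N a)) := PT.range (PT.mulConst hN 2)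
  exact PT.append (PT.map (f := fun a => (List.range (2 * N a)).reverse)
      (g := fun _ j => Ln.vm j) (PT.reverse hr) (pt_vm PT.snd))
    (PT.append (PT.map (f := fun a => fls (L a) (n a)) (g := fun _ f => Ln.fl f) (pt_fls hL hn)
      (pt_fl PT.snd)) (PT.append (PT.map (f := fun a => List.range (2 * N a))
        (g := fun _ j => Ln.vp j) hr (pt_vp PT.snd)) (PT.const _)))

theorem pt_nIx : PT nIx :=
  PT.length (PT.flatMap (g := fun (_ : List BCon) (k : BCon) =>
    List.range (k.1.1 + k.1.2 + k.2.1.1 + k.2.1.2 + k.2.2.1.1 + k.2.2.1.2 + 1)) PT.id (PT.range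
      ((((((PT.snd.fst'.fst'.add PT.snd.fst'.snd').add PT.snd.snd'.fst'.fst').add
        PT.snd.snd'.fst'.snd').add PT.snd.snd'.snd'.fst'.fst').add
        PT.snd.snd'.snd'.fst'.snd').addConst 1)))

theorem pt_nm {L : α → List BCon} {i : α → ℕ} (hL : PT L) (hi : PT i) :
    PT (fun a => nm (L a) (nIx (L a)) (nIx (L a)) (i a)) := by
  have hx : PT (fun a => nIx (L a)) := pt_nIx.comp hL
  refine (PT.optCases (f := fun a => (names (L a) (nIx (L a)) (nIx (L a)))[i a]?)
    (g := fun _ => Ln.x0) (h := fun _ b => b) (PT.getElem? hi (pt_names hL hx hx))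
    (PT.const _) PT.snd).congr ?_
  intro a
  rw [nm]
  cases (names (L a) (nIx (L a)) (nIx (L a)))[i a]? <;> rfl

theorem pt_strB : PT strB := by
  have hx : PT nIx := pt_nIx
  refine pt_outOf (len := fun L => (names L (nIx L) (nIx L)).length)
    (P := fun L i j k => posI L (nIx L) (nIx L) i j k) (PT.length (pt_names PT.id hx hx)) ?_
  exact pt_pos (pt_nm PT.fst PT.snd.fst') (pt_nm PT.fst PT.snd.snd'.fst')
    (pt_nm PT.fst PT.snd.snd'.snd')

theorem pt_conv : PT conv := by
  refine PT.cons (PT.const _) (PT.flatMap (g := fun (_ : List BCon) (k : BCon) => conv1 k)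
    PT.id ?_)
  have h : PT conv1 := by
    have b : PT (fun k : BCon => k.1.2) := PT.fst.snd'
    have d : PT (fun k : BCon => k.2.1.2) := PT.snd.fst'.snd'
    have f : PT (fun k : BCon => k.2.2.1.2) := PT.snd.snd'.fst'.snd'
    have a : PT (fun k : BCon => k.1.1) := PT.fst.fst'
    have c : PT (fun k : BCon => k.2.1.1) := PT.snd.fst'.fst'
    have e : PT (fun k : BCon => k.2.2.1.1) := PT.snd.snd'.fst'.fst'
    have s : PT (fun k : BCon => k.2.2.2) := PT.snd.snd'.snd'
    have k : ∀ m : ℕ, PT (fun _ : BCon => m) := fun m => PT.const m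
    have t3 : ∀ {u : BCon → ℕ} (hu : PT u) (m : ℕ), PT (fun x => 3 * u x + m) :=
      fun hu m => (PT.mulConst hu 3).addConst m
    refine PT.cons (pt_bc (k 2) (k 0) (k 0) (t3 d 3) (k 1) (t3 d 2) false)
      (PT.cons (pt_bc (k 2) (k 0) (k 0) (t3 d 2) (k 1) (t3 d 4) false)
      (PT.cons ?_ (PT.cons (pt_bc (k 2) (k 0) (a.addConst 3) (t3 b 2) (e.addConst 3) (t3 f 2) false)
        (PT.const []))))
    refine PT.pair (PT.pair (c.addConst 3) ?_) (PT.pair ((a.addConst 3).pair (t3 b 2))
      (PT.pair ((e.addConst 3).pair (t3 f 2)) s))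
    exact PT.cond s (t3 d 3) (t3 d 4) |>.congr (fun x => by cases x.2.2.2 <;> rfl)
  exact h.comp PT.snd

/-- The local sequences of a formula are computed in polynomial time. -/
theorem pt_strOf : PT (fun φ : Fml => strOf φ.toks) := by
  have h0 : PT (fun φ : Fml => φ.toks) := PT.of_enc_eq (fun _ => rfl)
  exact pt_strB.comp (pt_conv.comp (pt_bilOf.comp (pt_consOf.comp h0)))

end Pool.Agent.Lib.ETR.Str
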